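import Pool.Agent.Lib.Pa76659H.Sw

/-!
Thinning of the worlds.
-/

set_option linter.unusedSectionVars false
set_option linter.unusedVariables false

namespace Pool.Agent.Lib.Pa76659H

open Pool.Agent.Lib.Pa76659

namespace Thin

open Classical in
/-- Existence of a good restriction. -/
theorem exists_good {ι Θ K : Type} [Fintype ι] [Fintype Θ] (N R w s A c : ℕ)
    (F : Θ → (ι → Option (Fin N)) → Bool) (hN : 1 ≤ N)
    (hF : ∀ θ x0, Cert Set.univ x0 w (Set.range some) (F θ))
    (hΘ : Fintype.card Θ ≤ 2 ^ A) (hs : A + 1 ≤ s) (hR : 4 * w * (N + 1) * N + 1 ≤ R)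
    (G0 : Finset K) (grp : K → Finset ι) (hG : ∀ γ ∈ G0, (R + 1) * c ≤ (grp γ).card)
    (hc : 4 * G0.card ≤ 2 ^ c) :
    ∃ (κ : ι → Fin (R + 1)) (ξ : ι → Fin N), (∀ θ, Sh {i | κ i = 0} (some ∘ ξ) s (F θ)) ∧
      ∀ γ ∈ G0, ∃ e ∈ grp γ, κ e = 0 := by
  by_contra hcon
  push Not at hcon
  have : NeZero N := ⟨by omega⟩
  set M := Fintype.card ((ι → Fin (R + 1)) × (ι → Fin N)) with hM
  have hM0 : 0 < M := Fintype.card_pos
  let B1 : Θ → Finset ((ι → Fin (R + 1)) × (ι → Fin N)) := fun θ =>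
    Finset.univ.filter (fun p => ¬ Sh {i | p.1 i = 0} (some ∘ p.2) s (F θ))
  let B2 : K → Finset ((ι → Fin (R + 1)) × (ι → Fin N)) := fun γ =>
    Finset.univ.filter (fun p => ∀ e ∈ grp γ, p.1 e ≠ 0)
  have h1 : ∀ θ, (B1 θ).card * 2 ^ (s + 1) ≤ M := by
    intro θ
    have h := switch N R w s (some : Fin N → Option (Fin N)) (Set.univ : Set ι) (F θ)
    have e1 : (Finset.univ.filter (fun p : (ι → Fin (R + 1)) × (ι → Fin N) =>
      Cert Set.univ (some ∘ p.2) w (Set.range some) (F θ) ∧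
        ¬ Sh (Set.univ ∩ {i | p.1 i = 0}) (some ∘ p.2) s (F θ))) = B1 θ := by
      apply Finset.filter_congr
      intro p _
      rw [Set.univ_inter]
      exact ⟨fun h => h.2, fun h => ⟨hF _ _, h⟩⟩
    rw [e1, Fintype.card_option, Fintype.card_fin] at h
    set X := 2 * w * (N + 1) * N with hX
    have hRX : 2 * X ≤ R := by
      rw [hX]
      calc 2 * (2 * w * (N + 1) * N) = 4 * w * (N + 1) * N := by ring
        _ ≤ R := by omega
    rcases Nat.eq_zero_or_pos X with h0 | h0
    · rw [h0] at h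
      have hR1 : 0 < R ^ (s + 1) := by
        apply Nat.pow_pos; omega
      have h2 : (B1 θ).card = 0 := by
        have h3 : (B1 θ).card * R ^ (s + 1) ≤ 0 := by simpa using h
        rcases Nat.mul_eq_zero.1 (Nat.le_zero.1 h3) with h4 | h4
        · exact h4
        · omega
      rw [h2]; omega
    · have h2 : (B1 θ).card * (2 * X) ^ (s + 1) ≤ M * X ^ (s + 1) :=
        (Nat.mul_le_mul_left _ (Nat.pow_le_pow_left hRX _)).trans h
      rw [mul_pow, ← mul_assoc] at h2
      exact Nat.le_of_mul_le_mul_right h2 (Nat.pow_pos h0)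
  have h2 : ∀ γ ∈ G0, (B2 γ).card * 2 ^ c ≤ M := by
    intro γ hγ
    have h := Switch.count_nonzero R (grp γ) c (hG γ hγ) (by omega)
    have e1 : B2 γ = (Finset.univ.filter (fun f : ι → Fin (R + 1) => ∀ e ∈ grp γ, f e ≠ 0)) ×ˢ
        (Finset.univ : Finset (ι → Fin N)) := by
      ext p
      simp [B2]
    have e2 : M = Fintype.card (ι → Fin (R + 1)) * Fintype.card (ι → Fin N) := by
      rw [hM, Fintype.card_prod]
    rw [e1, Finset.card_product, Finset.card_univ, e2]
    calc _ = ((Finset.univ.filter (fun f : ι → Fin (R + 1) => ∀ e ∈ grp γ, f e ≠ 0)).card * 2 ^ c)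
          * Fintype.card (ι → Fin N) := by ring
      _ ≤ _ := Nat.mul_le_mul_right _ (by convert h)
  have h3 : (Finset.univ : Finset ((ι → Fin (R + 1)) × (ι → Fin N))) ⊆
      (Finset.univ.biUnion B1) ∪ (G0.biUnion B2) := by
    intro p _
    by_contra hp
    simp only [Finset.mem_union, Finset.mem_biUnion, Finset.mem_univ, true_and, not_or,
      not_exists, not_and] at hp
    obtain ⟨γ, hγ, hγ2⟩ := hcon p.1 p.2 (fun θ => by
      have := hp.1 θ
      simpa [B1] using this)
    apply hp.2 γ hγ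
    simp only [B2, Finset.mem_filter, Finset.mem_univ, true_and]
    exact hγ2
  have h4 := Finset.card_le_card h3
  rw [Finset.card_univ] at h4
  have h5 : M ≤ ∑ θ, (B1 θ).card + ∑ γ ∈ G0, (B2 γ).card :=
    h4.trans ((Finset.card_union_le _ _).trans
      (Nat.add_le_add Finset.card_biUnion_le Finset.card_biUnion_le))
  have h6 : (∑ θ, (B1 θ).card) * 4 ≤ M := by
    have h7 : (∑ θ, (B1 θ).card) * 2 ^ (s + 1) ≤ 2 ^ A * M := by
      rw [Finset.sum_mul]
      calc ∑ θ, (B1 θ).card * 2 ^ (s + 1) ≤ ∑ _θ : Θ, M := Finset.sum_le_sum (fun i _ => h1 i)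
        _ = Fintype.card Θ * M := by simp
        _ ≤ 2 ^ A * M := Nat.mul_le_mul_right _ hΘ
    have h8 : 2 ^ (A + 2) ≤ 2 ^ (s + 1) := Nat.pow_le_pow_right (by norm_num) (by omega)
    have h9 : 2 ^ A * ((∑ θ, (B1 θ).card) * 4) ≤ 2 ^ A * M := by
      calc 2 ^ A * ((∑ θ, (B1 θ).card) * 4) = (∑ θ, (B1 θ).card) * 2 ^ (A + 2) := by ring
        _ ≤ (∑ θ, (B1 θ).card) * 2 ^ (s + 1) := Nat.mul_le_mul_left _ h8
        _ ≤ _ := h7
    exact Nat.le_of_mul_le_mul_left h9 (by positivity)
  have h7 : (∑ γ ∈ G0, (B2 γ).card) * 4 ≤ M := by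
    rcases Nat.eq_zero_or_pos G0.card with h0 | h0
    · rw [Finset.card_eq_zero.1 h0]; simp
    · have h8 : (∑ γ ∈ G0, (B2 γ).card) * 2 ^ c ≤ G0.card * M := by
        rw [Finset.sum_mul]
        calc ∑ γ ∈ G0, (B2 γ).card * 2 ^ c ≤ ∑ _γ ∈ G0, M := Finset.sum_le_sum (fun i hi => h2 i hi)
          _ = G0.card * M := by simp
      have h9 : G0.card * ((∑ γ ∈ G0, (B2 γ).card) * 4) ≤ G0.card * M := by
        calc G0.card * ((∑ γ ∈ G0, (B2 γ).card) * 4)
            = (∑ γ ∈ G0, (B2 γ).card) * (4 * G0.card) := by ring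
          _ ≤ (∑ γ ∈ G0, (B2 γ).card) * 2 ^ c := Nat.mul_le_mul_left _ hc
          _ ≤ _ := h8
      exact Nat.le_of_mul_le_mul_left h9 h0
  omega

theorem VP_thinM {G : ℕ} {m : ℕ → ℕ → ℕ} {i : ℕ} : ∀ (u : List ℕ) (h : ℕ), 1 ≤ h →
    (VP (thinM G m i) h u ↔ VP (m i) h u)
  | [], _, _ => Iff.rfl
  | a :: u, h, hh => by
      simp only [VP]
      rw [VP_thinM u (h + 1) (by omega)]
      have : thinM G m i h = m i h := by
        unfold thinM
        rw [Function.update_of_ne (by omega)]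
      rw [this]

theorem thinM_zero (G : ℕ) (m : ℕ → ℕ → ℕ) (i : ℕ) : thinM G m i 0 = m i 0 / G := by
  simp [thinM]

/-- the old names below a new name are valid -/
theorem vld_old {I : Finset ℕ} {k : ℕ → ℕ} {m : ℕ → ℕ → ℕ} {G i g : ℕ} {u : List ℕ}
    (h : Vld I k (thinM G m) (i, g :: u)) {a : ℕ} (ha : a < (g + 1) * G) :
    Vld I k m (i, a :: u) := by
  obtain ⟨h1, h2, h3⟩ := h
  simp only [VP] at h3
  obtain ⟨h3, h4⟩ := h3
  rw [thinM_zero] at h3
  refine ⟨h1, by simpa using h2, ?_, (VP_thinM u 1 le_rfl).1 h4⟩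
  have h5 : (g + 1) * G ≤ m i 0 / G * G := Nat.mul_le_mul_right _ h3
  have h6 := Nat.div_mul_le_self (m i 0) G
  exact lt_of_lt_of_le ha (h5.trans h6)

end Thin

open Classical Thin in
/-- MODULE Thin -/
theorem thin (N R w s A c G : ℕ) (I : Finset ℕ) (k : ℕ → ℕ) (m : ℕ → ℕ → ℕ)
    (hk : ∀ i ∈ I, 1 ≤ k i) {Θ : Type} [Fintype Θ]
    (f : Θ → (Var → Option (Fin N)) → Bool) (hN : 1 ≤ N)
    (hf : ∀ θ x, f θ x = true → ∃ (T : List Var) (Γ : Var → Set (Option (Fin N))),
      T.length ≤ w ∧ (∀ v ∈ T, Vld I k m v) ∧ (∀ v ∈ T, x v ∈ Γ v) ∧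
      (∀ v ∈ T, ∃ y, some y ∈ Γ v) ∧ ∀ y, (∀ v ∈ T, y v ∈ Γ v) → f θ y = true)
    (hΘ : Fintype.card Θ ≤ 2 ^ A) (hs : A + 1 ≤ s) (hR : 4 * w * (N + 1) * N + 1 ≤ R)
    (hG : (R + 1) * c ≤ G) (hG0 : 1 ≤ G) (hc : 4 * (names I k (thinM G m)).card ≤ 2 ^ c) :
    ∃ (x0 : Var → Option (Fin N)) (ch : Var → ℕ), (∀ v, (x0 v).isSome) ∧
      (∀ i u g, Vld I k (thinM G m) (i, g :: u) →
        g * G ≤ ch (i, g :: u) ∧ ch (i, g :: u) < (g + 1) * G) ∧
      ∀ θ, ∃ T : MT Var (Option (Fin N)) Bool, T.dle s ∧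
        ∀ z, f θ (patch I k m G ch x0 z) = T.eval z := by
  let ι : Type := {v : Var // v ∈ names I k m}
  let z0 : Fin N := ⟨0, hN⟩
  let lift : (ι → Option (Fin N)) → (Var → Option (Fin N)) := fun x v =>
    if h : v ∈ names I k m then x ⟨v, h⟩ else some z0
  have hlift : ∀ (x : ι → Option (Fin N)) (i : ι), lift x i.1 = x i := by
    intro x i
    simp only [lift]
    rw [dif_pos i.2]
  -- the functions depend only on the names
  have hdep0 : ∀ θ x y, (∀ v ∈ names I k m, x v = y v) → f θ x = true → f θ y = true := by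
    intro θ x y hxy hx
    obtain ⟨T, Γ, h1, h2, h3, h4, h5⟩ := hf θ x hx
    apply h5
    intro v hv
    rw [← hxy v (mem_names.2 (h2 v hv))]
    exact h3 v hv
  have hdep : ∀ θ x y, (∀ v ∈ names I k m, x v = y v) → f θ x = f θ y := by
    intro θ x y hxy
    cases h1 : f θ x <;> cases h2 : f θ y
    · rfl
    · rw [hdep0 θ y x (fun v hv => (hxy v hv).symm) h2] at h1
      simp at h1
    · rw [hdep0 θ x y hxy h1] at h2
      simp at h2
    · rfl
  have hF : ∀ θ x0, Cert Set.univ x0 w (Set.range some) (fun x : ι → Option (Fin N) =>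
      f θ (lift x)) := by
    intro θ x0 x _ hx
    obtain ⟨T, Γ, h1, h2, h3, h4, h5⟩ := hf θ _ hx
    refine ⟨T.attach.map (fun v => ⟨v.1, mem_names.2 (h2 v.1 v.2)⟩), fun i => Γ i.1, ?_, ?_, ?_, ?_⟩
    · simpa using h1
    · intro i hi
      rw [List.mem_map] at hi
      obtain ⟨v, _, rfl⟩ := hi
      have := h3 v.1 v.2
      have e := hlift x ⟨v.1, mem_names.2 (h2 v.1 v.2)⟩
      simp only at e
      rw [← e]; exact this
    · intro i hi
      rw [List.mem_map] at hi
      obtain ⟨v, _, rfl⟩ := hi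
      obtain ⟨y, hy⟩ := h4 v.1 v.2
      exact ⟨some y, ⟨y, rfl⟩, hy⟩
    · intro y _ hy
      apply h5
      intro v hv
      have e := hlift y ⟨v, mem_names.2 (h2 v hv)⟩
      simp only at e
      rw [e]
      exact hy _ (List.mem_map.2 ⟨⟨v, hv⟩, List.mem_attach _ _, rfl⟩)
  -- the groups
  let grp : Var → Finset ι := fun v => match v with
    | (i, []) => ∅
    | (i, g :: u) => Finset.univ.filter (fun e : ι => ∃ y < G, e.1 = (i, (g * G + y) :: u))
  have hgrp : ∀ γ ∈ names I k (thinM G m), (R + 1) * c ≤ (grp γ).card := by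
    rintro ⟨i, u⟩ hγ
    rw [mem_names] at hγ
    rcases u with _ | ⟨g, u⟩
    · exfalso
      have h1 := hk i hγ.1
      have h2 := hγ.2.1
      simp only [List.length_nil] at h2
      omega
    · refine hG.trans ?_
      have hval : ∀ y : Fin G, (i, (g * G + y.1) :: u) ∈ names I k m := by
        intro y
        rw [mem_names]
        apply vld_old hγ
        have := y.2
        calc g * G + y.1 < g * G + G := by omega
          _ = (g + 1) * G := by ring
      calc G = Fintype.card (Fin G) := by simp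
        _ = ((Finset.univ : Finset (Fin G)).image
              (fun y => (⟨(i, (g * G + y.1) :: u), hval y⟩ : ι))).card := by
            rw [Finset.card_image_of_injective, Finset.card_univ]
            intro y y' h
            have h1 := congrArg Subtype.val h
            simp only [Prod.mk.injEq, List.cons.injEq, true_and, and_true] at h1
            exact Fin.ext (by omega)
        _ ≤ _ := by
            apply Finset.card_le_card
            intro e he
            rw [Finset.mem_image] at he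
            obtain ⟨y, _, rfl⟩ := he
            simp only [grp, Finset.mem_filter, Finset.mem_univ, true_and]
            exact ⟨y.1, y.2, rfl⟩
  obtain ⟨κ, ξ, hκ1, hκ2⟩ := exists_good N R w s A c (fun θ (x : ι → Option (Fin N)) =>
      f θ (lift x)) hN hF hΘ hs hR (names I k (thinM G m)) grp hgrp hc
  -- the choice
  have hch : ∀ v : Var, ∃ a : ℕ, ∀ i g u, v = (i, g :: u) → Vld I k (thinM G m) v →
      g * G ≤ a ∧ a < (g + 1) * G ∧ ∀ h : (i, a :: u) ∈ names I k m, κ ⟨(i, a :: u), h⟩ = 0 := by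
    rintro ⟨i, u⟩
    rcases u with _ | ⟨g, u⟩
    · refine ⟨0, ?_⟩
      intro i' g' u' h _
      simp at h
    · by_cases hv : Vld I k (thinM G m) (i, g :: u)
      · obtain ⟨e, he1, he2⟩ := hκ2 _ (mem_names.2 hv)
        simp only [grp, Finset.mem_filter, Finset.mem_univ, true_and] at he1
        obtain ⟨y, hy, hy2⟩ := he1
        refine ⟨g * G + y, ?_⟩
        intro i' g' u' h _
        simp only [Prod.mk.injEq, List.cons.injEq] at h
        obtain ⟨rfl, rfl, rfl⟩ := h
        refine ⟨by omega, ?_, ?_⟩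
        · calc g * G + y < g * G + G := by omega
            _ = (g + 1) * G := by ring
        · intro h
          have : e = ⟨(i, (g * G + y) :: u), h⟩ := Subtype.ext hy2
          rw [← this]; exact he2
      · refine ⟨0, ?_⟩
        intro i' g' u' _ h2
        exact absurd h2 hv
  choose ch hch using hch
  let x0 : Var → Option (Fin N) := fun v => if h : v ∈ names I k m then some (ξ ⟨v, h⟩) else some z0
  refine ⟨x0, ch, ?_, ?_, ?_⟩
  · intro v
    simp only [x0]
    split_ifs <;> rfl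
  · intro i u g hv
    obtain ⟨h1, h2, _⟩ := hch (i, g :: u) i g u rfl hv
    exact ⟨h1, h2⟩
  · intro θ
    obtain ⟨T, hT1, hT2⟩ := hκ1 θ
    obtain ⟨T', hT3, hT4⟩ := MT.exists_comap (ι' := Var) (α' := Option (Fin N))
      (fun z (e : ι) => patch I k m G ch x0 z e.1) (by
        rintro ⟨⟨i, u⟩, he⟩
        rcases u with _ | ⟨a, u⟩
        · exact ⟨(i, []), fun x y _ => rfl⟩
        · refine ⟨(i, (a / G) :: u), fun x y hxy => ?_⟩
          simp only [patch]
          rw [hxy]) hT1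
    refine ⟨T', hT3, fun z => ?_⟩
    rw [hT4, ← hT2]
    · apply hdep
      intro v hv
      have := hlift (fun e : ι => patch I k m G ch x0 z e.1) ⟨v, hv⟩
      exact this.symm
    · rintro ⟨⟨i, u⟩, he⟩ hi
      simp only [Set.mem_setOf_eq] at hi
      rcases u with _ | ⟨a, u⟩
      · simp only [patch, x0, Function.comp]
        rw [dif_pos he]
      · simp only [patch, Function.comp]
        rw [if_neg]
        · simp only [x0]
          rw [dif_pos he]
        · rintro ⟨h1, h2⟩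
          obtain ⟨_, _, h3⟩ := hch (i, (a / G) :: u) i (a / G) u rfl h1
          apply hi
          rw [← h2] at h3
          exact h3 he

end Pool.Agent.Lib.Pa76659H
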