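import Pool.Agent.Lib.Pa76659H.Ext

/-!
The initial family of worlds, and the final contradiction.
-/

set_option maxHeartbeats 4000000
set_option linter.unusedSectionVars false

namespace Pool.Agent.Lib.Pa76659H

open Pool.Agent.Lib.Pa76659 Pool.Agent.Lib.Pa76659.Hier

/-- constant bits below invalid nodes -/
def nb (mm : ℕ → ℕ) : ℕ → List ℕ → Option Bool
  | _, [] => none
  | h, a :: u => match nb mm (h + 1) u with
    | some b => some b
    | none => if a < mm h then none else some (decide (h % 2 = 0))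

theorem nb_none (mm : ℕ → ℕ) : ∀ (h : ℕ) (u : List ℕ), nb mm h u = none ↔ VP mm h u
  | _, [] => by simp [nb, VP]
  | h, a :: u => by
      have ih := nb_none mm (h + 1) u
      simp only [nb, VP, ← ih]
      cases hu : nb mm (h + 1) u with
      | some b => simp
      | none =>
          simp only [and_true]
          split_ifs with h1
          · simp [h1]
          · simp [h1]

theorem tr_invalid (mm full : ℕ → ℕ) (bits : List ℕ → Bool) (hf : ∀ j, 1 ≤ full j)
    (hb : ∀ u c, nb mm 0 u = some c → bits u = c) : ∀ (j : ℕ) (u : List ℕ) (c : Bool),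
    nb mm j u = some c → tr full j bits u = (c ^^ decide (j % 2 = 1))
  | 0, u, c, h => by simp [tr, hb u c h]
  | j + 1, u, c, h => by
      have h1 : ∀ a, nb mm j (a :: u) = some c := by
        intro a; simp [nb, h]
      have h2 : ∀ a, tr full j bits (a :: u) = (c ^^ decide (j % 2 = 1)) :=
        fun a => tr_invalid mm full bits hf hb j (a :: u) c (h1 a)
      rw [tr]
      simp only [h2]
      have h3 : (j + 1) % 2 = 1 ↔ ¬ (j % 2 = 1) := by omega
      by_cases hj : j % 2 = 1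
      · have h4 : ¬ ((j + 1) % 2 = 1) := by omega
        cases c
        · simp [hj, h4]
        · simp only [hj, h4, decide_true, decide_false]
          simp only [Bool.true_xor, Bool.not_true, Bool.not_false, and_true, decide_eq_true_eq]
          exact ⟨0, hf j⟩
      · have h4 : (j + 1) % 2 = 1 := by omega
        cases c
        · simp only [hj, h4, decide_true, decide_false]
          simp only [Bool.false_xor, and_true, decide_eq_true_eq]
          exact ⟨0, hf j⟩
        · simp [hj, h4]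

theorem tr_valid (mm full : ℕ → ℕ) (bits : List ℕ → Bool) (K : ℕ)
    (hf : ∀ j < K, mm j ≤ full j) (hf1 : ∀ j, 1 ≤ full j)
    (hb : ∀ u c, nb mm 0 u = some c → bits u = c) : ∀ (j : ℕ) (u : List ℕ), j ≤ K →
    nb mm j u = none → tr full j bits u = tr mm j bits u
  | 0, u, _, _ => rfl
  | j + 1, u, hj, h => by
      rw [tr, tr]
      apply decide_eq_decide.2
      constructor
      · rintro ⟨a, ha, h1⟩
        by_cases hm : a < mm j
        · refine ⟨a, hm, ?_⟩
          rw [← tr_valid mm full bits K hf hf1 hb j (a :: u) (by omega) (by simp [nb, h, hm])]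
          exact h1
        · exfalso
          rw [tr_invalid mm full bits hf1 hb j (a :: u) (decide (j % 2 = 0))
            (by simp [nb, h, hm])] at h1
          by_cases h2 : j % 2 = 1
          · have h3 : ¬ (j % 2 = 0) := by omega
            simp [h2] at h1
          · have h3 : j % 2 = 0 := by omega
            simp [h3] at h1
      · rintro ⟨a, ha, h1⟩
        refine ⟨a, lt_of_lt_of_le ha (hf j (by omega)), ?_⟩
        rw [tr_valid mm full bits K hf hf1 hb j (a :: u) (by omega) (by simp [nb, h, ha])]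
        exact h1

/-- fan-ins of the tree of bits -/
def mmf (N : ℕ) (m : ℕ → ℕ) : ℕ → ℕ
  | 0 => N
  | h + 1 => m h

/-- the bit at the leaf `p` -/
def lbit {N : ℕ} (m : ℕ → ℕ → ℕ) (i : ℕ) (p : List ℕ) (x : Var → Option (Fin N)) : Bool :=
  match nb (mmf N (m i)) 0 p with
  | some b => b
  | none => match p with
    | [] => false
    | y :: u => !decide (∃ h : y < N, x (i, u) = some ⟨y, h⟩)

open Classical in
/-- the free part of the initial worlds -/
noncomputable def Y0 {N : ℕ} (n J : ℕ) (k : ℕ → ℕ) (m : ℕ → ℕ → ℕ) (x : Var → Option (Fin N))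
    (v : Str) : Bool :=
  if h : ∃ t : ℕ × List ℕ, t.1 ≤ J ∧ t.2.length = k t.1 + 1 ∧ Valid (rs t.1 n) t.2 ∧
    es (rs t.1 n) t.2 = v then lbit m h.choose.1 h.choose.2 x else false

theorem rs_inj {i i' n : ℕ} (hi : i + 2 ≤ n) (hi' : i' + 2 ≤ n) {r r' : Str}
    (h : rs i n ++ r = rs i' n ++ r') : i = i' := by
  have h1 := (List.append_inj h (by rw [rs_length hi, rs_length hi'])).1
  unfold rs at h1
  simp only [List.cons.injEq, true_and] at h1
  exact (rep_inj true _ _ _ _ h1).1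

theorem Y0_leaf {N : ℕ} {n J : ℕ} {k : ℕ → ℕ} {m : ℕ → ℕ → ℕ} (hJ : ∀ i ≤ J, i + 2 ≤ n)
    (x : Var → Option (Fin N)) {i : ℕ} (hi : i ≤ J) {p : List ℕ} (hp : p.length = k i + 1)
    (hv : Valid (rs i n) p) : Y0 n J k m x (es (rs i n) p) = lbit m i p x := by
  have hh : ∃ t : ℕ × List ℕ, t.1 ≤ J ∧ t.2.length = k t.1 + 1 ∧ Valid (rs t.1 n) t.2 ∧
    es (rs t.1 n) t.2 = es (rs i n) p := ⟨(i, p), hi, hp, hv, rfl⟩
  unfold Y0
  rw [dif_pos hh]
  obtain ⟨a1, a2, a3, a4⟩ := hh.choose_spec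
  set t := hh.choose with ht
  obtain ⟨r, hr⟩ := es_prefix (rs t.1 n) t.2
  obtain ⟨r', hr'⟩ := es_prefix (rs i n) p
  have e1 : t.1 = i := by
    apply rs_inj (hJ _ a1) (hJ _ hi) (r := r) (r' := r')
    rw [← hr, ← hr', a4]
  rw [e1] at a2 a3 a4
  have e2 := es_inj (rs i n) t.2 p (a2.trans hp.symm) a3 hv a4
  rw [e1, e2]

theorem valid_of_VP {s : Str} {m : ℕ → ℕ} (hm : ∀ h, m h ≤ 2 ^ s.length) : ∀ (h : ℕ) (u : List ℕ),
    VP m h u → Valid s u
  | _, [], _ => trivial
  | h, a :: u, ⟨h1, h2⟩ => by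
      refine ⟨lt_of_lt_of_le h1 ((hm h).trans (Nat.pow_le_pow_right (by norm_num) ?_)),
        valid_of_VP hm (h + 1) u h2⟩
      rw [es_length]
      exact Nat.le_mul_of_pos_right _ (by positivity)

theorem start {Γ : Ctx} (hΓ : Γ.OK) (m : ℕ → ℕ → ℕ) (hJ : ∀ i ≤ Γ.J, i + 2 ≤ Γ.n)
    (hN : Γ.N ≤ 2 ^ Γ.n) (hm : ∀ i ≤ Γ.J, ∀ h < Γ.k i, m i h ≤ 2 ^ Γ.n) :
    ∃ (YY : Γ.W → Lang) (R : ℕ → Var → DT Str (Option (Fin Γ.N))),
      Inv Γ 0 0 m (fun _ _ => none) YY R := by
  classical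
  refine ⟨Y0 Γ.n Γ.J Γ.k m, fun _ _ => DT.leaf none, ?_, ?_, ?_, ?_, ?_, ?_, Nat.zero_le _, ?_⟩
  · intro v
    by_cases hh : ∃ t : ℕ × List ℕ, t.1 ≤ Γ.J ∧ t.2.length = Γ.k t.1 + 1 ∧
      Valid (rs t.1 Γ.n) t.2 ∧ es (rs t.1 Γ.n) t.2 = v
    · obtain ⟨⟨i, p⟩, a1, a2, a3, rfl⟩ := hh
      simp only at a1 a2 a3
      have e : (fun x : Γ.W => Y0 Γ.n Γ.J Γ.k m x (es (rs i Γ.n) p)) = fun x => lbit m i p x := by
        funext x
        exact Y0_leaf hJ x a1 a2 a3
      show LitF _ (fun x : Γ.W => Y0 Γ.n Γ.J Γ.k m x (es (rs i Γ.n) p))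
      rw [e]
      cases hnb : nb (mmf Γ.N (m i)) 0 p with
      | some b => exact Or.inl ⟨b, fun x => by simp [lbit, hnb]⟩
      | none =>
          rcases p with _ | ⟨y, u⟩
          · simp at a2
          · right
            obtain ⟨h1, h2⟩ := (nb_none _ _ _).1 hnb
            have hy : y < Γ.N := h1
            refine ⟨(i, u), ⟨?_, by simpa using a2, ?_⟩, ⟨y, hy⟩, true, fun x => ?_⟩
            · rw [Finset.mem_Icc]; exact ⟨Nat.zero_le _, a1⟩
            · exact (VP_shift (mmf Γ.N (m i)) 0 u).2 h2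
            · simp only [lbit, hnb, Bool.true_xor]
              congr 1
              apply decide_eq_decide.2
              exact ⟨fun ⟨_, h⟩ => h, fun h => ⟨hy, h⟩⟩
    · refine Or.inl ⟨false, fun x => ?_⟩
      show Y0 Γ.n Γ.J Γ.k m x v = false
      unfold Y0
      rw [dif_neg hh]
  · intro i hi x X hX
    have hiJ := (Finset.mem_Icc.1 hi).2
    have hlen := rs_length (hJ i hiJ)
    set κ := Γ.k i + 1 with hκ
    set full : ℕ → ℕ := fun j => 2 ^ ((rs i Γ.n).length * 2 ^ (κ - 1 - j)) with hfull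
    have hroot : ∀ u, ∃ r, es (rs i Γ.n) u = false :: r := by
      intro u
      obtain ⟨r, hr⟩ := es_prefix (rs i Γ.n) u
      exact ⟨_, by rw [hr]; unfold rs; rw [List.cons_append]⟩
    have h1 := QQ_tr (rs i Γ.n) κ X (fun p => lbit m i p x) (by
      intro u hu hv
      rw [← Y0_leaf hJ x hiJ hu hv]
      obtain ⟨r, hr⟩ := hroot u
      rw [hr]
      apply hX
      rw [← hr, es_length, hlen]
      exact Nat.le_mul_of_pos_right _ (by positivity)) κ [] (by simp) trivial
    have h2 : es (rs i Γ.n) [] = rs i Γ.n := rfl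
    rw [h2] at h1
    rw [h1]
    have h3 := tr_valid (mmf Γ.N (m i)) full (fun p => lbit m i p x) κ (by
      intro j hj
      have h4 : 2 ^ Γ.n ≤ full j := by
        simp only [hfull, hlen]
        apply Nat.pow_le_pow_right (by norm_num)
        exact Nat.le_mul_of_pos_right _ (by positivity)
      refine le_trans ?_ h4
      cases j with
      | zero => exact hN
      | succ j => exact hm i hiJ j (by omega)) (fun j => Nat.one_le_two_pow) (by
      intro u c hc
      simp [lbit, hc]) κ [] le_rfl rfl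
    refine h3.trans ?_
    rw [hκ, tr_bot]
    have h4 : (fun i_1 => mmf Γ.N (m i) (i_1 + 1)) = m i := rfl
    rw [h4]
    apply tr_congr' _ _ _ (Γ.k i) [] trivial
    intro u hu hv
    unfold bot
    have h5 : ∀ y, y < Γ.N → lbit m i (y :: u) x =
        !decide (∃ h : y < Γ.N, x (i, u) = some ⟨y, h⟩) := by
      intro y hy
      have h6 : nb (mmf Γ.N (m i)) 0 (y :: u) = none := by
        rw [nb_none]
        exact ⟨hy, (VP_shift (mmf Γ.N (m i)) 0 u).1 hv⟩
      simp [lbit, h6]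
    cases hx : x (i, u) with
    | none =>
        simp only [Option.isSome_none, decide_eq_false_iff_not]
        rintro ⟨y, hy, h6⟩
        have hy : y < Γ.N := hy
        rw [h5 y hy, hx] at h6
        simp at h6
    | some y =>
        simp only [Option.isSome_some, decide_eq_true_eq]
        refine ⟨y.1, y.2, ?_⟩
        rw [h5 y.1 y.2, hx]
        simp
  · intro i hi y h1 h2
    exfalso
    unfold Ctx.V at h2
    simp only [pow_zero, pow_one] at h2
    omega
  · intro i hi y _; rfl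
  · intro i hi y T hT; simp at hT
  · intro i hi; exact ⟨fun h => absurd h (by omega), fun _ => Nat.zero_le _⟩
  · intro i hi; omega

theorem Inv.fin {Γ : Ctx} (hΓ : Γ.OK) {lv : ℕ} {m : ℕ → ℕ → ℕ}
    {τ : ℕ → Str → Option (DT Str Bool)} {YY : Γ.W → Lang}
    {R : ℕ → Var → DT Str (Option (Fin Γ.N))} (h : Inv Γ Γ.J lv m τ YY R)
    (p : PIx) (l : List NIx) (hkJ : Γ.k Γ.J = l.length) (bM : ℕ)
    (hM : ∀ n : ℕ, 2 ≤ n → ∀ x : Str, x.length ≤ n →
      IsC (SL (n ^ bM)) (n ^ bM) (n ^ bM) l.length (fun O => sEval p l O x))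
    (hX : ∀ X, Mem Γ.q X → ∀ s, sEval p l X s = QQ (l.length + 1) X s)
    (hV : Γ.n ^ bM < Γ.V lv) (hNt : Γ.n ^ bM < Γ.N) (hin : Γ.J + 2 ≤ Γ.n)
    (s a : ℕ) (hst : Γ.n ^ bM ≤ s)
    (ha : ∀ h < Γ.k Γ.J, m Γ.J h ≤ 2 ^ a)
    (hs : Γ.n ^ bM * Γ.k Γ.J + a * Γ.k Γ.J + 4 * Γ.k Γ.J + 4 ≤ s)
    (hm0 : 2 * ((s + 1) * (s + 2) * (4 * s * Γ.N ^ 2 + 1)) ≤ m Γ.J 0)
    (hm : ∀ h, h + 1 < Γ.k Γ.J →
      (s + 1) * (s + 2) * (4 * s * (m Γ.J h) ^ 2 + 1) ^ (h + 2) < m Γ.J (h + 1)) : False := by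
  classical
  have hN : 1 ≤ Γ.N := by omega
  have hbits : ∀ u : Str, u.length ≤ Γ.n ^ bM → LitF (Γ.P Γ.J m) (fun x => Γ.F τ YY x u) :=
    fun u hu => h.bits hΓ u (by omega)
  have hemb : ∀ v : Var, ∃ j : List ℕ, ∀ x y : List ℕ → Option (Fin Γ.N), x j = y j →
      emb hN Γ.J x v = emb hN Γ.J y v := by
    intro v
    refine ⟨v.2, fun x y hxy => ?_⟩
    unfold emb
    rw [hxy]
  obtain ⟨b, x0, Good, h1, h2, h3, h4, h5⟩ := extract (Γ.k Γ.J) Γ.N (Γ.n ^ bM)
    (Γ.n ^ bM) 1 s a (m Γ.J) (hΓ.hk1 Γ.J le_rfl) hN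
    (fun y => Γ.F τ YY (emb hN Γ.J y)) (SL (Γ.n ^ bM)) (by
      intro u hu
      obtain ⟨T, hT1, hT2⟩ := (hbits u hu).mt
      obtain ⟨T', hT'1, hT'2⟩ := MT.exists_comap (emb hN Γ.J) hemb hT1
      exact ⟨T', hT'1, fun x => by rw [hT'2, ← hT2]⟩)
    (fun O => sEval p l O (rs Γ.J Γ.n)) (by
      rw [hkJ]
      exact hM Γ.n (by omega) (rs Γ.J Γ.n) (by rw [rs_length hin])) (by
      intro y
      have h6 := hX (Γ.F τ YY (emb hN Γ.J y)) (h.mem hΓ _) (rs Γ.J Γ.n)
      have h7 := h.tree Γ.J (Finset.mem_Icc.2 ⟨le_rfl, le_rfl⟩) (emb hN Γ.J y)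
        (Γ.F τ YY (emb hN Γ.J y)) (fun v hv => F_false hΓ _ v hv)
      rw [← hkJ] at h6
      refine (h6.trans h7).trans ?_
      have e : ∀ u, emb hN Γ.J y (Γ.J, u) = y u := by intro u; simp [emb]
      simp only [e]) (by rw [mul_one]; exact hst) ha hs hm0 hm
  have hne : Good.Nonempty := by
    rw [← Finset.card_pos]
    have : 0 < m Γ.J 0 := lt_of_lt_of_le (by positivity) hm0
    omega
  obtain ⟨c, hc⟩ := hne
  obtain ⟨L, a1, a2, a3, a4⟩ := h5 c hc
  set z0 : Γ.W := emb hN Γ.J x0 with hz0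
  have a3' : L.eval (Γ.F τ YY (Function.update z0 (Γ.J, c :: b) none)) = false := by
    rw [hz0, ← emb_update]; exact a3
  have a4' : ∀ y, L.eval (Γ.F τ YY (Function.update z0 (Γ.J, c :: b) (some y))) = true := by
    intro y
    rw [hz0, ← emb_update]; exact a4 y
  set x1 := Function.update z0 (Γ.J, c :: b) none with hx1
  set qs := queries (Γ.F τ YY x1) L with hqs
  have hq : ∀ u ∈ qs, u.length ≤ Γ.n ^ bM := by
    rw [hqs]
    clear a1 a3 a4 a3' a4' hqs
    induction L with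
    | leaf b => intro u hu; simp [queries] at hu
    | node v f t ihf iht =>
        obtain ⟨b1, b2, b3⟩ := a2
        intro u hu
        simp only [queries, List.mem_cons] at hu
        rcases hu with rfl | hu
        · exact b1
        · split_ifs at hu
          · exact iht b3 u hu
          · exact ihf b2 u hu
  have hch : ∀ u : Str, ∃ y : Fin Γ.N, u ∈ qs → ∀ y' : Fin Γ.N, y' ≠ y →
      Γ.F τ YY (Function.update z0 (Γ.J, c :: b) (some y')) u = Γ.F τ YY x1 u := by
    intro u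
    by_cases hu : u ∈ qs
    · rcases hbits u (hq u hu) with ⟨e, he⟩ | ⟨v, _, y, e, he⟩
      · exact ⟨⟨0, hN⟩, fun _ y' _ => (he _).trans (he _).symm⟩
      · refine ⟨y, fun _ y' hy' => ?_⟩
        have e1 := he (Function.update z0 (Γ.J, c :: b) (some y'))
        have e2 := he x1
        beta_reduce at e1 e2
        rw [e1, e2, hx1]
        congr 1
        apply decide_eq_decide.2
        by_cases hv : v = (Γ.J, c :: b)
        · subst hv
          simp [hy']
        · rw [Function.update_of_ne hv, Function.update_of_ne hv]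
    · exact ⟨⟨0, hN⟩, fun h => absurd h hu⟩
  choose yy hyy using hch
  have hcard : (qs.map yy).toFinset.card < (Finset.univ : Finset (Fin Γ.N)).card := by
    rw [Finset.card_univ, Fintype.card_fin]
    have h6 := List.toFinset_card_le (qs.map yy)
    have h7 := queries_length (Γ.F τ YY x1) L
    rw [← hqs] at h7
    rw [List.length_map] at h6
    omega
  obtain ⟨y', _, hy'⟩ := Finset.exists_mem_notMem_of_card_lt_card hcard
  have h8 := queries_eval (Γ.F τ YY x1)
    (Γ.F τ YY (Function.update z0 (Γ.J, c :: b) (some y'))) L (by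
      intro u hu
      apply hyy u hu
      rintro rfl
      exact hy' (List.mem_toFinset.2 (List.mem_map_of_mem hu)))
  rw [a4' y', a3'] at h8
  simp at h8

end Pool.Agent.Lib.Pa76659H
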