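import Pool.Agent.Lib.Pa76659H.Lim

/-!
The high classes relative to an oracle, and the final argument.
-/

set_option maxHeartbeats 4000000

namespace Pool.Agent.Lib.Pa76659H

open Pool.Agent.Lib.Pa76659

/-- The high class `H_k^P` relative to the oracle `X`:
sets `A ∈ NP^X` with `Σ_{k+1}^{P,X} ⊆ Σ_k^{P,X}(A)`. -/
def High (X : Lang) (k : ℕ) : Set Lang := {A | A ∈ NPO X ∧ Sig X (k + 1) ⊆ Sig (join X A) k}

/-- The refined high class `\hat H_{k+1}^P` relative to the oracle `X`: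
sets `A ∈ NP^X` with `Δ_{k+2}^{P,X} ⊆ Δ_{k+1}^{P,X}(A)`. -/
def RHighSucc (X : Lang) (k : ℕ) : Set Lang :=
  {A | A ∈ NPO X ∧ DelSucc X (k + 1) ⊆ DelSucc (join X A) k}

/-- Turing complete sets of `NP^X`. -/
def TComp (X : Lang) : Set Lang := {A | A ∈ NPO X ∧ NPO X ⊆ PO (join X A)}

theorem tcomp_high {X : Lang} {k : ℕ} : TComp X ⊆ High X k := by
  rintro A ⟨h1, h2⟩
  refine ⟨h1, ?_⟩
  induction k with
  | zero =>
      rintro L ⟨B, hB, hL⟩
      exact h2 (NPO_subset hB hL)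
  | succ k ih =>
      rintro L ⟨B, hB, hL⟩
      exact ⟨B, ih hB, hL⟩

theorem high_rhigh {X : Lang} {k : ℕ} : High X k ⊆ RHighSucc X k := by
  rintro A ⟨h1, h2⟩
  refine ⟨h1, ?_⟩
  rintro L ⟨B, hB, hL⟩
  exact ⟨B, h2 hB, hL⟩

theorem rhigh_high {X : Lang} {k : ℕ} : RHighSucc X k ⊆ High X (k + 1) := by
  rintro A ⟨h1, h2⟩
  refine ⟨h1, ?_⟩
  rintro L ⟨B, hB, hL⟩
  obtain ⟨C, hC, hBC⟩ := h2 ⟨B, hB, query_mem B⟩
  exact ⟨C, hC, NPO_subset hBC hL⟩

theorem highCollapse_of (hSL : ScaleLemma) (hW : ∀ (X A L : Lang) (j B : ℕ),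
    (∀ x, walk j B X (join X A) x ((x.length + 2) ^ (2 ^ (B + 5))) [] [] = some (L x)) →
      L ∈ PO (join X A)) : ∃ X : Lang, (∀ k, Sig X k ≠ Sig X (k + 1)) ∧
    (∀ k, High X k = TComp X) ∧ (∀ k, RHighSucc X k = TComp X) := by
  obtain ⟨X, hX1, hX2⟩ := exists_oracle2 hSL
  have h1 : ∀ k, High X (k + 1) ⊆ TComp X := by
    rintro k A ⟨hA, h2⟩
    refine ⟨hA, fun L hL => ?_⟩
    obtain ⟨a, ha⟩ := exists_nEval hA
    obtain ⟨i, hi⟩ := exists_nEval hL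
    obtain ⟨p, l, hl, h3⟩ := exists_sEval (h2 (QQ_mem X (k + 1 + 1)))
    rcases hX2 a i p l (by rintro rfl; simp at hl) with ⟨s, hs⟩ | ⟨c, hc1, hc2, hc3⟩
    · rw [← ha, hl, ← h3] at hs
      exact absurd rfl hs
    · apply hW X A L c.j c.B
      intro x
      have h4 := hc3 x
      unfold Wk hs fuel at h4
      rw [hc1, hc2, ← ha, ← hi] at h4
      exact h4
  have h0 : High X 0 ⊆ TComp X := by
    rintro A ⟨hA, h2⟩
    exact ⟨hA, fun L hL => h2 ⟨X, query_mem X, hL⟩⟩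
  have h2 : ∀ k, High X k ⊆ TComp X := by
    intro k
    cases k with
    | zero => exact h0
    | succ k => exact h1 k
  refine ⟨X, ?_, fun k => Set.Subset.antisymm (h2 k) tcomp_high,
    fun k => Set.Subset.antisymm (rhigh_high.trans (h2 _)) (tcomp_high.trans high_rhigh)⟩
  have h3 : ∀ k, Sig X (k + 1) ≠ Sig X (k + 1 + 1) := by
    intro k hk
    have h4 := QQ_mem X (k + 1 + 1)
    rw [← hk] at h4
    obtain ⟨p, l, hl, h5⟩ := exists_sEval h4
    obtain ⟨s, hs⟩ := hX1 p l (by rintro rfl; simp at hl)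
    rw [hl, ← h5] at hs
    exact hs rfl
  intro k hk
  exact h3 k (sig_congr hk)

end Pool.Agent.Lib.Pa76659H
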