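import Pool.Agent.Lib.Pa76659.Final

/-!
Multi-valued decision trees, used for the high hierarchy.
-/

set_option linter.unusedSectionVars false

namespace Pool.Agent.Lib.Pa76659H

open Pool.Agent.Lib.Pa76659

/-- Decision trees reading variables `i : ι` with values in `α`. -/
inductive MT (ι α β : Type)
  | leaf : β → MT ι α β
  | node : ι → (α → MT ι α β) → MT ι α β

namespace MT

variable {ι ι' α α' β γ : Type}

/-- evaluation -/
def eval (x : ι → α) : MT ι α β → β
  | leaf b => b
  | node i ch => (ch (x i)).eval x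

/-- depth at most `d` -/
def dle : MT ι α β → ℕ → Prop
  | leaf _, _ => True
  | node _ _, 0 => False
  | node _ ch, d + 1 => ∀ z, (ch z).dle d

theorem dle_mono : ∀ {T : MT ι α β} {d e : ℕ}, T.dle d → d ≤ e → T.dle e
  | leaf _, _, _, _, _ => trivial
  | node _ _, 0, _, h, _ => absurd h (by simp [dle])
  | node _ ch, d + 1, 0, _, h => by omega
  | node _ ch, d + 1, e + 1, h, hde => fun z => dle_mono (h z) (by omega)

/-- variables read on `x` -/
def path (x : ι → α) : MT ι α β → List ι
  | leaf _ => []
  | node i ch => i :: (ch (x i)).path x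

theorem path_length (x : ι → α) : ∀ {T : MT ι α β} {d : ℕ}, T.dle d → (T.path x).length ≤ d
  | leaf _, _, _ => by simp [path]
  | node _ _, 0, h => absurd h (by simp [dle])
  | node i ch, d + 1, h => by
      have := path_length x (h (x i))
      simp only [path, List.length_cons]
      omega

theorem eval_path {x y : ι → α} : ∀ {T : MT ι α β}, (∀ i ∈ T.path x, y i = x i) →
    T.eval y = T.eval x
  | leaf _, _ => rfl
  | node i ch, h => by
      have h1 : y i = x i := h i (by simp [path])
      simp only [eval, h1]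
      exact eval_path (fun j hj => h j (by simp [path, hj]))

/-- replace leaves by trees -/
def bind (T : MT ι α β) (g : β → MT ι α γ) : MT ι α γ :=
  match T with
  | leaf b => g b
  | node i ch => node i (fun z => (ch z).bind g)

theorem eval_bind (g : β → MT ι α γ) (x : ι → α) :
    ∀ T : MT ι α β, (T.bind g).eval x = (g (T.eval x)).eval x
  | leaf _ => rfl
  | node i ch => by simp only [bind, eval, eval_bind g x]

theorem dle_bind {g : β → MT ι α γ} {e : ℕ} (hg : ∀ b, (g b).dle e) :
    ∀ {T : MT ι α β} {d : ℕ}, T.dle d → (T.bind g).dle (d + e)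
  | leaf b, d, _ => dle_mono (hg b) (by omega)
  | node _ _, 0, h => absurd h (by simp [dle])
  | node i ch, d + 1, h => by
      rw [show d + 1 + e = (d + e) + 1 by ring]
      exact fun z => dle_bind hg (h z)

/-- change of variables: every variable of the old world depends on one new variable only -/
theorem exists_comap [Nonempty ι'] (φ : (ι' → α') → (ι → α))
    (h : ∀ i, ∃ j, ∀ x y : ι' → α', x j = y j → φ x i = φ y i) :
    ∀ {T : MT ι α β} {d : ℕ}, T.dle d → ∃ T' : MT ι' α' β, T'.dle d ∧
      ∀ x, T'.eval x = T.eval (φ x)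
  | leaf b, _, _ => ⟨leaf b, trivial, fun _ => rfl⟩
  | node _ _, 0, hd => absurd hd (by simp [dle])
  | node i ch, d + 1, hd => by
      classical
      obtain ⟨j, hj⟩ := h i
      by_cases hne : Nonempty α'
      · choose T' h1 h2 using fun z => exists_comap φ h (hd z)
        let v : α' → α := fun a => φ (fun _ => a) i
        refine ⟨node j (fun a => T' (v a)), fun a => h1 _, fun x => ?_⟩
        have e : v (x j) = φ x i := hj _ _ rfl
        simp only [eval, h2, e]
      · obtain ⟨j0⟩ := ‹Nonempty ι'›
        refine ⟨node j0 (fun a => absurd ⟨a⟩ hne), fun z => absurd ⟨z⟩ hne,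
          fun x => absurd ⟨x j0⟩ hne⟩

/-- the tree reading several trees -/
theorem exists_ofDT {V : Type} (C : (ι → α) → V → Bool) (S : Set V) (t0 : ℕ)
    (hC : ∀ u ∈ S, ∃ T : MT ι α Bool, T.dle t0 ∧ ∀ x, C x u = T.eval x) :
    ∀ (D : DT V β) (d : ℕ), D.depth ≤ d → D.QIn S →
      ∃ T : MT ι α β, T.dle (d * t0) ∧ ∀ x, T.eval x = D.eval (C x)
  | DT.leaf b, _, _, _ => ⟨leaf b, by simp [dle], fun _ => rfl⟩
  | DT.node v f g, 0, h, _ => by simp [DT.depth] at h
  | DT.node v f g, d + 1, h, ⟨hv, hf, hg⟩ => by
      simp only [DT.depth] at h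
      obtain ⟨Tv, a1, a2⟩ := hC v hv
      obtain ⟨Tf, b1, b2⟩ := exists_ofDT C S t0 hC f d (by omega) hf
      obtain ⟨Tg, c1, c2⟩ := exists_ofDT C S t0 hC g d (by omega) hg
      refine ⟨Tv.bind (fun b => if b = true then Tg else Tf), ?_, fun x => ?_⟩
      · rw [show (d + 1) * t0 = t0 + d * t0 by ring]
        apply dle_bind _ a1
        intro b
        split_ifs
        · exact c1
        · exact b1
      · rw [eval_bind, ← a2]
        simp only [DT.eval]
        split_ifs
        · exact c2 x
        · exact b2 x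

/-- reading the variables by binary trees -/
def toDT {V : Type} (R : ι → DT V α) : MT ι α β → DT V β
  | leaf b => DT.leaf b
  | node i ch => (R i).bind (fun z => (ch z).toDT R)

theorem eval_toDT {V : Type} (R : ι → DT V α) (c : V → Bool) (x : ι → α)
    (h : ∀ i, (R i).eval c = x i) : ∀ T : MT ι α β, (T.toDT R).eval c = T.eval x
  | leaf _ => rfl
  | node i ch => by
      simp only [toDT, DT.eval_bind, h, eval]
      exact eval_toDT R c x h _

theorem qin_toDT {V : Type} (R : ι → DT V α) (S : Set V) (h : ∀ i, (R i).QIn S) :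
    ∀ T : MT ι α β, (T.toDT R).QIn S
  | leaf _ => trivial
  | node i ch => DT.QIn.bind (fun z => qin_toDT R S h _) (h i)

theorem depth_toDT {V : Type} (R : ι → DT V α) (e : ℕ) (h : ∀ i, (R i).depth ≤ e) :
    ∀ {T : MT ι α β} {d : ℕ}, T.dle d → (T.toDT R).depth ≤ d * e
  | leaf _, d, _ => by simp [toDT, DT.depth]
  | node _ _, 0, hd => absurd hd (by simp [dle])
  | node i ch, d + 1, hd => by
      have h1 := DT.depth_bind (fun z => (ch z).toDT R) (d * e)
        (fun z => depth_toDT R e h (hd z)) (R i)
      have h2 := h i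
      simp only [toDT]
      calc _ ≤ _ := h1
        _ ≤ e + d * e := by omega
        _ = (d + 1) * e := by ring

end MT

variable {ι α : Type}

/-- On the cube of all `x` with `x = x0` off `S` the function is computed by a tree of depth at
most `d`. -/
def Sh (S : Set ι) (x0 : ι → α) (d : ℕ) (f : (ι → α) → Bool) : Prop :=
  ∃ T : MT ι α Bool, T.dle d ∧ ∀ x, (∀ i, i ∉ S → x i = x0 i) → f x = T.eval x

/-- On the cube every point where `f` is true has a certificate that constrains at most `w`
variables, each of the constraints being satisfied by some value in `reg`. -/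
def Cert (S : Set ι) (x0 : ι → α) (w : ℕ) (reg : Set α) (f : (ι → α) → Bool) : Prop :=
  ∀ x, (∀ i, i ∉ S → x i = x0 i) → f x = true →
    ∃ (T : List ι) (Γ : ι → Set α), T.length ≤ w ∧ (∀ i ∈ T, x i ∈ Γ i) ∧
      (∀ i ∈ T, ∃ z ∈ reg, z ∈ Γ i) ∧
      ∀ y, (∀ i, i ∉ S → y i = x0 i) → (∀ i ∈ T, y i ∈ Γ i) → f y = true

open Classical in
/-- the coordinates whose change can change the value -/
noncomputable def sens [Fintype ι] (f : (ι → α) → Bool) (x : ι → α) : Finset ι :=
  Finset.univ.filter (fun i => ∃ z, f (Function.update x i z) ≠ f x)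

/-- variables of the worlds: family and name -/
abbrev Var := ℕ × List ℕ

/-- the node `u` at height `h` of the tree with fan-ins `m` -/
def VP (m : ℕ → ℕ) : ℕ → List ℕ → Prop
  | _, [] => True
  | h, a :: u => a < m h ∧ VP m (h + 1) u

/-- all nodes with `n` steps to the root, the children having height `h` -/
def nm (m : ℕ → ℕ) : ℕ → ℕ → Finset (List ℕ)
  | _, 0 => {[]}
  | h, n + 1 => (Finset.range (m h) ×ˢ nm m (h + 1) n).image (fun p => p.1 :: p.2)

theorem mem_nm (m : ℕ → ℕ) : ∀ (n h : ℕ) (u : List ℕ), u ∈ nm m h n ↔ u.length = n ∧ VP m h u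
  | 0, h, u => by
      simp only [nm, Finset.mem_singleton]
      constructor
      · rintro rfl; exact ⟨rfl, trivial⟩
      · rintro ⟨h1, _⟩; exact List.length_eq_zero_iff.1 h1
  | n + 1, h, u => by
      simp only [nm, Finset.mem_image, Finset.mem_product, Finset.mem_range, Prod.exists,
        mem_nm m n (h + 1)]
      constructor
      · rintro ⟨a, u', ⟨h1, h2, h3⟩, rfl⟩
        exact ⟨by simp [h2], h1, h3⟩
      · rintro ⟨h1, h2⟩
        rcases u with _ | ⟨a, u⟩
        · simp at h1
        · exact ⟨a, u, ⟨h2.1, by simpa using h1, h2.2⟩, rfl⟩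

theorem card_nm (m : ℕ → ℕ) : ∀ (n h : ℕ), (nm m h n).card = ∏ j ∈ Finset.range n, m (h + j)
  | 0, h => by simp [nm]
  | n + 1, h => by
      rw [nm, Finset.card_image_of_injective, Finset.card_product, Finset.card_range,
        card_nm m n (h + 1), Finset.prod_range_succ']
      · rw [mul_comm]
        congr 1
        apply Finset.prod_congr rfl
        intro j _
        congr 1; ring
      · rintro ⟨a, u⟩ ⟨a', u'⟩ h
        simpa using h

/-- the valid names of the families in `I` -/
def Vld (I : Finset ℕ) (k : ℕ → ℕ) (m : ℕ → ℕ → ℕ) (v : Var) : Prop :=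
  v.1 ∈ I ∧ v.2.length = k v.1 ∧ VP (m v.1) 0 v.2

def names (I : Finset ℕ) (k : ℕ → ℕ) (m : ℕ → ℕ → ℕ) : Finset Var :=
  I.biUnion (fun i => (nm (m i) 0 (k i)).image (Prod.mk i))

theorem mem_names {I : Finset ℕ} {k : ℕ → ℕ} {m : ℕ → ℕ → ℕ} {v : Var} :
    v ∈ names I k m ↔ Vld I k m v := by
  unfold names Vld
  simp only [Finset.mem_biUnion, Finset.mem_image, mem_nm]
  constructor
  · rintro ⟨i, hi, u, ⟨h1, h2⟩, rfl⟩
    exact ⟨hi, h1, h2⟩
  · rintro ⟨h1, h2, h3⟩
    exact ⟨v.1, h1, v.2, ⟨h2, h3⟩, rfl⟩

theorem card_names (I : Finset ℕ) (k : ℕ → ℕ) (m : ℕ → ℕ → ℕ) :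
    (names I k m).card ≤ ∑ i ∈ I, ∏ j ∈ Finset.range (k i), m i j := by
  refine Finset.card_biUnion_le.trans (Finset.sum_le_sum fun i _ => ?_)
  refine Finset.card_image_le.trans ?_
  rw [card_nm]
  simp

/-- divide the fan-ins of the leaf blocks by `G` -/
def thinM (G : ℕ) (m : ℕ → ℕ → ℕ) : ℕ → ℕ → ℕ := fun i => Function.update (m i) 0 (m i 0 / G)

open Classical in
/-- The world in which each new name `(i, g :: u)` controls the old name `(i, ch (i, g :: u) :: u)`
and the other old names are as in `x0`. -/
noncomputable def patch (I : Finset ℕ) (k : ℕ → ℕ) (m : ℕ → ℕ → ℕ) (G : ℕ) (ch : Var → ℕ)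
    (x0 z : Var → α) : Var → α
  | (i, []) => x0 (i, [])
  | (i, a :: u) => if Vld I k (thinM G m) (i, (a / G) :: u) ∧ a = ch (i, (a / G) :: u) then
      z (i, (a / G) :: u) else x0 (i, a :: u)

/-- encoding of transcripts -/
def enc : Str → Str
  | [] => []
  | b :: w => true :: b :: enc w

/-- strings of the table of `x` in column `j`, at transcript `w`; `t1 t2` is a tag -/
def tab (j B : ℕ) (x w : Str) (t1 t2 : Bool) : Str :=
  true :: t1 :: t2 :: (enc w ++ false :: code j B x)

/-- Walk through the table of `x`: at transcript `w` (newest entry first) with the question `u`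
built so far, either halt with an answer, or ask `C` about `u`, or push a bit on `u`. -/
def walk (j B : ℕ) (X C : Lang) (x : Str) : ℕ → Str → Str → Option Bool
  | 0, _, _ => none
  | n + 1, w, u =>
      if X (tab j B x w true true) = true then some (X (tab j B x w true false))
      else if X (tab j B x w false true) = true then walk j B X C x n (C u :: w) []
      else walk j B X C x n (false :: w) (X (tab j B x w true false) :: u)

end Pool.Agent.Lib.Pa76659H
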