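import Pool.Agent.Lib.Pa76659H.Sw

/-!
Few sensitive coordinates for alternating families, from the switching lemma.
-/

set_option linter.unusedVariables false
set_option linter.unusedSectionVars false

namespace Pool.Agent.Lib.Pa76659H
open Pool.Agent.Lib.Pa76659

namespace Blk

/-- averaging over a refreshed part of the sample -/
theorem card_avg {Ω B : Type} [Fintype Ω] [Fintype B] (φ : Ω × B ≃ Ω × B) (P : Ω → Prop)
    [DecidablePred P] (c d : ℕ) (hB : 0 < Fintype.card B)
    (h : ∀ ω, (Finset.univ.filter (fun b => P (φ (ω, b)).1)).card * c ≤ Fintype.card B * d) :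
    (Finset.univ.filter P).card * c ≤ Fintype.card Ω * d := by
  have e1 : (Finset.univ.filter (fun q : Ω × B => P q.1)).card =
      (Finset.univ.filter P).card * Fintype.card B := by
    rw [← Finset.card_univ, ← Finset.card_product]
    congr 1
    ext ⟨a, b⟩
    simp
  have e2 : (Finset.univ.filter (fun q : Ω × B => P (φ q).1)).card =
      (Finset.univ.filter (fun q : Ω × B => P q.1)).card := by
    apply Finset.card_bij (fun q _ => φ q)
    · intro q hq
      simpa using hq
    · intro a _ b _ hab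
      exact φ.injective hab
    · intro b hb
      refine ⟨φ.symm b, ?_, by simp⟩
      simpa using hb
  have e3 : (Finset.univ.filter (fun q : Ω × B => P (φ q).1)).card =
      ∑ ω : Ω, (Finset.univ.filter (fun b => P (φ (ω, b)).1)).card := by
    simp only [Finset.card_filter]
    rw [Fintype.sum_prod_type]
  have e4 : (∑ ω : Ω, (Finset.univ.filter (fun b => P (φ (ω, b)).1)).card) * c ≤
      Fintype.card Ω * (Fintype.card B * d) := by
    rw [Finset.sum_mul]
    calc _ ≤ ∑ ω : Ω, Fintype.card B * d := Finset.sum_le_sum (fun ω _ => h ω)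
      _ = _ := by simp
  rw [← e3, e2, e1] at e4
  have : ((Finset.univ.filter P).card * c) * Fintype.card B ≤
      (Fintype.card Ω * d) * Fintype.card B := by
    calc _ = (Finset.univ.filter P).card * Fintype.card B * c := by ring
      _ ≤ Fintype.card Ω * (Fintype.card B * d) := e4
      _ = _ := by ring
  exact Nat.le_of_mul_le_mul_right this hB

/-- coordinates alive before step `i` -/
def live {ι : Type} {r R : ℕ} (κ : Fin r → ι → Fin (R + 1)) (i : ℕ) : Set ι :=
  {v | ∀ j : Fin r, (j : ℕ) < i → κ j v = 0}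

theorem live_zero {ι : Type} {r R : ℕ} (κ : Fin r → ι → Fin (R + 1)) : live κ 0 = Set.univ := by
  ext v; simp [live]

theorem live_succ {ι : Type} {r R : ℕ} (κ : Fin r → ι → Fin (R + 1)) (i : ℕ) (hi : i < r) :
    live κ (i + 1) = live κ i ∩ {v | κ ⟨i, hi⟩ v = 0} := by
  ext v
  simp only [live, Set.mem_ofPred_eq, Set.mem_inter_iff]
  constructor
  · intro h
    exact ⟨fun j hj => h j (by omega), h ⟨i, hi⟩ (Nat.lt_succ_self i)⟩
  · rintro ⟨h1, h2⟩ j hj
    rcases Nat.lt_succ_iff_lt_or_eq.1 hj with hj | hj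
    · exact h1 j hj
    · have : j = ⟨i, hi⟩ := Fin.ext hj
      rw [this]; exact h2

theorem live_update {ι : Type} {r R : ℕ} (κ : Fin r → ι → Fin (R + 1)) (i : ℕ) (hi : i < r)
    (k : ι → Fin (R + 1)) : live (Function.update κ ⟨i, hi⟩ k) i = live κ i := by
  ext v
  simp only [live, Set.mem_ofPred_eq]
  constructor
  · intro h j hj
    have := h j hj
    rwa [Function.update_of_ne] at this
    intro e
    rw [e] at hj
    exact absurd hj (lt_irrefl _)
  · intro h j hj
    rw [Function.update_of_ne]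
    · exact h j hj
    · intro e
      rw [e] at hj
      exact absurd hj (lt_irrefl _)

/-- exchange the `i`-th restriction and the point with fresh ones -/
def swp {ι X : Type} {r : ℕ} {K : Type} [DecidableEq (Fin r)] (i : Fin r) :
    ((Fin r → K) × X) × (K × X) ≃ ((Fin r → K) × X) × (K × X) where
  toFun q := ((Function.update q.1.1 i q.2.1, q.2.2), (q.1.1 i, q.1.2))
  invFun q := ((Function.update q.1.1 i q.2.1, q.2.2), (q.1.1 i, q.1.2))
  left_inv q := by
    rcases q with ⟨⟨κ, x⟩, ⟨k, y⟩⟩
    simp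
  right_inv q := by
    rcases q with ⟨⟨κ, x⟩, ⟨k, y⟩⟩
    simp

open Classical in
theorem step_bad {ι : Type} [Fintype ι] {N : ℕ} (r R s : ℕ) (hN : 1 ≤ N) (i : ℕ) (hi : i < r)
    (f : (ι → Fin N) → Bool) :
    (Finset.univ.filter (fun ω : (Fin r → ι → Fin (R + 1)) × (ι → Fin N) =>
      Cert (live ω.1 i) ω.2 s Set.univ f ∧ ¬ Sh (live ω.1 (i + 1)) ω.2 s f)).card * R ^ (s + 1)
      ≤ Fintype.card ((Fin r → ι → Fin (R + 1)) × (ι → Fin N)) * (2 * s * N * N) ^ (s + 1) := by
  have hne : Nonempty (ι → Fin N) := ⟨fun _ => ⟨0, hN⟩⟩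
  apply card_avg (B := (ι → Fin (R + 1)) × (ι → Fin N)) (swp (ι := ι) ⟨i, hi⟩)
  · exact Fintype.card_pos
  · rintro ⟨κ, x⟩
    have := switch N R s s (id : Fin N → Fin N) (live κ i) f
    simp only [Set.range_id, Function.id_comp, Fintype.card_fin] at this
    refine le_trans (le_of_eq ?_) this
    congr 2
    ext ⟨k, y⟩
    simp only [swp, Equiv.coe_fn_mk, Finset.mem_filter, Finset.mem_univ, true_and]
    rw [live_succ _ i hi, live_update, Function.update_self]

theorem exists_groups {ι : Type} [DecidableEq ι] (M : ℕ) : ∀ (n : ℕ) (A : Finset ι),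
    n * M ≤ A.card → ∃ G : Fin n → Finset ι, (∀ j, G j ⊆ A) ∧ (∀ j, (G j).card = M) ∧
      ∀ j j', j ≠ j' → Disjoint (G j) (G j')
  | 0, A, _ => ⟨fun j => j.elim0, fun j => j.elim0, fun j => j.elim0, fun j => j.elim0⟩
  | n + 1, A, h => by
      obtain ⟨B, hB, hBc⟩ := Finset.exists_subset_card_eq (s := A) (n := M) (by nlinarith)
      obtain ⟨G, h1, h2, h3⟩ := exists_groups M n (A \ B) (by
        rw [Finset.card_sdiff_of_subset hB, hBc]
        have : (n + 1) * M = n * M + M := by ring
        omega)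
      refine ⟨Fin.cons B G, ?_, ?_, ?_⟩
      · intro j
        refine Fin.cases ?_ (fun j => ?_) j
        · simpa using hB
        · simpa using (h1 j).trans Finset.sdiff_subset
      · intro j
        refine Fin.cases ?_ (fun j => ?_) j
        · simpa using hBc
        · simpa using h2 j
      · have key : ∀ j, Disjoint B (G j) := fun j => by
          rw [Finset.disjoint_left]
          intro a ha hG
          exact (Finset.mem_sdiff.1 (h1 j hG)).2 ha
        intro j j'
        refine Fin.cases ?_ (fun j => ?_) j <;> refine Fin.cases ?_ (fun j' => ?_) j'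
        · intro h; exact absurd rfl h
        · intro _; simpa using key j'
        · intro _; simpa using (key j).symm
        · intro h; simpa using h3 j j' (fun e => h (by rw [e]))

open Classical in
/-- restrictions killing all of `G` -/
theorem count_dead {ι : Type} [Fintype ι] (r R c : ℕ) (hr : 1 ≤ r) (hR : 1 ≤ R) (G : Finset ι)
    (hG : (R + 1) ^ r * c ≤ G.card) :
    (Finset.univ.filter (fun κ : Fin r → ι → Fin (R + 1) => ∀ v ∈ G, v ∉ live κ r)).card * 2 ^ c
      ≤ Fintype.card (Fin r → ι → Fin (R + 1)) := by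
  obtain ⟨Q, hQ⟩ : ∃ Q, (R + 1) ^ r = Q + 1 :=
    ⟨(R + 1) ^ r - 1, by have : 0 < (R + 1) ^ r := by positivity
                         omega⟩
  have hQ1 : 1 ≤ Q := by
    have : 2 ^ 1 ≤ (R + 1) ^ r := by
      calc 2 ^ 1 ≤ 2 ^ r := Nat.pow_le_pow_right (by norm_num) hr
        _ ≤ (R + 1) ^ r := Nat.pow_le_pow_left (by omega) r
    omega
  have hcard : Fintype.card (Fin r → Fin (R + 1)) = Q + 1 := by simp [hQ]
  let e0 := Fintype.equivFinOfCardEq hcard
  let e : (Fin r → Fin (R + 1)) ≃ Fin (Q + 1) := e0.trans (Equiv.swap (e0 0) 0)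
  have he : ∀ b, e b = 0 ↔ b = 0 := by
    intro b
    have h0 : e 0 = 0 := by simp [e]
    rw [← h0]
    exact e.injective.eq_iff
  let E : (Fin r → ι → Fin (R + 1)) ≃ (ι → Fin (Q + 1)) :=
    (Equiv.piComm (fun _ _ => Fin (R + 1))).trans (Equiv.piCongrRight (fun _ => e))
  have h1 := Switch.count_nonzero Q G c (by rw [← hQ]; exact hG) hQ1
  have h2 : (Finset.univ.filter (fun κ : Fin r → ι → Fin (R + 1) => ∀ v ∈ G, v ∉ live κ r)).card
      = (Finset.univ.filter (fun f : ι → Fin (Q + 1) => ∀ v ∈ G, f v ≠ 0)).card := by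
    have hiff : ∀ (κ : Fin r → ι → Fin (R + 1)) v, E κ v ≠ 0 ↔ v ∉ live κ r := by
      intro κ v
      have : E κ v = e (fun j => κ j v) := rfl
      rw [this, Ne, he]
      refine not_congr ?_
      simp only [live, Set.mem_ofPred_eq]
      constructor
      · intro h j _; exact congrFun h j
      · intro h; funext j; exact h j j.2
    apply Finset.card_bij (fun κ _ => E κ)
    · intro κ hκ
      simp only [Finset.mem_filter, Finset.mem_univ, true_and] at hκ ⊢
      intro v hv
      exact (hiff κ v).2 (hκ v hv)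
    · intro a _ b _ h
      exact E.injective h
    · intro f hf
      refine ⟨E.symm f, ?_, by simp⟩
      simp only [Finset.mem_filter, Finset.mem_univ, true_and] at hf ⊢
      intro v hv
      rw [← hiff]
      simpa using hf v hv
  rw [h2, Fintype.card_congr E]
  exact h1

open Classical in
/-- few restrictions leave at most `s` coordinates of a large set alive -/
theorem count_few {ι : Type} [Fintype ι] (r R s : ℕ) (hr : 1 ≤ r) (hR : 1 ≤ R) (A : Finset ι)
    (hA : (s + 1) * (s + 2) * (R + 1) ^ r ≤ A.card) :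
    (Finset.univ.filter (fun κ : Fin r → ι → Fin (R + 1) =>
      (A.filter (fun v => v ∈ live κ r)).card ≤ s)).card * 2
      ≤ Fintype.card (Fin r → ι → Fin (R + 1)) := by
  obtain ⟨G, h1, h2, h3⟩ := exists_groups ((R + 1) ^ r * (s + 2)) (s + 1) A (by
    calc _ = (s + 1) * (s + 2) * (R + 1) ^ r := by ring
      _ ≤ _ := hA)
  have hsub : (Finset.univ.filter (fun κ : Fin r → ι → Fin (R + 1) =>
      (A.filter (fun v => v ∈ live κ r)).card ≤ s)) ⊆
      Finset.univ.biUnion (fun j : Fin (s + 1) =>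
        Finset.univ.filter (fun κ : Fin r → ι → Fin (R + 1) => ∀ v ∈ G j, v ∉ live κ r)) := by
    intro κ hκ
    simp only [Finset.mem_filter, Finset.mem_univ, true_and, Finset.mem_biUnion] at hκ ⊢
    by_contra hcon
    push Not at hcon
    choose v hv1 hv2 using hcon
    have hinj : Function.Injective v := by
      intro j j' hjj
      by_contra hne
      exact Finset.disjoint_left.1 (h3 j j' hne) (hv1 j) (by rw [hjj]; exact hv1 j')
    have : s + 1 ≤ (A.filter (fun v => v ∈ live κ r)).card := by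
      calc s + 1 = (Finset.univ.image v).card := by
            rw [Finset.card_image_of_injective _ hinj]; simp
        _ ≤ _ := Finset.card_le_card (by
            intro a ha
            obtain ⟨j, _, rfl⟩ := Finset.mem_image.1 ha
            exact Finset.mem_filter.2 ⟨h1 j (hv1 j), hv2 j⟩)
    omega
  set K := Fintype.card (Fin r → ι → Fin (R + 1)) with hK
  have hle := (Finset.card_le_card hsub).trans Finset.card_biUnion_le
  have hb : ∀ j : Fin (s + 1), (Finset.univ.filter (fun κ : Fin r → ι → Fin (R + 1) =>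
      ∀ v ∈ G j, v ∉ live κ r)).card * 2 ^ (s + 2) ≤ K :=
    fun j => count_dead r R (s + 2) hr hR (G j) (by rw [h2])
  have h4 : (∑ j : Fin (s + 1), (Finset.univ.filter (fun κ : Fin r → ι → Fin (R + 1) =>
      ∀ v ∈ G j, v ∉ live κ r)).card) * 2 ^ (s + 2) ≤ (s + 1) * K := by
    rw [Finset.sum_mul]
    calc _ ≤ ∑ j : Fin (s + 1), K := Finset.sum_le_sum (fun j _ => hb j)
      _ = _ := by simp
  have h5 : (s + 1) < 2 ^ (s + 1) := Nat.lt_two_pow_self
  set c := (Finset.univ.filter (fun κ : Fin r → ι → Fin (R + 1) =>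
      (A.filter (fun v => v ∈ live κ r)).card ≤ s)).card
  have h6 : c * 2 ^ (s + 2) ≤ (s + 1) * K := (Nat.mul_le_mul_right _ hle).trans h4
  have h7 : (c * 2) * 2 ^ (s + 1) ≤ K * 2 ^ (s + 1) := by
    calc (c * 2) * 2 ^ (s + 1) = c * 2 ^ (s + 2) := by ring
      _ ≤ (s + 1) * K := h6
      _ ≤ 2 ^ (s + 1) * K := Nat.mul_le_mul_right _ h5.le
      _ = _ := by ring
  exact Nat.le_of_mul_le_mul_right h7 (by positivity)

/-- a shallow tree does not depend on many live coordinates -/
theorem not_sh {ι α : Type} [Fintype ι] (S : Set ι) (x : ι → α) (s : ℕ) (f : (ι → α) → Bool)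
    (A : Finset ι) (hA : A ⊆ sens f x) (hS : ∀ v ∈ A, v ∈ S) (hs : s < A.card) :
    ¬ Sh S x s f := by
  classical
  rintro ⟨T, hT, hf⟩
  have h1 : ∃ v ∈ A, v ∉ T.path x := by
    by_contra hcon
    push Not at hcon
    have : A ⊆ (T.path x).toFinset := fun v hv => List.mem_toFinset.2 (hcon v hv)
    have h2 := (Finset.card_le_card this).trans (List.toFinset_card_le _)
    have h3 := MT.path_length x hT
    omega
  obtain ⟨v, hv, hvp⟩ := h1
  have h2 := hA hv
  unfold sens at h2
  simp only [Finset.mem_filter, Finset.mem_univ, true_and] at h2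
  obtain ⟨z, hz⟩ := h2
  apply hz
  have e : ∀ i, i ∉ S → Function.update x v z i = x i := by
    intro i hi
    apply Function.update_of_ne
    rintro rfl
    exact hi (hS _ hv)
  rw [show f x = T.eval x from hf x (fun i _ => rfl)]
  have e3 : f (Function.update x v z) = T.eval (Function.update x v z) := by
    apply hf
    intro i hi
    exact e i hi
  rw [e3]
  apply MT.eval_path
  intro i hi
  apply Function.update_of_ne
  rintro rfl
  exact hvp hi

end Blk

open Classical in
/-- MODULE Block -/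
theorem block {ι Θ : Type} [Fintype ι] [Fintype Θ] {N : ℕ} (r A e s : ℕ)
    (g : ℕ → Θ → (ι → Fin N) → Bool) (H : ℕ → Θ → Set Θ)
    (h0 : ∀ θ, ∃ T : MT ι (Fin N) Bool, T.dle s ∧ ∀ x, g 0 θ x = T.eval x)
    (hg : ∀ i < r, ∀ θ x, g (i + 1) θ x = true ↔ ∃ θ' ∈ H i θ, g i θ' x = false)
    (hr : 1 ≤ r) (hN : 1 ≤ N) (hA : Fintype.card Θ ≤ 2 ^ A) (hs : A + e + r ≤ s) :
    (Finset.univ.filter (fun x : ι → Fin N =>
      ∃ θ, (s + 1) * (s + 2) * (4 * s * N ^ 2 + 1) ^ r < (sens (g r θ) x).card)).card * 2 ^ e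
      ≤ Fintype.card (ι → Fin N) := by
  set R := 4 * s * N ^ 2 with hR
  have hs1 : 1 ≤ s := by omega
  have hR1 : 1 ≤ R := by
    have : 0 < 4 * s * N ^ 2 := by positivity
    omega
  set K := Fintype.card (Fin r → ι → Fin (R + 1)) with hK
  set X := Fintype.card (ι → Fin N) with hX
  have hKpos : 0 < K := Fintype.card_pos
  -- the bad events
  let Bad : ℕ → Θ → Finset ((Fin r → ι → Fin (R + 1)) × (ι → Fin N)) := fun i θ =>
    Finset.univ.filter (fun ω => Cert (Blk.live ω.1 i) ω.2 s Set.univ (g (i + 1) θ) ∧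
      ¬ Sh (Blk.live ω.1 (i + 1)) ω.2 s (g (i + 1) θ))
  have hBad : ∀ i < r, ∀ θ, (Bad i θ).card * 2 ^ (s + 1) ≤ K * X := by
    intro i hi θ
    have h1 := Blk.step_bad r R s hN i hi (g (i + 1) θ)
    have h2 : Fintype.card ((Fin r → ι → Fin (R + 1)) × (ι → Fin N)) = K * X := by
      rw [Fintype.card_prod]
    rw [h2] at h1
    have h3 : R ^ (s + 1) = 2 ^ (s + 1) * (2 * s * N * N) ^ (s + 1) := by
      rw [← mul_pow, hR]
      congr 1
      ring
    rw [h3] at h1
    have h4 : 0 < (2 * s * N * N) ^ (s + 1) := by positivity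
    refine Nat.le_of_mul_le_mul_right ?_ h4
    calc (Bad i θ).card * 2 ^ (s + 1) * (2 * s * N * N) ^ (s + 1)
        = (Bad i θ).card * (2 ^ (s + 1) * (2 * s * N * N) ^ (s + 1)) := by ring
      _ ≤ K * X * (2 * s * N * N) ^ (s + 1) := h1
  -- if no bad event happens all functions are shallow
  have hgood : ∀ ω : (Fin r → ι → Fin (R + 1)) × (ι → Fin N), (∀ i < r, ∀ θ, ω ∉ Bad i θ) →
      ∀ i ≤ r, ∀ θ, Sh (Blk.live ω.1 i) ω.2 s (g i θ) := by
    intro ω hω i
    induction i with
    | zero =>
        intro _ θ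
        obtain ⟨T, hT1, hT2⟩ := h0 θ
        exact ⟨T, hT1, fun x _ => hT2 x⟩
    | succ i ih =>
        intro hi θ
        by_contra hcon
        apply hω i hi θ
        simp only [Bad, Finset.mem_filter, Finset.mem_univ, true_and]
        refine ⟨?_, hcon⟩
        intro x hx hfx
        obtain ⟨θ', hθ', hfx'⟩ := (hg i hi θ x).1 hfx
        obtain ⟨T, hT1, hT2⟩ := ih (by omega) θ'
        refine ⟨T.path x, fun v => {x v}, MT.path_length x hT1, fun v _ => rfl,
          fun v _ => ⟨x v, trivial, rfl⟩, ?_⟩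
        intro y hy1 hy2
        rw [hg i hi θ y]
        refine ⟨θ', hθ', ?_⟩
        rw [hT2 y hy1, MT.eval_path (fun v hv => hy2 v hv), ← hT2 x hx]
        exact hfx'
  -- counting
  set T0 := (s + 1) * (s + 2) * (R + 1) ^ r with hT0
  set BX := Finset.univ.filter (fun x : ι → Fin N => ∃ θ, T0 < (sens (g r θ) x).card) with hBX
  let NS : Finset ((Fin r → ι → Fin (R + 1)) × (ι → Fin N)) :=
    Finset.univ.filter (fun ω => ∃ θ, ¬ Sh (Blk.live ω.1 r) ω.2 s (g r θ))
  have hNS : NS.card * 2 ^ (s + 1) ≤ r * 2 ^ A * (K * X) := by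
    have h1 : NS ⊆ (Finset.range r ×ˢ (Finset.univ : Finset Θ)).biUnion
        (fun p => Bad p.1 p.2) := by
      intro ω hω
      simp only [NS, Finset.mem_filter, Finset.mem_univ, true_and] at hω
      by_contra hcon
      obtain ⟨θ, hθ⟩ := hω
      apply hθ
      apply hgood ω _ r le_rfl
      intro i hi θ' hmem
      apply hcon
      rw [Finset.mem_biUnion]
      exact ⟨(i, θ'), by simp [hi], hmem⟩
    have h2 := (Finset.card_le_card h1).trans Finset.card_biUnion_le
    calc NS.card * 2 ^ (s + 1)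
        ≤ (∑ p ∈ Finset.range r ×ˢ (Finset.univ : Finset Θ), (Bad p.1 p.2).card) * 2 ^ (s + 1) :=
          Nat.mul_le_mul_right _ h2
      _ = ∑ p ∈ Finset.range r ×ˢ (Finset.univ : Finset Θ), (Bad p.1 p.2).card * 2 ^ (s + 1) :=
          Finset.sum_mul _ _ _
      _ ≤ ∑ p ∈ Finset.range r ×ˢ (Finset.univ : Finset Θ), K * X := by
          apply Finset.sum_le_sum
          intro p hp
          apply hBad
          simpa using (Finset.mem_product.1 hp).1
      _ = r * Fintype.card Θ * (K * X) := by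
          rw [Finset.sum_const, Finset.card_product]
          simp
      _ ≤ r * 2 ^ A * (K * X) := by
          apply Nat.mul_le_mul_right
          exact Nat.mul_le_mul_left _ hA
  have hhalf : BX.card * K ≤ 2 * NS.card := by
    have h1 : ∀ x ∈ BX, K ≤ 2 * (Finset.univ.filter (fun κ : Fin r → ι → Fin (R + 1) =>
        (κ, x) ∈ NS)).card := by
      intro x hx
      simp only [hBX, Finset.mem_filter, Finset.mem_univ, true_and] at hx
      obtain ⟨θ, hθ⟩ := hx
      have h2 := Blk.count_few r R s hr hR1 (sens (g r θ) x) hθ.le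
      have h3 : Finset.univ.filter (fun κ : Fin r → ι → Fin (R + 1) =>
          ¬ ((sens (g r θ) x).filter (fun v => v ∈ Blk.live κ r)).card ≤ s) ⊆
          Finset.univ.filter (fun κ : Fin r → ι → Fin (R + 1) => (κ, x) ∈ NS) := by
        intro κ hκ
        simp only [Finset.mem_filter, Finset.mem_univ, true_and, NS] at hκ ⊢
        refine ⟨θ, ?_⟩
        apply Blk.not_sh (Blk.live κ r) x s (g r θ)
          ((sens (g r θ) x).filter (fun v => v ∈ Blk.live κ r)) (Finset.filter_subset _ _)
        · intro v hv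
          exact (Finset.mem_filter.1 hv).2
        · omega
      have h4 := Finset.card_le_card h3
      have h5 := Finset.card_filter_add_card_filter_not (s := (Finset.univ : Finset (Fin r → ι → Fin (R + 1))))
        (fun κ => ((sens (g r θ) x).filter (fun v => v ∈ Blk.live κ r)).card ≤ s)
      rw [Finset.card_univ] at h5
      omega
    have h2 : ∑ x ∈ BX, (Finset.univ.filter (fun κ : Fin r → ι → Fin (R + 1) =>
        (κ, x) ∈ NS)).card ≤ NS.card := by
      have h3 : NS.card = ∑ x : ι → Fin N, (Finset.univ.filter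
          (fun κ : Fin r → ι → Fin (R + 1) => (κ, x) ∈ NS)).card := by
        have : NS.card = (Finset.univ.filter (fun ω => ω ∈ NS)).card := by
          congr 1; ext; simp
        rw [this]
        simp only [Finset.card_filter]
        rw [Fintype.sum_prod_type_right]
      rw [h3]
      exact Finset.sum_le_sum_of_subset (Finset.subset_univ _)
    calc BX.card * K = ∑ x ∈ BX, K := by simp
      _ ≤ ∑ x ∈ BX, 2 * (Finset.univ.filter (fun κ : Fin r → ι → Fin (R + 1) =>
        (κ, x) ∈ NS)).card := Finset.sum_le_sum h1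
      _ = 2 * ∑ x ∈ BX, (Finset.univ.filter (fun κ : Fin r → ι → Fin (R + 1) =>
        (κ, x) ∈ NS)).card := by rw [Finset.mul_sum]
      _ ≤ 2 * NS.card := Nat.mul_le_mul_left _ h2
  have hr2 : r ≤ 2 ^ r := Nat.lt_two_pow_self.le
  have hfin : (BX.card * 2 ^ e) * (K * (2 ^ A * 2 ^ r)) ≤ X * (K * (2 ^ A * 2 ^ r)) := by
    have h1 : BX.card * K * 2 ^ s ≤ r * 2 ^ A * (K * X) := by
      have : (BX.card * K * 2 ^ s) * 2 ≤ (r * 2 ^ A * (K * X)) * 2 := by
        calc (BX.card * K * 2 ^ s) * 2 = BX.card * K * 2 ^ (s + 1) := by ring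
          _ ≤ 2 * NS.card * 2 ^ (s + 1) := Nat.mul_le_mul_right _ hhalf
          _ = (NS.card * 2 ^ (s + 1)) * 2 := by ring
          _ ≤ _ := Nat.mul_le_mul_right _ hNS
      omega
    calc (BX.card * 2 ^ e) * (K * (2 ^ A * 2 ^ r)) = BX.card * K * 2 ^ (A + e + r) := by
          rw [pow_add, pow_add]; ring
      _ ≤ BX.card * K * 2 ^ s := Nat.mul_le_mul_left _ (Nat.pow_le_pow_right (by norm_num) hs)
      _ ≤ r * 2 ^ A * (K * X) := h1
      _ ≤ 2 ^ r * 2 ^ A * (K * X) := by gcongr
      _ = X * (K * (2 ^ A * 2 ^ r)) := by ring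
  exact Nat.le_of_mul_le_mul_right hfin (by positivity)

end Pool.Agent.Lib.Pa76659H
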