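import Pool.Agent.Lib.Pa76659H.Tab

/-!
Forcing conditions for the high hierarchy.
-/

set_option maxHeartbeats 4000000

namespace Pool.Agent.Lib.Pa76659H

open Pool.Agent.Lib.Pa76659

/-- Columns: index, machine of the high set, machine coded, padding, the witness of highness and
bounds. -/
structure Col where
  j : ℕ
  a : NIx
  i : NIx
  B : ℕ
  p : PIx
  l : List NIx
  bM : ℕ
  bA : ℕ
  bI : ℕ
  m : ℕ

/-- bounds of a nondeterministic machine -/
def NB (i : NIx) (b : ℕ) : Prop := ∀ n : ℕ, n + i.2.2.eval n + i.2.1.eval n ≤ (n + 2) ^ b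

theorem exists_NB (i : NIx) : ∃ b, NB i b := by
  obtain ⟨b, hb⟩ := poly_le (Polynomial.X + i.2.2 + i.2.1)
  refine ⟨b, fun n => ?_⟩
  have h1 := hb (n + 2) (by omega)
  simp only [Polynomial.eval_add, Polynomial.eval_X] at h1
  have h2 := poly_mono i.2.2 (show n ≤ n + 2 by omega)
  have h3 := poly_mono i.2.1 (show n ≤ n + 2 by omega)
  omega

theorem NB.mono {i : NIx} {b b' : ℕ} (h : NB i b) (hb : b ≤ b') : NB i b' :=
  fun n => (h n).trans (Nat.pow_le_pow_right (by omega) hb)

/-- the verifier's decision tree -/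
def vTree (i : NIx) (x y : Str) : DT Str Bool := accTree i.1 (inp2 x y) (i.2.1.eval x.length)

theorem vTree_depth (i : NIx) {b : ℕ} (hb : NB i b) (x y : Str) :
    (vTree i x y).depth ≤ (x.length + 2) ^ b := by
  refine (accTree_depth _ _ _).trans ?_
  have := hb x.length
  omega

theorem vTree_qin (i : NIx) {b : ℕ} (hb : NB i b) (x y : Str)
    (hy : y.length = i.2.2.eval x.length) :
    (vTree i x y).QIn {v | v.length ≤ (x.length + 2) ^ b} := by
  apply (accTree_qin _ _ _ _ (inp2_bdd x y)).mono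
  intro v hv
  simp only [Set.mem_ofPred_eq] at hv ⊢
  have := hb x.length
  omega

theorem nEval_true (i : NIx) (O : Lang) (x : Str) :
    nEval i O x = true ↔ ∃ y : Str, y.length = i.2.2.eval x.length ∧
      (vTree i x y).eval O = true := by
  unfold nEval vTree
  simp only [decide_eq_true_eq, accTree_eval]

theorem NB.congr {i : NIx} {b : ℕ} (hb : NB i b) (x : Str) (O O' : Lang)
    (h : ∀ v : Str, v.length ≤ (x.length + 2) ^ b → O v = O' v) :
    nEval i O x = nEval i O' x := by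
  have key : (nEval i O x = true ↔ nEval i O' x = true) := by
    rw [nEval_true, nEval_true]
    constructor
    · rintro ⟨y, hy, h1⟩
      exact ⟨y, hy, by rw [← DT.eval_congr h (vTree_qin i hb x y hy)]; exact h1⟩
    · rintro ⟨y, hy, h1⟩
      exact ⟨y, hy, by rw [DT.eval_congr h (vTree_qin i hb x y hy)]; exact h1⟩
  cases h4 : nEval i O x <;> cases h5 : nEval i O' x <;> simp_all

structure Gd (c : Col) : Prop where
  hl : c.l ≠ []
  hM : ∀ n : ℕ, 2 ≤ n → ∀ x : Str, x.length ≤ n →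
    IsC (SL (n ^ c.bM)) (n ^ c.bM) (n ^ c.bM) c.l.length (fun O => sEval c.p c.l O x)
  hA : NB c.a c.bA
  hI : NB c.i c.bI
  hAM : (c.bM + 1) * c.bA + 2 * c.bM + 5 ≤ 2 ^ c.m
  hB : c.bI * 2 ^ (c.m + 1) ≤ 2 ^ c.B

theorem exists_col (j m0 : ℕ) (a i : NIx) (p : PIx) (l : List NIx) (hl : l ≠ []) :
    ∃ c : Col, Gd c ∧ c.j = j ∧ m0 ≤ c.m ∧ c.a = a ∧ c.i = i ∧ c.p = p ∧ c.l = l := by
  obtain ⟨bM, hM⟩ := sEval_isC p l
  obtain ⟨bA, hA⟩ := exists_NB a
  obtain ⟨bI, hI⟩ := exists_NB i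
  set m := (bM + 1) * bA + 2 * bM + 5 + m0 with hm
  set B := bI * 2 ^ (m + 1) with hB
  refine ⟨⟨j, a, i, B, p, l, bM, bA, bI, m⟩, ⟨hl, hM, hA, hI, ?_, ?_⟩, rfl, ?_, rfl, rfl, rfl, rfl⟩
  · have : m < 2 ^ m := Nat.lt_two_pow_self
    show (bM + 1) * bA + 2 * bM + 5 ≤ 2 ^ m
    omega
  · have : B < 2 ^ B := Nat.lt_two_pow_self
    show bI * 2 ^ (m + 1) ≤ 2 ^ B
    omega
  · show m0 ≤ m
    omega

/-- the length of the first string of the table of `x` -/
def tl (c : Col) (x : Str) : ℕ := c.j + 7 + (x.length + 2) ^ (2 ^ c.B) + x.length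

theorem tl_eq (c : Col) (x : Str) (t1 t2 : Bool) : (tab c.j c.B x [] t1 t2).length = tl c x := by
  rw [tab_length, tl]; simp

theorem tl_le (c : Col) (x w : Str) (t1 t2 : Bool) : tl c x ≤ (tab c.j c.B x w t1 t2).length := by
  rw [tab_length, tl]; omega

/-- the coded value depends only on strings shorter than the table -/
theorem Gd.view {c : Col} (hc : Gd c) (x : Str) (v : Str) (hv : v.length ≤ (x.length + 2) ^ c.bI) :
    v.length ^ (2 ^ (c.m + 1)) < tl c x := by
  have h1 : v.length ^ (2 ^ (c.m + 1)) ≤ (x.length + 2) ^ (2 ^ c.B) := by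
    calc _ ≤ ((x.length + 2) ^ c.bI) ^ (2 ^ (c.m + 1)) := Nat.pow_le_pow_left hv _
      _ = (x.length + 2) ^ (c.bI * 2 ^ (c.m + 1)) := by rw [← pow_mul]
      _ ≤ _ := Nat.pow_le_pow_right (by omega) hc.hB
  unfold tl
  omega

theorem Gd.view_lt {c : Col} (hc : Gd c) (x : Str) (v : Str)
    (hv : v.length ≤ (x.length + 2) ^ c.bI) : v.length < tl c x :=
  lt_of_le_of_lt (Nat.le_self_pow (by positivity) _) (hc.view x v hv)

theorem Gd.congr {c : Col} (hc : Gd c) (x : Str) (O O' : Lang)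
    (h : ∀ v : Str, v.length < tl c x → O v = O' v) : nEval c.i O x = nEval c.i O' x :=
  hc.hI.congr x O O' fun v hv => h v (hc.view_lt x v hv)

/-- the high set of the column -/
noncomputable def hs (c : Col) (X : Lang) : Lang := nEval c.a X

/-- fuel of the walk -/
def fuel (c : Col) (x : Str) : ℕ := (x.length + 2) ^ (2 ^ (c.B + 5))

/-- the table of `x` is correct -/
def Wk (c : Col) (X : Lang) (x : Str) : Prop :=
  walk c.j c.B X (join X (hs c X)) x (fuel c x) [] [] = some (nEval c.i X x)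

structure Cnd where
  N : ℕ
  σ : Lang
  cols : List Col

def Agree (q : Cnd) (X : Lang) : Prop := ∀ v : Str, v.length < q.N → X v = q.σ v

/-- default tables from length `n` on -/
def Dft (cols : List Col) (X : Lang) (n : ℕ) : Prop := ∀ c ∈ cols, ∀ x, n ≤ tl c x →
  ∀ t2, X (tab c.j c.B x [] true t2) = (t2 || nEval c.i X x)

def Mem (q : Cnd) (X : Lang) : Prop :=
  Agree q X ∧ (∀ c ∈ q.cols, ∀ x, Wk c X x) ∧ ∃ n, Dft q.cols X n

structure WF (q : Cnd) : Prop where
  gd : ∀ c ∈ q.cols, Gd c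
  uniq : ∀ c ∈ q.cols, ∀ c' ∈ q.cols, c.j = c'.j → c = c'
  lt : ∀ c ∈ q.cols, c.j < q.N
  sorted : q.cols.Pairwise (fun c c' => c.m ≤ c'.m ∧ c.j < c'.j)
  wk : ∀ c ∈ q.cols, ∀ x, tl c x < q.N → ∀ X, Agree q X → Wk c X x

/-- table bits -/
def tbit (T : DT Str Bool) (w : Str) (t1 t2 : Bool) : Bool :=
  WT.bit (WT.desc (WT.comp T) w) t1 t2

open Classical in
/-- The oracle with free part `Y`, tables `τ` and default tables. -/
noncomputable def Phi (q : Cnd) (τ : ℕ → Str → Option (DT Str Bool)) (Y : Lang) (v : Str) : Bool :=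
  if v.length < q.N then q.σ v
  else if h : ∃ d : Col × Str × Str × Bool × Bool, d.1 ∈ q.cols ∧
      v = tab d.1.j d.1.B d.2.1 d.2.2.1 d.2.2.2.1 d.2.2.2.2 then
    match τ h.choose.1.j h.choose.2.1 with
    | some T => tbit T h.choose.2.2.1 h.choose.2.2.2.1 h.choose.2.2.2.2
    | none => h.choose.2.2.2.1 && (h.choose.2.2.2.2 || nEval h.choose.1.i
        (fun u => if _ : u.length < v.length then Phi q τ Y u else false) h.choose.2.1)
  else Y v
termination_by v.length

theorem Phi_below (q : Cnd) (τ : ℕ → Str → Option (DT Str Bool)) (Y : Lang) (v : Str)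
    (h : v.length < q.N) : Phi q τ Y v = q.σ v := by
  rw [Phi, if_pos h]

/-- not in a table -/
def Free (q : Cnd) (v : Str) : Prop := ∀ c ∈ q.cols, ∀ x w t1 t2, v ≠ tab c.j c.B x w t1 t2

theorem free_false (q : Cnd) (v : Str) : Free q (false :: v) :=
  fun c _ x w t1 t2 h => tab_ne_false c.j c.B x w t1 t2 v h.symm

theorem Phi_free (q : Cnd) (τ : ℕ → Str → Option (DT Str Bool)) (Y : Lang) (v : Str)
    (h : q.N ≤ v.length) (hf : Free q v) : Phi q τ Y v = Y v := by
  rw [Phi, if_neg (by omega), dif_neg]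
  rintro ⟨⟨c, x, w, t1, t2⟩, h1, h2⟩
  exact hf c h1 x w t1 t2 h2

theorem Phi_tab {q : Cnd} (hq : WF q) (τ : ℕ → Str → Option (DT Str Bool)) (Y : Lang)
    {c : Col} (hc : c ∈ q.cols) (x w : Str) (t1 t2 : Bool)
    (h : q.N ≤ (tab c.j c.B x w t1 t2).length) :
    Phi q τ Y (tab c.j c.B x w t1 t2) = match τ c.j x with
      | some T => tbit T w t1 t2
      | none => t1 && (t2 || nEval c.i (Phi q τ Y) x) := by
  have hex : ∃ d : Col × Str × Str × Bool × Bool, d.1 ∈ q.cols ∧
      tab c.j c.B x w t1 t2 = tab d.1.j d.1.B d.2.1 d.2.2.1 d.2.2.2.1 d.2.2.2.2 :=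
    ⟨(c, x, w, t1, t2), hc, rfl⟩
  rw [Phi, if_neg (by omega), dif_pos hex]
  obtain ⟨h1, h2⟩ := hex.choose_spec
  set d := hex.choose with hd
  obtain ⟨e1, e2, e3, e4, e5⟩ := tab_inj h2
  have e6 : d.1 = c := (hq.uniq c hc d.1 h1 e1).symm
  rw [e6, ← e2, ← e3, ← e4, ← e5]
  cases τ c.j x with
  | some T => rfl
  | none =>
      simp only
      congr 2
      apply (hq.gd c hc).congr
      intro u hu
      have := tl_le c x w t1 t2
      have h3 : u.length < (tab c.j c.B x w t1 t2).length := by omega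
      simp [h3]

/-- the tables are correct -/
def TOK (q : Cnd) (τ : ℕ → Str → Option (DT Str Bool)) (X : Lang) : Prop :=
  ∀ c ∈ q.cols, ∀ x T, τ c.j x = some T → T.eval (join X (hs c X)) = nEval c.i X x ∧
    ∃ L d : ℕ, T.depth ≤ d ∧ T.QIn {u | u.length ≤ L} ∧ d * (L + 1) + 1 ≤ fuel c x

theorem fuel_pos (c : Col) (x : Str) : 1 ≤ fuel c x := Nat.one_le_pow _ _ (by omega)

theorem Phi_mem {q : Cnd} (hq : WF q) (τ : ℕ → Str → Option (DT Str Bool)) (Y : Lang)
    (hτ : TOK q τ (Phi q τ Y)) (n1 : ℕ) (hn : ∀ c ∈ q.cols, ∀ x, n1 ≤ tl c x → τ c.j x = none) :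
    Mem q (Phi q τ Y) := by
  refine ⟨fun v hv => Phi_below q τ Y v hv, fun c hc x => ?_, ?_⟩
  · by_cases hx : tl c x < q.N
    · exact hq.wk c hc x hx _ (fun v hv => Phi_below q τ Y v hv)
    · have hx : q.N ≤ tl c x := by omega
      have hlen : ∀ w t1 t2, q.N ≤ (tab c.j c.B x w t1 t2).length :=
        fun w t1 t2 => hx.trans (tl_le c x w t1 t2)
      cases hT : τ c.j x with
      | some T =>
          obtain ⟨h1, L, d, h2, h3, h4⟩ := hτ c hc x T hT
          unfold Wk
          rw [WT.walk_eq c.j c.B _ _ x (WT.comp T) (by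
            intro w t1 t2
            rw [Phi_tab hq τ Y hc x w t1 t2 (hlen w t1 t2), hT]
            rfl)]
          rw [← h1]
          exact WT.run_comp _ L T d _ h2 h3 h4
      | none =>
          obtain ⟨n', hn'⟩ : ∃ n', fuel c x = n' + 1 := ⟨fuel c x - 1, by
            have := fuel_pos c x; omega⟩
          unfold Wk
          rw [hn', walk, Phi_tab hq τ Y hc x [] true true (hlen _ _ _),
            Phi_tab hq τ Y hc x [] true false (hlen _ _ _), hT]
          simp
  · refine ⟨max n1 q.N, fun c hc x hx t2 => ?_⟩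
    have h1 : n1 ≤ tl c x := le_trans (le_max_left _ _) hx
    have h2 : q.N ≤ tl c x := le_trans (le_max_right _ _) hx
    rw [Phi_tab hq τ Y hc x [] true t2 (h2.trans (tl_le _ _ _ _ _)), hn c hc x h1]
    simp

theorem exists_mem {q : Cnd} (hq : WF q) : ∃ X, Mem q X :=
  ⟨Phi q (fun _ _ => none) (fun _ => false), Phi_mem hq _ _
    (fun c _ x T h => by simp at h) 0 (fun _ _ _ _ => rfl)⟩

/-- two such oracles agree up to `n` if their data agree -/
theorem Phi_local {q : Cnd} (hq : WF q) (τ τ' : ℕ → Str → Option (DT Str Bool)) (Y Y' : Lang)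
    (n : ℕ) (hτ : ∀ c ∈ q.cols, ∀ x, tl c x < n → τ c.j x = τ' c.j x)
    (hY : ∀ v : Str, q.N ≤ v.length → v.length < n → Free q v → Y v = Y' v) :
    ∀ v : Str, v.length < n → Phi q τ Y v = Phi q τ' Y' v := by
  intro v
  induction hl : v.length using Nat.strong_induction_on generalizing v with
  | _ k ih =>
    intro hn
    subst hl
    by_cases hN : v.length < q.N
    · rw [Phi_below q τ Y v hN, Phi_below q τ' Y' v hN]
    have hN : q.N ≤ v.length := by omega
    by_cases hf : Free q v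
    · rw [Phi_free q τ Y v hN hf, Phi_free q τ' Y' v hN hf, hY v hN hn hf]
    · unfold Free at hf
      push Not at hf
      obtain ⟨c, hc, x, w, t1, t2, rfl⟩ := hf
      have h1 := tl_le c x w t1 t2
      rw [Phi_tab hq τ Y hc x w t1 t2 hN, Phi_tab hq τ' Y' hc x w t1 t2 hN,
        hτ c hc x (by omega)]
      cases τ' c.j x with
      | some T => rfl
      | none =>
          simp only
          congr 2
          apply (hq.gd c hc).congr
          intro u hu
          exact ih u.length (by omega) u rfl (by omega)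

end Pool.Agent.Lib.Pa76659H
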