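import Pool.Agent.Lib.Pa76659H.Start
import Pool.Agent.Lib.Pa76659H.Fin

/-!
The scale lemma.
-/

set_option maxHeartbeats 4000000
set_option linter.unusedSectionVars false

namespace Pool.Agent.Lib.Pa76659H

open Pool.Agent.Lib.Pa76659 Pool.Agent.Lib.Pa76659.Hier

/-- shapes given by exponents -/
def shp (N : ℕ) (ee : ℕ → ℕ → ℕ) : ℕ → ℕ → ℕ := fun i h => N ^ ee i h

def dec4 (ee : ℕ → ℕ → ℕ) : ℕ → ℕ → ℕ := fun i => Function.update (ee i) 0 (ee i 0 - 4)

theorem thinM_shp {N : ℕ} (hN : 1 ≤ N) {ee : ℕ → ℕ → ℕ} (h : ∀ i, 4 ≤ ee i 0) :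
    thinM (N ^ 4) (shp N ee) = shp N (dec4 ee) := by
  funext i j
  unfold thinM shp dec4
  rcases Nat.eq_zero_or_pos j with rfl | hj
  · simp only [Function.update_self]
    rw [Nat.pow_div (h i) hN]
  · rw [Function.update_of_ne (by omega), Function.update_of_ne (by omega)]

/-- numeric facts about the scale -/
structure Nm (J kk mJ ν n N cc : ℕ) : Prop where
  hN : N = 2 ^ ν
  hn : 16 * (kk + J + 3) ≤ n
  hνn : ν + 1 ≤ n
  hT : (n ^ (2 ^ mJ)) ^ (2 * kk + 6) ≤ N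
  hcc : ∀ e ≤ cc, N ^ e ≤ 2 ^ n

section

variable {J kk mJ ν n N cc : ℕ} (h : Nm J kk mJ ν n N cc)

include h

theorem Nm.T16 : 16 ≤ n ∧ n ≤ n ^ (2 ^ mJ) := by
  have := h.hn
  exact ⟨by omega, Nat.le_self_pow (by positivity) _⟩

theorem Nm.c : n ^ (2 ^ mJ) < N := by
  obtain ⟨h1, h2⟩ := h.T16
  refine lt_of_lt_of_le ?_ h.hT
  set T := n ^ (2 ^ mJ)
  calc T = T ^ 1 := (pow_one _).symm
    _ < T ^ (2 * kk + 6) := Nat.pow_lt_pow_right (by omega) (by omega)

theorem Nm.T5 : (n ^ (2 ^ mJ)) ^ 5 ≤ N := by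
  obtain ⟨h1, h2⟩ := h.T16
  exact (Nat.pow_le_pow_right (by omega) (by omega)).trans h.hT

theorem Nm.b : (4 * n ^ (2 ^ mJ) * (N + 1) * N + 1 + 1) * (n * kk + J + 3) ≤ N ^ 4 := by
  obtain ⟨h1, h2⟩ := h.T16
  have h3 := h.T5
  have h4 := h.hn
  set T := n ^ (2 ^ mJ) with hT
  have hN1 : 1 ≤ N := by
    have := h.c
    omega
  have e1 : 4 * T * (N + 1) * N + 1 + 1 ≤ 10 * T * N ^ 2 := by
    have a1 : T * N ≤ T * N ^ 2 := Nat.mul_le_mul_left _ (Nat.le_self_pow (by norm_num) _)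
    have a2 : 1 ≤ T * N ^ 2 := Nat.mul_pos (by omega) (Nat.pow_pos hN1)
    nlinarith
  have e2 : n * kk + J + 3 ≤ T ^ 2 := by
    have : n * kk + J + 3 ≤ n * n := by nlinarith
    nlinarith
  have e3 : 10 * T ^ 3 ≤ N := by
    calc 10 * T ^ 3 ≤ T ^ 2 * T ^ 3 := Nat.mul_le_mul_right _ (by nlinarith)
      _ = T ^ 5 := by ring
      _ ≤ N := h3
  calc _ ≤ 10 * T * N ^ 2 * T ^ 2 := Nat.mul_le_mul e1 e2
    _ = 10 * T ^ 3 * N ^ 2 := by ring
    _ ≤ N * N ^ 2 := Nat.mul_le_mul_right _ e3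
    _ ≤ N ^ 4 := by
        rw [show N ^ 4 = N * (N * N ^ 2) by ring]
        exact Nat.le_mul_of_pos_left _ hN1

theorem Nm.d : 2 * ((n ^ (2 ^ mJ) + 1) * (n ^ (2 ^ mJ) + 2) * (4 * n ^ (2 ^ mJ) * N ^ 2 + 1)) ≤
    N ^ 3 := by
  obtain ⟨h1, h2⟩ := h.T16
  have h3 := h.T5
  set T := n ^ (2 ^ mJ) with hT
  have hN1 : 1 ≤ N := by
    have := h.c
    omega
  have hN2 : 1 ≤ N ^ 2 := Nat.one_le_pow _ _ hN1
  have e1 : 4 * T * N ^ 2 + 1 ≤ 5 * T * N ^ 2 := by nlinarith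
  have e2 : (T + 1) * (T + 2) ≤ 2 * T ^ 2 := by nlinarith
  have e3 : 20 * T ^ 3 ≤ N := by
    calc 20 * T ^ 3 ≤ T ^ 2 * T ^ 3 := Nat.mul_le_mul_right _ (by nlinarith)
      _ = T ^ 5 := by ring
      _ ≤ N := h3
  calc _ ≤ 2 * (2 * T ^ 2 * (5 * T * N ^ 2)) := Nat.mul_le_mul_left _ (Nat.mul_le_mul e2 e1)
    _ = 20 * T ^ 3 * N ^ 2 := by ring
    _ ≤ N * N ^ 2 := Nat.mul_le_mul_right _ e3
    _ = N ^ 3 := by ring

theorem Nm.e {g X e e' : ℕ} (hg : g ≤ kk) (hX : X = N ^ e) (he : (2 * e + 1) * (g + 2) + 2 ≤ e')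
    (hg2 : g + 1 ≤ kk) :
    (n ^ (2 ^ mJ) + 1) * (n ^ (2 ^ mJ) + 2) * (4 * n ^ (2 ^ mJ) * X ^ 2 + 1) ^ (g + 2) <
      N ^ e' := by
  obtain ⟨h1, h2⟩ := h.T16
  have h3 := h.hT
  set T := n ^ (2 ^ mJ) with hT
  have hN1 : 2 ≤ N := by
    have := h.c
    omega
  have hX1 : 1 ≤ X := by rw [hX]; exact Nat.one_le_pow _ _ (by omega)
  have hX2 : 1 ≤ X ^ 2 := Nat.one_le_pow _ _ hX1
  have e1 : 4 * T * X ^ 2 + 1 ≤ T ^ 2 * X ^ 2 := by
    have a1 : 16 * (T * X ^ 2) ≤ T * (T * X ^ 2) := Nat.mul_le_mul_right _ (by omega)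
    have a2 : 1 ≤ T * X ^ 2 := Nat.mul_pos (by omega) hX2
    nlinarith
  have e2 : (T + 1) * (T + 2) ≤ T ^ 3 := by
    have : (T + 1) * (T + 2) ≤ 2 * T ^ 2 := by nlinarith
    calc _ ≤ 2 * T ^ 2 := this
      _ ≤ T * T ^ 2 := Nat.mul_le_mul_right _ (by omega)
      _ = T ^ 3 := by ring
  have e3 : T ^ 3 * (T ^ 2) ^ (g + 2) ≤ N := by
    calc T ^ 3 * (T ^ 2) ^ (g + 2) = T ^ (3 + 2 * (g + 2)) := by
          rw [show (T ^ 2) ^ (g + 2) = T ^ (2 * (g + 2)) from (pow_mul T 2 _).symm, ← pow_add]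
      _ ≤ T ^ (2 * kk + 6) := Nat.pow_le_pow_right (by omega) (by omega)
      _ ≤ N := h3
  calc _ ≤ T ^ 3 * (T ^ 2 * X ^ 2) ^ (g + 2) := Nat.mul_le_mul e2 (Nat.pow_le_pow_left e1 _)
    _ = (T ^ 3 * (T ^ 2) ^ (g + 2)) * (X ^ 2) ^ (g + 2) := by rw [mul_pow]; ring
    _ ≤ N * (X ^ 2) ^ (g + 2) := Nat.mul_le_mul_right _ e3
    _ = N ^ (1 + e * 2 * (g + 2)) := by
        rw [hX, ← pow_mul, ← pow_mul, pow_add, pow_one]
        congr 2
        ring
    _ < N ^ e' := by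
        apply Nat.pow_lt_pow_right (by omega)
        have : e * 2 * (g + 2) + (g + 2) = (2 * e + 1) * (g + 2) := by ring
        omega

theorem Nm.f : 4 * (2 * ((N + 1) * n ^ (2 ^ mJ)) + 1) * (J * (ν + 1)) ≤ N ^ 3 := by
  obtain ⟨h1, h2⟩ := h.T16
  have h3 := h.T5
  have h4 := h.hn
  have h5 := h.hνn
  set T := n ^ (2 ^ mJ) with hT
  have hN1 : 1 ≤ N := by
    have := h.c
    omega
  have e1 : 2 * ((N + 1) * T) + 1 ≤ 5 * N * T := by nlinarith
  have e2 : J * (ν + 1) ≤ T ^ 2 := by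
    calc J * (ν + 1) ≤ T * T := Nat.mul_le_mul (by omega) (by omega)
      _ = T ^ 2 := by ring
  have e3 : 20 * T ^ 3 ≤ N := by
    calc 20 * T ^ 3 ≤ T ^ 2 * T ^ 3 := Nat.mul_le_mul_right _ (by nlinarith)
      _ = T ^ 5 := by ring
      _ ≤ N := h3
  calc _ ≤ 4 * (5 * N * T) * T ^ 2 := Nat.mul_le_mul (Nat.mul_le_mul_left _ e1) e2
    _ = 20 * T ^ 3 * N := by ring
    _ ≤ N * N := Nat.mul_le_mul_right _ e3
    _ ≤ N ^ 3 := by
        rw [show N ^ 3 = N * (N * N) by ring]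
        exact Nat.le_mul_of_pos_left _ hN1

theorem Nm.G : 2 * ((N + 1) * n ^ (2 ^ mJ)) + 1 ≤ N ^ 4 := by
  obtain ⟨h1, h2⟩ := h.T16
  have h3 := h.T5
  set T := n ^ (2 ^ mJ) with hT
  have hc := h.c
  have hN1 : 1 ≤ N := by omega
  have e1 : 2 * ((N + 1) * T) + 1 ≤ 5 * N * T := by nlinarith
  have e3 : 5 * T ≤ N := by
    calc 5 * T ≤ T ^ 4 * T := Nat.mul_le_mul_right _ (by
          calc 5 ≤ T ^ 1 := by rw [pow_one]; omega
            _ ≤ T ^ 4 := Nat.pow_le_pow_right (by omega) (by norm_num))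
      _ = T ^ 5 := by ring
      _ ≤ N := h3
  calc _ ≤ 5 * N * T := e1
    _ = 5 * T * N := by ring
    _ ≤ N * N := Nat.mul_le_mul_right _ e3
    _ ≤ N ^ 4 := by
        rw [show N ^ 4 = N ^ 2 * (N * N) by ring]
        exact Nat.le_mul_of_pos_left _ (Nat.pow_pos hN1)

end

theorem exists_nm (J kk mJ cc n0 : ℕ) (hcc : 1 ≤ cc) : ∃ ν n N, n0 ≤ n ∧ Nm J kk mJ ν n N cc := by
  set D := 2 ^ mJ * (2 * kk + 6) with hD
  obtain ⟨ν0, hν0⟩ := pow_le_two_pow (2 * D)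
  set ν := ν0 + cc + n0 + 16 * (kk + J + 3) with hν
  have h1 : 1 ≤ cc + 1 := by omega
  have hge : ν ≤ (cc + 1) * ν := Nat.le_mul_of_pos_left _ (by omega)
  refine ⟨ν, (cc + 1) * ν, 2 ^ ν, by omega, rfl, by omega, ?_, ?_, ?_⟩
  · have : (cc + 1) * ν = cc * ν + ν := by ring
    have h2 : 1 * ν ≤ cc * ν := Nat.mul_le_mul_right _ hcc
    omega
  · rw [← pow_mul, ← hD]
    have h2 : (cc + 1) * ν ≤ ν ^ 2 := by
      rw [pow_two]
      exact Nat.mul_le_mul_right _ (by omega)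
    calc ((cc + 1) * ν) ^ D ≤ (ν ^ 2) ^ D := Nat.pow_le_pow_left h2 _
      _ = ν ^ (2 * D) := by rw [← pow_mul]
      _ ≤ 2 ^ ν := hν0 ν (by omega)
  · intro e he
    rw [← pow_mul]
    apply Nat.pow_le_pow_right (by norm_num)
    rw [mul_comm]
    exact Nat.mul_le_mul_right _ (by omega)

/-- exponents within a family -/
def seqE (a : ℕ) : ℕ → ℕ
  | 0 => a
  | h + 1 => (2 * seqE a h + 1) * (h + 2) + 2

theorem exists_exponents (J : ℕ) (k : ℕ → ℕ) (C : ℕ) : ∃ a : ℕ → ℕ, ∀ i,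
    C + ∑ i' ∈ Finset.Ioc i J, ∑ h ∈ Finset.range (k i'), seqE (a i') h ≤ a i := by
  have key : ∀ d, ∃ a : ℕ → ℕ, ∀ i, J ≤ i + d →
      C + ∑ i' ∈ Finset.Ioc i J, ∑ h ∈ Finset.range (k i'), seqE (a i') h ≤ a i := by
    intro d
    induction d with
    | zero =>
        refine ⟨fun _ => C, fun i hi => ?_⟩
        rw [Finset.Ioc_eq_empty (by omega)]
        simp
    | succ d ih =>
        obtain ⟨a, ha⟩ := ih
        by_cases hd : d < J
        · set j := J - (d + 1) with hj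
          refine ⟨Function.update a j
            (C + ∑ i' ∈ Finset.Ioc j J, ∑ h ∈ Finset.range (k i'), seqE (a i') h), ?_⟩
          intro i hi
          have hsum : ∑ i' ∈ Finset.Ioc i J, ∑ h ∈ Finset.range (k i'),
              seqE (Function.update a j
                (C + ∑ i' ∈ Finset.Ioc j J, ∑ h ∈ Finset.range (k i'), seqE (a i') h) i') h =
              ∑ i' ∈ Finset.Ioc i J, ∑ h ∈ Finset.range (k i'), seqE (a i') h := by
            apply Finset.sum_congr rfl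
            intro i' hi'
            rw [Finset.mem_Ioc] at hi'
            rw [Function.update_of_ne (by omega)]
          rw [hsum]
          by_cases hij : i = j
          · subst hij
            rw [Function.update_self]
          · rw [Function.update_of_ne hij]
            exact ha i (by omega)
        · exact ⟨a, fun i hi => ha i (by omega)⟩
  obtain ⟨a, ha⟩ := key J
  exact ⟨a, fun i => ha i (by omega)⟩

theorem card_names_le {I : Finset ℕ} {k : ℕ → ℕ} {m : ℕ → ℕ → ℕ} {n kk J : ℕ}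
    (hI : I.card ≤ J + 1) (hk : ∀ i ∈ I, k i ≤ kk) (hm : ∀ i ∈ I, ∀ h < k i, m i h ≤ 2 ^ n) :
    4 * (names I k m).card ≤ 2 ^ (n * kk + J + 3) := by
  have h1 : (names I k m).card ≤ (J + 1) * 2 ^ (n * kk) := by
    refine (card_names I k m).trans ?_
    calc ∑ i ∈ I, ∏ j ∈ Finset.range (k i), m i j ≤ ∑ _i ∈ I, 2 ^ (n * kk) := by
          apply Finset.sum_le_sum
          intro i hi
          calc ∏ j ∈ Finset.range (k i), m i j ≤ ∏ _j ∈ Finset.range (k i), 2 ^ n :=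
                Finset.prod_le_prod' (fun j hj => hm i hi j (Finset.mem_range.1 hj))
            _ = 2 ^ (n * k i) := by
                rw [Finset.prod_const, Finset.card_range, ← pow_mul]
            _ ≤ 2 ^ (n * kk) := Nat.pow_le_pow_right (by norm_num)
                (Nat.mul_le_mul_left _ (hk i hi))
      _ = I.card * 2 ^ (n * kk) := by rw [Finset.sum_const, smul_eq_mul]
      _ ≤ (J + 1) * 2 ^ (n * kk) := Nat.mul_le_mul_right _ hI
  have h2 : J + 1 ≤ 2 ^ J := Nat.lt_two_pow_self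
  calc 4 * (names I k m).card ≤ 4 * ((J + 1) * 2 ^ (n * kk)) := Nat.mul_le_mul_left _ h1
    _ ≤ 4 * (2 ^ J * 2 ^ (n * kk)) := Nat.mul_le_mul_left _ (Nat.mul_le_mul_right _ h2)
    _ ≤ 2 ^ (n * kk + J + 3) := by
        rw [pow_add, pow_add]
        nlinarith [Nat.pos_of_ne_zero (show 2 ^ (n * kk) * 2 ^ J ≠ 0 by positivity)]

theorem card_names_shp {N J i0 : ℕ} {k : ℕ → ℕ} {ee e0 : ℕ → ℕ → ℕ} (hN : 1 ≤ N)
    (hee : ∀ i h, ee i h ≤ e0 i h) :
    (names (Finset.Icc (i0 + 1) J) k (shp N ee)).card ≤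
      J * N ^ (∑ i' ∈ Finset.Ioc i0 J, ∑ h ∈ Finset.range (k i'), e0 i' h) := by
  refine (card_names _ _ _).trans ?_
  calc ∑ i ∈ Finset.Icc (i0 + 1) J, ∏ j ∈ Finset.range (k i), shp N ee i j
      ≤ ∑ _i ∈ Finset.Icc (i0 + 1) J,
        N ^ (∑ i' ∈ Finset.Ioc i0 J, ∑ h ∈ Finset.range (k i'), e0 i' h) := by
        apply Finset.sum_le_sum
        intro i hi
        unfold shp
        rw [Finset.prod_pow_eq_pow_sum]
        apply Nat.pow_le_pow_right hN
        have h1 : i ∈ Finset.Ioc i0 J := by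
          rw [Finset.mem_Icc] at hi
          rw [Finset.mem_Ioc]; omega
        calc ∑ h ∈ Finset.range (k i), ee i h ≤ ∑ h ∈ Finset.range (k i), e0 i h :=
              Finset.sum_le_sum (fun h _ => hee i h)
          _ ≤ _ := Finset.single_le_sum (f := fun i' => ∑ h ∈ Finset.range (k i'), e0 i' h)
              (fun _ _ => Nat.zero_le _) h1
    _ = (J + 1 - (i0 + 1)) * _ := by
        rw [Finset.sum_const, smul_eq_mul, Nat.card_Icc]
    _ ≤ _ := Nat.mul_le_mul_right _ (by omega)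

theorem small_sum {n b kk J k T : ℕ} (hn : 16 * (kk + J + 3) ≤ n) (hk : k ≤ kk) (hb : 1 ≤ b)
    (hT : b * n ^ 3 ≤ T) : b * k + n * k + 4 * k + 4 ≤ T := by
  have h1 : b * k ≤ b * n := Nat.mul_le_mul_left _ (by omega)
  have h2 : n * k + 4 * k + 4 ≤ n * n := by nlinarith
  have h3 : b * n + n * n ≤ b * n ^ 3 := by
    have h4 : n * n ≤ b * (n * n) := Nat.le_mul_of_pos_left _ hb
    have h5 : b * n ≤ b * (n * n) := Nat.mul_le_mul_left _ (by nlinarith)
    have h6 : b * n ^ 3 = n * (b * (n * n)) := by ring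
    have h7 : 2 * (b * (n * n)) ≤ n * (b * (n * n)) := Nat.mul_le_mul_right _ (by omega)
    omega
  omega

theorem pow_facts {n bM T : ℕ} (hn : 3 ≤ n) (hT : n ^ (2 * bM + 5) ≤ T) :
    n ^ bM * (n ^ bM + 2) ≤ T ∧ n ^ bM * n ^ 3 ≤ T ∧ n ^ bM < T ∧ n ^ bM ≤ T := by
  have h1 : 1 ≤ n ^ bM := Nat.one_le_pow _ _ (by omega)
  have h2 : n ^ bM + 2 ≤ n ^ (bM + 1) := by rw [pow_succ]; nlinarith
  have h3 : n ^ bM * (n ^ bM + 2) ≤ T := by
    calc n ^ bM * (n ^ bM + 2) ≤ n ^ bM * n ^ (bM + 1) := Nat.mul_le_mul_left _ h2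
      _ = n ^ (bM + (bM + 1)) := by rw [← pow_add]
      _ ≤ n ^ (2 * bM + 5) := Nat.pow_le_pow_right (by omega) (by omega)
      _ ≤ T := hT
  have h4 : n ^ bM * n ^ 3 ≤ T := by
    rw [← pow_add]
    exact (Nat.pow_le_pow_right (by omega) (by omega)).trans hT
  have h5 : n ^ bM < T :=
    lt_of_lt_of_le (Nat.pow_lt_pow_right (by omega) (by omega)) hT
  exact ⟨h3, h4, h5, h5.le⟩

theorem seqE_succ (a h : ℕ) : seqE a (h + 1) = (2 * seqE a h + 1) * (h + 2) + 2 := rfl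

theorem run {Γ : Ctx} (hΓ : Γ.OK) {kk mJ cc : ℕ} (hNm : Nm Γ.J kk mJ Γ.ν Γ.n Γ.N cc)
    (hkk : ∀ i ≤ Γ.J, Γ.k i ≤ kk) (hmJ : ∀ i < Γ.J, (Γ.col i).m ≤ mJ)
    (hj : ∀ i < Γ.J, 2 * ((Γ.col i).j + 7) ≤ Γ.n) (hJust : ∀ i < Γ.J, Just Γ.q (Γ.col i))
    (a : ℕ → ℕ) (hcc : ∀ i ≤ Γ.J, ∀ h < Γ.k i, seqE (a i) h ≤ cc)
    (p : PIx) (l : List NIx) (hkJ : Γ.k Γ.J = l.length) (bM : ℕ)
    (hM : ∀ n : ℕ, 2 ≤ n → ∀ x : Str, x.length ≤ n →
      IsC (SL (n ^ bM)) (n ^ bM) (n ^ bM) l.length (fun O => sEval p l O x))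
    (hX : ∀ X, Mem Γ.q X → ∀ s, sEval p l X s = QQ (l.length + 1) X s)
    (hbM : 2 * bM + 5 ≤ 2 ^ mJ) :
    ∀ (μ i0 lv : ℕ) (ee : ℕ → ℕ → ℕ) (τ : ℕ → Str → Option (DT Str Bool)) (YY : Γ.W → Lang)
      (R : ℕ → Var → DT Str (Option (Fin Γ.N))), Inv Γ i0 lv (shp Γ.N ee) τ YY R →
      μ = 2 * (Γ.J - i0) + (mJ - lv) → (∀ i h, 1 ≤ h → ee i h = seqE (a i) h) →
      (∀ i, ee i 0 ≤ a i) →
      (∀ i, 8 + 4 * μ + ∑ i' ∈ Finset.Ioc i Γ.J, ∑ h ∈ Finset.range (Γ.k i'), seqE (a i') h ≤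
        ee i 0) → lv ≤ mJ → False := by
  intro μ
  induction μ using Nat.strong_induction_on with
  | _ μ ih =>
    intro i0 lv ee τ YY R hI hμ hee1 hee0 hbud hlv
    obtain ⟨hn16, hnT⟩ := hNm.T16
    set T := Γ.n ^ (2 ^ mJ) with hT
    have hN1 : 1 ≤ Γ.N := by have := hNm.c; omega
    have h4 : ∀ i, 8 ≤ ee i 0 := fun i => by have := hbud i; omega
    have hshp1 : thinM (Γ.N ^ 4) (shp Γ.N ee) = shp Γ.N (dec4 ee) :=
      thinM_shp hN1 (fun i => by have := h4 i; omega)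
    have hdec0 : ∀ i, dec4 ee i 0 = ee i 0 - 4 := fun i => by simp [dec4]
    have hdec1 : ∀ i h, 1 ≤ h → dec4 ee i h = ee i h := by
      intro i h hh
      unfold dec4
      rw [Function.update_of_ne (by omega)]
    have hdecle : ∀ i h, dec4 ee i h ≤ seqE (a i) h := by
      intro i h
      rcases Nat.eq_zero_or_pos h with rfl | hh
      · rw [hdec0]
        have := hee0 i
        show ee i 0 - 4 ≤ a i
        omega
      · rw [hdec1 i h hh, hee1 i h hh]
    have hsmall : ∀ i ∈ Finset.Icc i0 Γ.J, ∀ h < Γ.k i, shp Γ.N (dec4 ee) i h ≤ 2 ^ Γ.n := by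
      intro i hi h hh
      have hiJ := (Finset.mem_Icc.1 hi).2
      exact hNm.hcc _ ((hdecle i h).trans (hcc i hiJ h hh))
    have hnames : 4 * (names (Finset.Icc i0 Γ.J) Γ.k (thinM (Γ.N ^ 4) (shp Γ.N ee))).card ≤
        2 ^ (Γ.n * kk + Γ.J + 3) := by
      rw [hshp1]
      apply card_names_le
      · rw [Nat.card_Icc]; omega
      · exact fun i hi => hkk i (Finset.mem_Icc.1 hi).2
      · exact hsmall
    have hG0 : 1 ≤ Γ.N ^ 4 := Nat.one_le_pow _ _ hN1
    have hVT : ∀ l', l' ≤ mJ → Γ.V l' ≤ T := by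
      intro l' hl'
      unfold Ctx.V
      rw [hT]
      exact Nat.pow_le_pow_right (by omega) (Nat.pow_le_pow_right (by norm_num) hl')
    have hVN : ∀ l', l' ≤ mJ → Γ.V l' < Γ.N := fun l' hl' =>
      lt_of_le_of_lt (hVT l' hl') hNm.c
    have hGV : ∀ l', l' ≤ mJ → (4 * Γ.V l' * (Γ.N + 1) * Γ.N + 1 + 1) *
        (Γ.n * kk + Γ.J + 3) ≤ Γ.N ^ 4 := by
      intro l' hl'
      refine le_trans (Nat.mul_le_mul_right _ ?_) hNm.b
      have h5 := hVT l' hl'
      have h6 : 4 * Γ.V l' * (Γ.N + 1) * Γ.N ≤ 4 * T * (Γ.N + 1) * Γ.N :=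
        Nat.mul_le_mul_right _ (Nat.mul_le_mul_right _ (Nat.mul_le_mul_left _ h5))
      exact Nat.add_le_add_right (Nat.add_le_add_right h6 1) 1
    -- the conditions for extraction
    have hext0 : ∀ i, 2 * ((T + 1) * (T + 2) * (4 * T * Γ.N ^ 2 + 1)) ≤
        shp Γ.N (dec4 ee) i 0 ∨ dec4 ee i 0 < 3 := by
      intro i
      by_cases h5 : dec4 ee i 0 < 3
      · exact Or.inr h5
      · left
        refine hNm.d.trans ?_
        exact Nat.pow_le_pow_right hN1 (by omega)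
    have hext1 : ∀ i ≤ Γ.J, ∀ h, h + 1 < Γ.k i →
        (T + 1) * (T + 2) * (4 * T * (shp Γ.N (dec4 ee) i h) ^ 2 + 1) ^ (h + 2) <
          shp Γ.N (dec4 ee) i (h + 1) := by
      intro i hi h hh
      have h5 := hkk i hi
      apply hNm.e (g := h) (e := dec4 ee i h) (by omega) rfl _ (by omega)
      rw [hdec1 i (h + 1) (by omega), hee1 i (h + 1) (by omega), seqE_succ]
      have h6 := hdecle i h
      have h7 : (2 * dec4 ee i h + 1) * (h + 2) ≤ (2 * seqE (a i) h + 1) * (h + 2) :=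
        Nat.mul_le_mul_right _ (by omega)
      omega
    have hin : ∀ i ≤ Γ.J, i + 2 ≤ Γ.n := by
      intro i hi
      have := hNm.hn
      omega
    by_cases hA : i0 < Γ.J ∧ (Γ.col i0).m ≤ lv
    · -- process a column
      obtain ⟨hi0, hm⟩ := hA
      have hgd := hΓ.gd hi0
      have hTlev : Γ.n ^ (2 * (Γ.col i0).bM + 5) ≤ T := by
        refine (hgd.lev hΓ.hn3).2.trans ?_
        exact Nat.pow_le_pow_right (show 0 < Γ.q.N by have := hΓ.hn3; omega)
          (Nat.pow_le_pow_right (by norm_num) (hmJ i0 hi0))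
      obtain ⟨f1, f2, f3, f4⟩ := pow_facts hΓ.hn3 hTlev
      obtain ⟨ρ1, R1, hI1, hC1⟩ := hI.shallow hΓ hi0 hm _ _ (Γ.N ^ 4) le_rfl (hVN lv hlv)
        (hGV lv hlv) hG0 hnames
      rw [hshp1] at hI1
      obtain ⟨b, x0, Good, g1, g2, g3, g4, g5⟩ := hI1.leaves hΓ hi0 (hJust i0 hi0) hN1
        (hin i0 hi0.le) hC1 T Γ.n f1 (fun h hh => hsmall i0 (Finset.mem_Icc.2 ⟨le_rfl, hi0.le⟩) h hh)
        (small_sum hNm.hn (hkk i0 hi0.le) (Nat.one_le_pow _ _ (by omega)) f2)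
        ((hext0 i0).resolve_right (by
          rw [hdec0]
          have := hbud i0
          omega)) (hext1 i0 hi0.le)
      have hshp2 : thinM (Γ.N ^ 4) (shp Γ.N (dec4 ee)) = shp Γ.N (dec4 (dec4 ee)) :=
        thinM_shp hN1 (fun i => by rw [hdec0]; have := h4 i; omega)
      have hle2 : ∀ i h, dec4 (dec4 ee) i h ≤ seqE (a i) h := by
        intro i h
        refine le_trans ?_ (hdecle i h)
        unfold dec4
        rcases Nat.eq_zero_or_pos h with rfl | hh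
        · simp
        · rw [Function.update_of_ne (by omega)]
      obtain ⟨ρ2, R2, hI2⟩ := hI1.connect hΓ hi0 hm hN1 hNm.hN hC1 b x0 Good g1 g2 g3 g5
        ((Γ.N + 1) * T) (Γ.N ^ 4) (Nat.mul_le_mul_left _ f1) hNm.G (by
          rw [hshp2]
          have h5 := card_names_shp (N := Γ.N) (J := Γ.J) (i0 := i0) (k := Γ.k)
            (e0 := fun i h => seqE (a i) h) hN1 hle2
          set W := ∑ i' ∈ Finset.Ioc i0 Γ.J, ∑ h ∈ Finset.range (Γ.k i'), seqE (a i') h with hW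
          set cd := (names (Finset.Icc (i0 + 1) Γ.J) Γ.k (shp Γ.N (dec4 (dec4 ee)))).card
          have h6 : 2 * (2 * (2 * ((Γ.N + 1) * T) + 1) * (cd * (Γ.ν + 1))) ≤
              shp Γ.N (dec4 ee) i0 0 := by
            calc 2 * (2 * (2 * ((Γ.N + 1) * T) + 1) * (cd * (Γ.ν + 1)))
                ≤ 2 * (2 * (2 * ((Γ.N + 1) * T) + 1) * (Γ.J * Γ.N ^ W * (Γ.ν + 1))) :=
                  Nat.mul_le_mul_left _ (Nat.mul_le_mul_left _ (Nat.mul_le_mul_right _ h5))
              _ = 4 * (2 * ((Γ.N + 1) * T) + 1) * (Γ.J * (Γ.ν + 1)) * Γ.N ^ W := by ring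
              _ ≤ Γ.N ^ 3 * Γ.N ^ W := Nat.mul_le_mul_right _ hNm.f
              _ = Γ.N ^ (3 + W) := by rw [pow_add]
              _ ≤ Γ.N ^ (dec4 ee i0 0) := by
                  apply Nat.pow_le_pow_right hN1
                  rw [hdec0]
                  have := hbud i0
                  omega
          omega)
      rw [hshp2] at hI2
      have hd0 : ∀ i, dec4 (dec4 ee) i 0 = ee i 0 - 8 := by
        intro i
        have : dec4 (dec4 ee) i 0 = dec4 ee i 0 - 4 := by simp [dec4]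
        rw [this, hdec0]; omega
      refine ih (μ - 2) (by omega) (i0 + 1) lv _ _ _ _ hI2 (by omega) ?_ ?_ ?_ hlv
      · intro i h hh
        rw [← hee1 i h hh]
        unfold dec4
        rw [Function.update_of_ne (by omega), Function.update_of_ne (by omega)]
      · intro i
        rw [hd0]
        have := hee0 i
        omega
      · intro i
        rw [hd0]
        have := hbud i
        omega
    · by_cases hB : lv < mJ
      · -- next level
        obtain ⟨τ', ρ1, R1, hI1⟩ := hI.level hΓ (fun i hi hi0 => by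
            push Not at hA
            have h5 := hA (by omega)
            have h6 := hΓ.hcm i0 i hi0 hi
            omega) _ _ (Γ.N ^ 4) le_rfl (hVN (lv + 1) hB) (hGV (lv + 1) hB) hG0 hnames
          (by have := hNm.hn; omega) hNm.hνn hj hn16
        rw [hshp1] at hI1
        refine ih (μ - 1) (by omega) i0 (lv + 1) _ _ _ _ hI1 (by omega) ?_ ?_ ?_ hB
        · intro i h hh
          rw [hdec1 i h hh, hee1 i h hh]
        · intro i
          rw [hdec0]
          have := hee0 i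
          omega
        · intro i
          rw [hdec0]
          have := hbud i
          omega
      · -- the end
        have hlv' : lv = mJ := by omega
        have hi0 : i0 = Γ.J := by
          push Not at hA
          have h5 := hI.le
          by_contra hne
          have h6 := hA (by omega)
          have h7 := hmJ i0 (by omega)
          omega
        subst hi0
        subst hlv'
        have hTlev : Γ.n ^ (2 * bM + 5) ≤ T :=
          Nat.pow_le_pow_right (by omega) hbM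
        obtain ⟨f1, f2, f3, f4⟩ := pow_facts hΓ.hn3 hTlev
        have hle : ∀ i h, ee i h ≤ seqE (a i) h := by
          intro i h
          rcases Nat.eq_zero_or_pos h with rfl | hh
          · exact hee0 i
          · rw [hee1 i h hh]
        refine hI.fin hΓ p l hkJ bM hM hX f3 (lt_trans f3 hNm.c) (hin _ le_rfl) T Γ.n f4 ?_
          (small_sum hNm.hn (hkk _ le_rfl) (Nat.one_le_pow _ _ (by omega)) f2) ?_ ?_
        · intro h hh
          exact hNm.hcc _ ((hle _ h).trans (hcc _ le_rfl h hh))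
        · refine hNm.d.trans ?_
          apply Nat.pow_le_pow_right hN1
          have := h4 Γ.J
          omega
        · intro h hh
          have h5 := hkk Γ.J le_rfl
          apply hNm.e (g := h) (e := ee Γ.J h) (by omega) rfl _ (by omega)
          rw [hee1 Γ.J (h + 1) (by omega), seqE_succ]
          have h6 := hle Γ.J h
          have h7 : (2 * ee Γ.J h + 1) * (h + 2) ≤ (2 * seqE (a Γ.J) h + 1) * (h + 2) :=
            Nat.mul_le_mul_right _ (by omega)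
          omega

end Pool.Agent.Lib.Pa76659H
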