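import Pool.Agent.Lib.Pa76659H.Block

/-!
Module Extract: from an OR-NOT circuit that evaluates an OR-NOT tree of the same depth one can
extract decision trees which recognise whether single leaves are present.
-/

set_option linter.unusedVariables false
set_option linter.unusedSectionVars false

namespace Pool.Agent.Lib.Pa76659H.Ext

open Pool.Agent.Lib.Pa76659

/-! ### Unrolling the circuit -/

theorem unroll {V : Type} (S : Set V) (w t : ℕ) : ∀ (k : ℕ) (f : (V → Bool) → Bool),
    IsC S w t k f → ∃ F : ℕ → (ℕ → Fin (2 ^ w)) → (V → Bool) → Bool,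
      (∀ θ, F 0 θ = f) ∧
      (∀ n < k, ∀ θ x, F n θ x = true ↔ ∃ p, F (n + 1) (Function.update θ n p) x = false) ∧
      (∀ θ, ∃ T : DT V Bool, T.depth ≤ t ∧ T.QIn S ∧ ∀ x, F k θ x = T.eval x) ∧
      (∀ n θ θ', (∀ j < n, θ j = θ' j) → F n θ = F n θ')
  | 0, f, hf => ⟨fun _ _ => f, fun _ => rfl, fun n hn => absurd hn (by omega), fun _ => hf,
      fun _ _ _ _ => rfl⟩
  | k + 1, f, ⟨g, h1, h2⟩ => by
      choose F a1 a2 a3 a4 using fun p => unroll S w t k (g p) (h1 p)
      refine ⟨fun n θ => match n with
        | 0 => f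
        | n + 1 => F (θ 0) n (fun j => θ (j + 1)), fun _ => rfl, ?_, ?_, ?_⟩
      · intro n hn θ x
        rcases n with _ | n
        · simp only [Nat.zero_add]
          rw [h2]
          constructor
          · rintro ⟨p, hp⟩
            exact ⟨p, by rw [a1]; simpa using hp⟩
          · rintro ⟨p, hp⟩
            rw [a1] at hp
            exact ⟨p, by simpa using hp⟩
        · simp only
          rw [a2 (θ 0) n (by omega)]
          have e1 : ∀ p, (Function.update θ (n + 1) p) 0 = θ 0 := fun p => by simp
          have e2 : ∀ p, (fun j => Function.update θ (n + 1) p (j + 1)) =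
              Function.update (fun j => θ (j + 1)) n p := by
            intro p
            funext j
            by_cases h : j = n
            · subst h; simp
            · simp [Function.update_of_ne h, h]
          simp only [e1, e2]
      · intro θ
        exact a3 (θ 0) _
      · intro n θ θ' h
        rcases n with _ | n
        · rfl
        · simp only
          rw [h 0 (by omega)]
          exact a4 _ _ _ _ (fun j hj => h (j + 1) (by omega))

/-- the same with finitely many indices -/
theorem unroll' {V : Type} (S : Set V) (w t k : ℕ) (f : (V → Bool) → Bool)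
    (hf : IsC S w t k f) : ∃ F : ℕ → (Fin k → Fin (2 ^ w)) → (V → Bool) → Bool,
      (∀ θ, F 0 θ = f) ∧
      (∀ n (hn : n < k), ∀ θ x, F n θ x = true ↔
        ∃ p, F (n + 1) (Function.update θ ⟨n, hn⟩ p) x = false) ∧
      (∀ θ, ∃ T : DT V Bool, T.depth ≤ t ∧ T.QIn S ∧ ∀ x, F k θ x = T.eval x) ∧
      (∀ n θ θ', (∀ j : Fin k, (j : ℕ) < n → θ j = θ' j) → F n θ = F n θ') := by
  obtain ⟨F, a1, a2, a3, a4⟩ := unroll S w t k f hf
  have hp : 0 < 2 ^ w := by positivity
  let ex : (Fin k → Fin (2 ^ w)) → (ℕ → Fin (2 ^ w)) := fun θ j =>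
    if h : j < k then θ ⟨j, h⟩ else ⟨0, hp⟩
  refine ⟨fun n θ => F n (ex θ), fun θ => a1 _, ?_, fun θ => a3 _, ?_⟩
  · intro n hn θ x
    simp only
    rw [a2 n hn]
    have e : ∀ p, ex (Function.update θ ⟨n, hn⟩ p) = Function.update (ex θ) n p := by
      intro p
      funext j
      by_cases h : j = n
      · subst h; simp [ex, hn]
      · rw [Function.update_of_ne h]
        simp only [ex]
        split_ifs with h2
        · rw [Function.update_of_ne (by simpa [Fin.ext_iff] using h)]
        · rfl
    simp only [e]
  · intro n θ θ' h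
    apply a4
    intro j hj
    simp only [ex]
    split_ifs with h2
    · exact h ⟨j, h2⟩ hj
    · rfl

/-! ### States and worlds -/

/-- the state of a node -/
def st (P : List ℕ → ℕ) (σ : Bool) : List ℕ → Bool
  | [] => σ
  | a :: u => !(st P σ u) && decide (P u = a)

/-- reduction modulo `N` -/
def md {N : ℕ} (hN : 1 ≤ N) (x : ℕ) : Fin N := ⟨x % N, Nat.mod_lt _ hN⟩

/-- the world of a position function -/
def wld (k : ℕ) {N : ℕ} (hN : 1 ≤ N) (P : List ℕ → ℕ) (σ : Bool) (u : List ℕ) : Option (Fin N) :=
  if u.length = k then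
    (if st P σ u = true then none else some (md hN (P u))) else some ⟨0, hN⟩

theorem st_congr {P P' : List ℕ → ℕ} {σ : Bool} : ∀ {u : List ℕ},
    (∀ v, v <:+ u → v.length < u.length → P v = P' v) → st P σ u = st P' σ u
  | [], _ => rfl
  | a :: u, h => by
      have h1 : P u = P' u := h u (List.suffix_cons _ _) (by simp)
      have h2 : st P σ u = st P' σ u := st_congr (fun v hv hl =>
        h v (hv.trans (List.suffix_cons _ _)) (by simp only [List.length_cons]; omega))
      simp only [st, h1, h2]

theorem wld_congr {k N : ℕ} {hN : 1 ≤ N} {P P' : List ℕ → ℕ} {σ : Bool} {u : List ℕ}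
    (h : ∀ v, v <:+ u → P v = P' v) : wld k hN P σ u = wld k hN P' σ u := by
  unfold wld
  rw [st_congr (fun v hv _ => h v hv)]
  simp only [h u List.suffix_rfl]

/-- evaluation of the tree -/
theorem tr_wld {k N : ℕ} (hN : 1 ≤ N) (m : ℕ → ℕ) (P : List ℕ → ℕ) (σ : Bool)
    (hP : ∀ u, u.length < k → P u < m (k - 1 - u.length)) : ∀ (h : ℕ) (u : List ℕ),
    u.length + h = k → Hier.tr m h (fun u => (wld k hN P σ u).isSome) u = !(st P σ u)
  | 0, u, hu => by
      simp only [Hier.tr, wld, show u.length = k by omega, if_true]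
      cases st P σ u <;> simp
  | h + 1, u, hu => by
      rw [Hier.tr]
      have h1 : ∀ y, Hier.tr m h (fun u => (wld k hN P σ u).isSome) (y :: u) =
          !(st P σ (y :: u)) := fun y => tr_wld hN m P σ hP h (y :: u) (by simp; omega)
      simp only [h1, st]
      have h2 := hP u (by omega)
      rw [show k - 1 - u.length = h by omega] at h2
      cases h3 : st P σ u
      · simp only [Bool.not_false, Bool.true_and, Bool.not_eq_false', decide_eq_true_eq]
        exact ⟨_, h2, rfl⟩
      · simp

/-- changing the position of a node whose state is true does not matter -/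
theorem st_update_true {P : List ℕ → ℕ} {σ : Bool} {b : List ℕ} (hb : st P σ b = true) (a : ℕ) :
    ∀ u, st (Function.update P b a) σ u = st P σ u
  | [] => rfl
  | c :: u => by
      have h := st_update_true hb a u
      simp only [st, h]
      by_cases hu : u = b
      · subst hu; simp [hb]
      · rw [Function.update_of_ne hu]

theorem wld_update_true {k N : ℕ} {hN : 1 ≤ N} {P : List ℕ → ℕ} {σ : Bool} {b : List ℕ}
    (hb : st P σ b = true) (hk : b.length < k) (a : ℕ) :
    wld k hN (Function.update P b a) σ = wld k hN P σ := by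
  funext u
  unfold wld
  rw [st_update_true hb]
  by_cases hu : u.length = k
  · rw [Function.update_of_ne (by rintro rfl; omega)]
  · simp [hu]

/-- positions pointing to `b` -/
def ov (P : List ℕ → ℕ) : List ℕ → (List ℕ → ℕ)
  | [] => P
  | a :: b => Function.update (ov P b) b a

theorem ov_congr {P P' : List ℕ → ℕ} (v : List ℕ) (h : P v = P' v) :
    ∀ b, ov P b v = ov P' b v
  | [] => h
  | a :: b => by
      simp only [ov]
      by_cases hv : v = b
      · subst hv; simp
      · rw [Function.update_of_ne hv, Function.update_of_ne hv]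
        exact ov_congr v h b

/-- the value of `ov` at a node that is as long as `b` -/
theorem ov_long (P : List ℕ → ℕ) (v : List ℕ) : ∀ b, b.length ≤ v.length → ov P b v = P v
  | [], _ => rfl
  | a :: b, h => by
      simp only [List.length_cons] at h
      simp only [ov]
      rw [Function.update_of_ne (by rintro rfl; omega)]
      exact ov_long P v b (by omega)

theorem ov_path (P : List ℕ → ℕ) (d : ℕ) (u : List ℕ) : ∀ b, (d :: u) <:+ b → ov P b u = d
  | [], h => by simp at h
  | a :: b, h => by
      simp only [ov]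
      rcases List.suffix_cons_iff.1 h with h | h
      · rw [List.cons.injEq] at h
        obtain ⟨rfl, rfl⟩ := h
        simp
      · have hl := h.length_le
        simp only [List.length_cons] at hl
        rw [Function.update_of_ne (by rintro rfl; omega)]
        exact ov_path P d u b h

theorem ov_update (P : List ℕ → ℕ) (v : List ℕ) (c : ℕ) : ∀ b, b.length ≤ v.length →
    ov (Function.update P v c) b = Function.update (ov P b) v c
  | [], _ => rfl
  | a :: b, h => by
      simp only [List.length_cons] at h
      simp only [ov]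
      rw [ov_update P v c b (by omega), Function.update_comm (by rintro rfl; omega)]

/-- the parity -/
def par : ℕ → Bool
  | 0 => true
  | n + 1 => !(par n)

theorem st_ov (P : List ℕ → ℕ) (σ : Bool) : ∀ (b : List ℕ),
    st (ov P b) σ b = (σ == par b.length)
  | [] => by simp [st, ov, par]
  | a :: b => by
      have h := st_ov P σ b
      have h2 : st (ov P (a :: b)) σ b = st (ov P b) σ b := by
        apply st_congr
        intro v _ hv
        simp only [ov]
        rw [Function.update_of_ne (by rintro rfl; omega)]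
      simp only [st, h2, h, List.length_cons, par]
      simp only [ov, Function.update_self, decide_true, Bool.and_true]
      cases σ <;> cases par b.length <;> rfl

theorem st_ov_par (P : List ℕ → ℕ) (b : List ℕ) : st (ov P b) (par b.length) b = true := by
  rw [st_ov]; simp

/-- the world in which `b` has state true -/
def W (k : ℕ) {N : ℕ} (hN : 1 ≤ N) (P : List ℕ → ℕ) (b : List ℕ) : List ℕ → Option (Fin N) :=
  wld k hN (ov P b) (par b.length)

theorem W_cons_cons {k N : ℕ} {hN : 1 ≤ N} (P : List ℕ → ℕ) (a c : ℕ) (b : List ℕ)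
    (hb : b.length < k) : W k hN P (c :: a :: b) = W k hN (Function.update P (a :: b) c) b := by
  unfold W
  have h1 : par (c :: a :: b).length = par b.length := by simp [par]
  rw [h1, ov_update P (a :: b) c b (by simp)]
  simp only [ov]
  rw [Function.update_comm (by intro h; have := congrArg List.length h; simp at this)]
  apply wld_update_true _ hb
  rw [← st_ov_par P b]
  apply st_congr
  intro v hv hl
  rw [Function.update_of_ne (by rintro rfl; simp at hl)]

/-- states after flipping the state of `b` -/
theorem st_flip {P : List ℕ → ℕ} {σ : Bool} {b : List ℕ} (a : ℕ)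
    (hb : st P σ b = true) (hp : ∀ d u, (d :: u) <:+ b → P u = d) : ∀ u : List ℕ,
    u.length ≤ b.length + 1 →
    (u <:+ b → st (Function.update P b a) (!σ) u = !(st P σ u)) ∧
    (u = a :: b → st (Function.update P b a) (!σ) u = true) ∧
    (¬ u <:+ b → u ≠ a :: b → st (Function.update P b a) (!σ) u = st P σ u)
  | [], _ => ⟨fun _ => rfl, fun h => absurd h (by simp), fun h => absurd List.nil_suffix h⟩
  | c :: u, hu => by
      simp only [List.length_cons] at hu
      obtain ⟨h1, h2, h3⟩ := st_flip a hb hp u (by omega)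
      by_cases hs : u <:+ b
      · have h4 := h1 hs
        by_cases hub : u = b
        · subst hub
          rw [hb] at h4
          have h5 : ¬ (c :: u) <:+ u := by
            intro h; have := h.length_le; simp at this
          refine ⟨fun h => absurd h h5, ?_, ?_⟩
          · intro h
            rw [List.cons.injEq] at h
            simp only [st, h4, Function.update_self, h.1]
            simp
          · intro _ h
            simp only [st, h4, Function.update_self, hb]
            have : ¬ a = c := by rintro rfl; exact h rfl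
            simp [this]
        · obtain ⟨l, hl⟩ := hs
          have hl0 : l ≠ [] := by rintro rfl; exact hub (by simpa using hl)
          obtain ⟨l', d, rfl⟩ : ∃ l' d, l = l' ++ [d] :=
            ⟨l.dropLast, l.getLast hl0, (List.dropLast_append_getLast hl0).symm⟩
          have h5 : (d :: u) <:+ b := ⟨l', by simpa using hl⟩
          have h6 := hp d u h5
          have h7 : u.length < b.length := by
            have := h5.length_le
            simp only [List.length_cons] at this; omega
          have h8 : Function.update P b a u = d := by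
            rw [Function.update_of_ne hub, h6]
          refine ⟨?_, ?_, ?_⟩
          · intro h
            have h9 : c = d := by
              have := hp c u h
              rw [← this, h6]
            subst h9
            simp only [st, h4, h8, h6]
            simp
          · intro h
            rw [List.cons.injEq] at h
            exact absurd h.2 hub
          · intro h _
            have h9 : ¬ d = c := by rintro rfl; exact h h5
            simp only [st, h4, h8, h6]
            simp [h9]
      · have h5 : ¬ (c :: u) <:+ b := fun h => hs ((List.suffix_cons c u).trans h)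
        have h6 : u ≠ b := by rintro rfl; exact hs List.suffix_rfl
        have h7 : u ≠ a :: b := by
          rintro rfl
          simp only [List.length_cons] at hu; omega
        have h8 := h3 hs h7
        refine ⟨fun h => absurd h h5, ?_, ?_⟩
        · intro h
          rw [List.cons.injEq] at h
          exact absurd h.2 h6
        · intro _ _
          simp only [st, h8]
          rw [Function.update_of_ne h6]

theorem W_cons {k N : ℕ} {hN : 1 ≤ N} (P : List ℕ → ℕ) (a : ℕ) (b : List ℕ)
    (hb : b.length + 1 = k) : W k hN P (a :: b) = Function.update (W k hN P b) (a :: b) none := by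
  funext u
  have hp : ∀ d u, (d :: u) <:+ b → ov P b u = d := fun d u h => ov_path P d u b h
  have key := st_flip a (st_ov_par P b) hp u
  unfold W
  rw [show par (a :: b).length = !(par b.length) from rfl]
  simp only [ov]
  by_cases hu : u = a :: b
  · subst hu
    rw [Function.update_self]
    unfold wld
    rw [if_pos (by simpa using hb), if_pos ((key (by simp)).2.1 rfl)]
  · rw [Function.update_of_ne hu]
    unfold wld
    by_cases hl : u.length = k
    · rw [if_pos hl, if_pos hl, (key (by omega)).2.2 _ hu, Function.update_of_ne]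
      · rintro rfl; omega
      · intro h; have := h.length_le; omega
    · rw [if_neg hl, if_neg hl]

theorem W_update {k N : ℕ} {hN : 1 ≤ N} (P : List ℕ → ℕ) (a : ℕ) (b : List ℕ)
    (hb : b.length + 1 = k) (c : Fin N) : W k hN (Function.update P (a :: b) c) b =
      Function.update (W k hN P b) (a :: b) (some c) := by
  funext u
  unfold W
  rw [ov_update P (a :: b) c b (by simp)]
  by_cases hu : u = a :: b
  · subst hu
    rw [Function.update_self]
    unfold wld
    have h1 : st (Function.update (ov P b) (a :: b) ↑c) (par b.length) (a :: b) = false := by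
      have h2 : st (Function.update (ov P b) (a :: b) ↑c) (par b.length) b = true := by
        rw [← st_ov_par P b]
        apply st_congr
        intro v hv hl
        rw [Function.update_of_ne (by rintro rfl; simp at hl)]
      simp only [st, h2]
      simp
    rw [if_pos (by simpa using hb), h1]
    simp [md, Nat.mod_eq_of_lt c.2]
  · rw [Function.update_of_ne hu]
    unfold wld
    by_cases hl : u.length = k
    · rw [if_pos hl, if_pos hl, Function.update_of_ne hu]
      rw [st_congr (P' := ov P b)]
      intro v _ hv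
      rw [Function.update_of_ne]
      rintro rfl
      simp only [List.length_cons] at hv; omega
    · rw [if_neg hl, if_neg hl]

theorem W_congr {k N : ℕ} {hN : 1 ≤ N} {P P' : List ℕ → ℕ} {b u : List ℕ}
    (h : ∀ v, v <:+ u → P v = P' v) : W k hN P b u = W k hN P' b u := by
  unfold W
  apply wld_congr
  intro v hv
  exact ov_congr v (h v hv) b

/-! ### Averaging -/

/-- averaging over one block -/
theorem avg {β : Type} [Fintype β] [DecidableEq β] {X : β → Type} [∀ b, Fintype (X b)]
    (B : β) (Bad : Set ((b : β) → X b)) [DecidablePred (fun ω => ω ∈ Bad)] (E : ℕ)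
    (h : ∀ ω : (b : β) → X b, (Finset.univ.filter
      (fun ξ : X B => Function.update ω B ξ ∈ Bad)).card * E ≤ Fintype.card (X B)) :
    (Finset.univ.filter (fun ω : (b : β) → X b => ω ∈ Bad)).card * E ≤
      Fintype.card ((b : β) → X b) := by
  rcases Nat.eq_zero_or_pos (Fintype.card (X B)) with h0 | hpos
  · have : IsEmpty (X B) := Fintype.card_eq_zero_iff.1 h0
    have h1 : IsEmpty ((b : β) → X b) := ⟨fun ω => this.false (ω B)⟩
    have h2 : (Finset.univ.filter (fun ω : (b : β) → X b => ω ∈ Bad)) = ∅ := by
      ext ω; exact (h1.false ω).elim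
    rw [h2]; simp
  · let e : ((b : β) → X b) × X B ≃ ((b : β) → X b) × X B :=
      { toFun := fun p => (Function.update p.1 B p.2, p.1 B)
        invFun := fun p => (Function.update p.1 B p.2, p.1 B)
        left_inv := by rintro ⟨ω, ξ⟩; simp
        right_inv := by rintro ⟨ω, ξ⟩; simp }
    have h1 : ∑ p : ((b : β) → X b) × X B, (if Function.update p.1 B p.2 ∈ Bad then 1 else 0) =
        ∑ p : ((b : β) → X b) × X B, (if p.1 ∈ Bad then 1 else 0) :=
      Equiv.sum_comp e (fun p => if p.1 ∈ Bad then 1 else 0)
    rw [Fintype.sum_prod_type, Fintype.sum_prod_type] at h1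
    have h2 : ∀ ω : (b : β) → X b, ∑ ξ : X B, (if Function.update ω B ξ ∈ Bad then 1 else 0) =
        (Finset.univ.filter (fun ξ : X B => Function.update ω B ξ ∈ Bad)).card := by
      intro ω; rw [Finset.card_filter]
    have h3 : ∑ ω : (b : β) → X b, ∑ ξ : X B, (if ω ∈ Bad then 1 else 0) =
        (Finset.univ.filter (fun ω : (b : β) → X b => ω ∈ Bad)).card * Fintype.card (X B) := by
      rw [Finset.card_filter, Finset.sum_mul]
      apply Finset.sum_congr rfl
      intro ω _
      rw [Finset.sum_const, Finset.card_univ, smul_eq_mul, mul_comm]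
    simp only [h2] at h1
    rw [h3] at h1
    have h4 : (Finset.univ.filter (fun ω : (b : β) → X b => ω ∈ Bad)).card * E *
        Fintype.card (X B) ≤ Fintype.card ((b : β) → X b) * Fintype.card (X B) := by
      calc _ = (∑ ω : (b : β) → X b, (Finset.univ.filter
            (fun ξ : X B => Function.update ω B ξ ∈ Bad)).card) * E := by rw [h1]; ring
        _ = ∑ ω : (b : β) → X b, (Finset.univ.filter
            (fun ξ : X B => Function.update ω B ξ ∈ Bad)).card * E := by rw [Finset.sum_mul]
        _ ≤ ∑ ω : (b : β) → X b, Fintype.card (X B) := Finset.sum_le_sum (fun ω _ => h ω)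
        _ = _ := by rw [Finset.sum_const, Finset.card_univ, smul_eq_mul]
    exact Nat.le_of_mul_le_mul_right h4 hpos

/-- number of values of a position of length `n` -/
def Mv (k N : ℕ) (m : ℕ → ℕ) (n : ℕ) : ℕ := if n < k then m (k - 1 - n) else N

/-- the blocks -/
def Bs (k : ℕ) (m : ℕ → ℕ) : Finset (List ℕ) := (Finset.range k).biUnion (fun n => nm m (k - n) n)

theorem mem_Bs {k : ℕ} {m : ℕ → ℕ} {b : List ℕ} :
    b ∈ Bs k m ↔ b.length < k ∧ VP m (k - b.length) b := by
  simp only [Bs, Finset.mem_biUnion, Finset.mem_range, mem_nm]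
  constructor
  · rintro ⟨n, h1, h2, h3⟩
    subst h2
    exact ⟨h1, h3⟩
  · rintro ⟨h1, h2⟩
    exact ⟨_, h1, rfl, h2⟩

theorem card_Bs {k a : ℕ} {m : ℕ → ℕ} (ha : ∀ h < k, m h ≤ 2 ^ a) :
    (Bs k m).card < 2 ^ (a * k + k) := by
  have h1 : (Bs k m).card ≤ ∑ n ∈ Finset.range k, (2 ^ a) ^ k := by
    refine Finset.card_biUnion_le.trans (Finset.sum_le_sum fun n hn => ?_)
    have hn := Finset.mem_range.1 hn
    rw [card_nm]
    calc ∏ j ∈ Finset.range n, m (k - n + j) ≤ ∏ _j ∈ Finset.range n, 2 ^ a := by
          apply Finset.prod_le_prod'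
          intro j hj
          have := Finset.mem_range.1 hj
          exact ha _ (by omega)
      _ = (2 ^ a) ^ n := by simp
      _ ≤ (2 ^ a) ^ k := Nat.pow_le_pow_right (by positivity) hn.le
  rw [Finset.sum_const, Finset.card_range, smul_eq_mul, ← pow_mul] at h1
  have h2 : k < 2 ^ k := Nat.lt_two_pow_self
  have h3 : 0 < 2 ^ (a * k) := by positivity
  calc (Bs k m).card ≤ k * 2 ^ (a * k) := h1
    _ < 2 ^ k * 2 ^ (a * k) := Nat.mul_lt_mul_of_pos_right h2 h3
    _ = 2 ^ (a * k + k) := by rw [pow_add, mul_comm]

section pos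

variable {k N : ℕ} {m : ℕ → ℕ}

/-- the choices in one block -/
abbrev X (k N : ℕ) (m : ℕ → ℕ) (b : {b // b ∈ Bs k m}) : Type :=
  Fin (m (k - 1 - b.1.length)) → Fin (Mv k N m (b.1.length + 1))

/-- positions given by the blocks -/
def posof (ω : (b : {b // b ∈ Bs k m}) → X k N m b) : List ℕ → ℕ
  | [] => 0
  | a :: b => if h : b ∈ Bs k m ∧ a < m (k - 1 - b.length) then (ω ⟨b, h.1⟩ ⟨a, h.2⟩ : ℕ) else 0

theorem posof_lt (ω : (b : {b // b ∈ Bs k m}) → X k N m b) (h0 : ∀ n ≤ k, 0 < Mv k N m n) :
    ∀ u : List ℕ, u.length ≤ k → posof ω u < Mv k N m u.length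
  | [], h => h0 _ h
  | a :: b, h => by
      rw [posof]
      split_ifs with h1
      · exact (ω ⟨b, h1.1⟩ ⟨a, h1.2⟩).2
      · exact h0 _ h

theorem posof_at (ω : (b : {b // b ∈ Bs k m}) → X k N m b) (b : {b // b ∈ Bs k m})
    (a : Fin (m (k - 1 - b.1.length))) : posof ω ((a : ℕ) :: b.1) = ω b a := by
  rw [posof, dif_pos ⟨b.2, a.2⟩]

theorem posof_off (ω ω' : (b : {b // b ∈ Bs k m}) → X k N m b) (b : {b // b ∈ Bs k m})
    (h : ∀ b' ≠ b, ω b' = ω' b') (v : List ℕ)
    (hv : ∀ a : Fin (m (k - 1 - b.1.length)), v ≠ (a : ℕ) :: b.1) : posof ω v = posof ω' v := by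
  rcases v with _ | ⟨a, v⟩
  · rfl
  · rw [posof, posof]
    split_ifs with h1
    · rw [h]
      rintro rfl
      exact hv ⟨a, h1.2⟩ rfl
    · rfl

theorem posof_update [DecidableEq {b // b ∈ Bs k m}]
    (b : {b // b ∈ Bs k m}) [DecidableEq (Fin (m (k - 1 - b.1.length)))] (ω : (b : {b // b ∈ Bs k m}) → X k N m b)
    (a : Fin (m (k - 1 - b.1.length)))
    (c : Fin (Mv k N m (b.1.length + 1))) :
    posof (Function.update ω b (Function.update (ω b) a c)) =
      Function.update (posof ω) ((a : ℕ) :: b.1) (c : ℕ) := by
  funext v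
  by_cases hv : ∃ a' : Fin (m (k - 1 - b.1.length)), v = (a' : ℕ) :: b.1
  · obtain ⟨a', rfl⟩ := hv
    rw [posof_at]
    by_cases ha : a' = a
    · subst ha; simp
    · rw [Function.update_self, Function.update_of_ne ha, Function.update_of_ne, posof_at]
      intro h
      rw [List.cons.injEq] at h
      exact ha (Fin.ext h.1)
  · push Not at hv
    rw [Function.update_of_ne (hv a)]
    exact posof_off _ _ b (fun b' hb' => Function.update_of_ne hb' _ _) v hv

end pos

open Classical in
set_option maxHeartbeats 400000 in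
/-- existence of good positions -/
theorem exists_pos {V : Type} (k N w t t0 s a : ℕ) (m : ℕ → ℕ) (hN : 1 ≤ N)
    (C : (List ℕ → Option (Fin N)) → V → Bool) (S : Set V)
    (hC : ∀ u ∈ S, ∃ T : MT (List ℕ) (Option (Fin N)) Bool, T.dle t0 ∧ ∀ x, C x u = T.eval x)
    (F : ℕ → (Fin k → Fin (2 ^ w)) → (V → Bool) → Bool)
    (hF1 : ∀ n (hn : n < k), ∀ θ x, F n θ x = true ↔
        ∃ p, F (n + 1) (Function.update θ ⟨n, hn⟩ p) x = false)
    (hF2 : ∀ θ, ∃ T : DT V Bool, T.depth ≤ t ∧ T.QIn S ∧ ∀ x, F k θ x = T.eval x)
    (hF3 : ∀ n θ θ', (∀ j : Fin k, (j : ℕ) < n → θ j = θ' j) → F n θ = F n θ')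
    (hst : t * t0 ≤ s) (ha : ∀ h < k, m h ≤ 2 ^ a) (hs : w * k + a * k + 4 * k + 4 ≤ s)
    (hm : ∀ h < k, 0 < m h) :
    ∃ P : List ℕ → ℕ, (∀ u, u.length ≤ k → P u < Mv k N m u.length) ∧
      ∀ b : List ℕ, b.length < k → VP m (k - b.length) b → ∀ θ : Fin k → Fin (2 ^ w),
        ((Finset.range (m (k - 1 - b.length))).filter (fun x => ∃ c < Mv k N m (b.length + 1),
          F b.length θ (C (W k hN (Function.update P (x :: b) c) b)) ≠
            F b.length θ (C (W k hN P b)))).card ≤
        (s + 1) * (s + 2) * (4 * s * (Mv k N m (b.length + 1)) ^ 2 + 1) ^ (k - b.length) := by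
  have hMv : ∀ n ≤ k, 0 < Mv k N m n := by
    intro n hn
    unfold Mv
    split_ifs with h
    · exact hm _ (by omega)
    · exact hN
  let T0 : List ℕ → ℕ := fun b =>
    (s + 1) * (s + 2) * (4 * s * (Mv k N m (b.length + 1)) ^ 2 + 1) ^ (k - b.length)
  let fn : ((b : {b // b ∈ Bs k m}) → X k N m b) → (b : {b // b ∈ Bs k m}) →
      (Fin k → Fin (2 ^ w)) → X k N m b → Bool := fun ω b θ ξ =>
    F b.1.length θ (C (W k hN (posof (Function.update ω b ξ)) b.1))
  let Bad : (b : {b // b ∈ Bs k m}) → Set ((b : {b // b ∈ Bs k m}) → X k N m b) := fun b =>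
    {ω | ∃ θ, T0 b.1 < (sens (fn ω b θ) (ω b)).card}
  have hBad : ∀ b, (Finset.univ.filter (fun ω => ω ∈ Bad b)).card * 2 ^ (a * k + k) ≤
      Fintype.card ((b : {b // b ∈ Bs k m}) → X k N m b) := by
    intro b
    refine avg b (Bad b) _ (fun ω => ?_)
    obtain ⟨hb1, hb2⟩ := mem_Bs.1 b.2
    have hne : Nonempty (Fin (m (k - 1 - b.1.length))) := ⟨⟨0, hm _ (by omega)⟩⟩
    have key := block (ι := Fin (m (k - 1 - b.1.length))) (Θ := Fin k → Fin (2 ^ w))
      (N := Mv k N m (b.1.length + 1)) (k - b.1.length) (w * k) (a * k + k) s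
      (fun i θ ξ => F (k - i) θ (C (W k hN (posof (Function.update ω b ξ)) b.1)))
      (fun i θ => {θ' | ∀ j : Fin k, (j : ℕ) < k - (i + 1) → θ' j = θ j})
      (by
        intro θ
        obtain ⟨T, h1, h2, h3⟩ := hF2 θ
        obtain ⟨T1, h4, h5⟩ := MT.exists_ofDT C S t0 hC T t h1 h2
        obtain ⟨T2, h6, h7⟩ := MT.exists_comap
          (fun ξ : X k N m b => W k hN (posof (Function.update ω b ξ)) b.1) (by
            intro u
            by_cases hu : ∃ a : Fin (m (k - 1 - b.1.length)), (a : ℕ) :: b.1 <:+ u
            · obtain ⟨a, ha⟩ := hu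
              refine ⟨a, fun x y hxy => ?_⟩
              apply W_congr
              intro v hv
              by_cases hv2 : ∃ a' : Fin (m (k - 1 - b.1.length)), v = (a' : ℕ) :: b.1
              · obtain ⟨a', rfl⟩ := hv2
                have h8 : (a' : ℕ) :: b.1 = (a : ℕ) :: b.1 :=
                  (List.suffix_of_suffix_length_le hv ha (by simp)).eq_of_length (by simp)
                rw [List.cons.injEq] at h8
                have h9 : a' = a := Fin.ext h8.1
                subst h9
                rw [posof_at, posof_at]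
                simp [hxy]
              · push Not at hv2
                exact posof_off _ _ b (fun b' hb' => by
                  rw [Function.update_of_ne hb', Function.update_of_ne hb']) v hv2
            · push Not at hu
              refine ⟨Classical.arbitrary _, fun x y _ => ?_⟩
              apply W_congr
              intro v hv
              apply posof_off _ _ b (fun b' hb' => by
                  rw [Function.update_of_ne hb', Function.update_of_ne hb']) v
              rintro a rfl
              exact hu a hv) h4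
        refine ⟨T2, MT.dle_mono h6 hst, fun x => ?_⟩
        rw [h7, h5, Nat.sub_zero, h3])
      (by
        intro i hi θ x
        have hi2 : k - (i + 1) < k := by omega
        have e : k - i = k - (i + 1) + 1 := by omega
        simp only [e]
        rw [hF1 (k - (i + 1)) hi2]
        constructor
        · rintro ⟨p, hp⟩
          refine ⟨_, ?_, hp⟩
          intro j hj
          rw [Function.update_of_ne]
          rintro rfl
          simp at hj
        · rintro ⟨θ', h1, h2⟩
          refine ⟨θ' ⟨k - (i + 1), hi2⟩, ?_⟩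
          have e2 : F (k - (i + 1) + 1) (Function.update θ ⟨k - (i + 1), hi2⟩
              (θ' ⟨k - (i + 1), hi2⟩)) = F (k - (i + 1) + 1) θ' := by
            apply hF3
            intro j hj
            by_cases hj2 : j = ⟨k - (i + 1), hi2⟩
            · subst hj2; simp
            · rw [Function.update_of_ne hj2, h1 j]
              have : (j : ℕ) ≠ k - (i + 1) := fun h => hj2 (Fin.ext h)
              omega
          rw [e2]
          exact h2)
      (by omega) (hMv _ (by omega)) (by simp [← pow_mul]) (by omega)
    simp only [Nat.sub_sub_self hb1.le] at key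
    have hcc : ∀ (i1 i2 : Fintype (X k N m b)), @Fintype.card _ i1 = @Fintype.card _ i2 := by
      intro i1 i2
      rw [Subsingleton.elim i1 i2]
    refine le_trans (le_of_eq ?_) (key.trans (le_of_eq (hcc _ _)))
    congr 2
    ext ξ
    simp only [Finset.mem_filter, Finset.mem_univ, true_and, Bad, fn, Set.mem_ofPred_eq,
      Function.update_idem, Function.update_self, T0]
  -- union bound
  obtain ⟨ω, hω⟩ : ∃ ω : (b : {b // b ∈ Bs k m}) → X k N m b, ∀ b, ω ∉ Bad b := by
    by_contra hcon
    push Not at hcon
    have h1 : (Finset.univ : Finset ((b : {b // b ∈ Bs k m}) → X k N m b)) ⊆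
        Finset.univ.biUnion (fun b => Finset.univ.filter (fun ω => ω ∈ Bad b)) := by
      intro ω _
      obtain ⟨b, hb⟩ := hcon ω
      simp only [Finset.mem_biUnion, Finset.mem_univ, true_and, Finset.mem_filter]
      exact ⟨b, hb⟩
    have h2 := (Finset.card_le_card h1).trans Finset.card_biUnion_le
    rw [Finset.card_univ] at h2
    have h3 : Fintype.card ((b : {b // b ∈ Bs k m}) → X k N m b) * 2 ^ (a * k + k) ≤
        (Bs k m).card * Fintype.card ((b : {b // b ∈ Bs k m}) → X k N m b) := by
      calc _ ≤ (∑ b : {b // b ∈ Bs k m}, (Finset.univ.filter (fun ω => ω ∈ Bad b)).card) *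
            2 ^ (a * k + k) := Nat.mul_le_mul_right _ h2
        _ = ∑ b : {b // b ∈ Bs k m}, (Finset.univ.filter (fun ω => ω ∈ Bad b)).card *
            2 ^ (a * k + k) := Finset.sum_mul _ _ _
        _ ≤ ∑ _b : {b // b ∈ Bs k m}, Fintype.card ((b : {b // b ∈ Bs k m}) → X k N m b) :=
            Finset.sum_le_sum (fun b _ => hBad b)
        _ = _ := by rw [Finset.sum_const, Finset.card_univ, smul_eq_mul, Fintype.card_coe]
    have h4 : 0 < Fintype.card ((b : {b // b ∈ Bs k m}) → X k N m b) := by
      rw [Fintype.card_pos_iff]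
      exact ⟨fun b _ => ⟨0, hMv _ (by have := (mem_Bs.1 b.2).1; omega)⟩⟩
    rw [mul_comm] at h3
    have h5 := Nat.le_of_mul_le_mul_right h3 h4
    have h6 := card_Bs (k := k) (a := a) (m := m) ha
    omega
  refine ⟨posof ω, posof_lt ω hMv, ?_⟩
  intro b hb1 hb2 θ
  have hb : b ∈ Bs k m := mem_Bs.2 ⟨hb1, hb2⟩
  have h1 : ¬ T0 b < (sens (fn ω ⟨b, hb⟩ θ) (ω ⟨b, hb⟩)).card := fun h => hω ⟨b, hb⟩ ⟨θ, h⟩
  push Not at h1
  refine le_trans ?_ h1
  refine le_trans (Finset.card_le_card (t := Finset.image Fin.val
    (sens (fn ω ⟨b, hb⟩ θ) (ω ⟨b, hb⟩))) ?_) Finset.card_image_le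
  intro x hx
  obtain ⟨hx1, c, hc, hx2⟩ := Finset.mem_filter.1 hx
  have hx1 := Finset.mem_range.1 hx1
  rw [Finset.mem_image]
  refine ⟨⟨x, hx1⟩, ?_, rfl⟩
  unfold sens
  simp only [Finset.mem_filter, Finset.mem_univ, true_and]
  refine ⟨⟨c, hc⟩, ?_⟩
  simp only [fn, Function.update_eq_self]
  have e := posof_update ⟨b, hb⟩ ω ⟨x, hx1⟩ ⟨c, hc⟩
  intro hcon
  apply hx2
  rw [← hcon]
  congr 4
  rw [← e]
  congr
  all_goals exact Subsingleton.elim _ _

/-- descend along a path of the tree -/
theorem descend {V : Type} (k N w s : ℕ) (m : ℕ → ℕ) (hk : 1 ≤ k) (hN : 1 ≤ N)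
    (C : (List ℕ → Option (Fin N)) → V → Bool)
    (F : ℕ → (Fin k → Fin (2 ^ w)) → (V → Bool) → Bool)
    (hF1 : ∀ n (hn : n < k), ∀ θ x, F n θ x = true ↔
        ∃ p, F (n + 1) (Function.update θ ⟨n, hn⟩ p) x = false)
    (hF0 : ∀ θ x, F 0 θ (C x) = Hier.tr m k (fun u => (x u).isSome) [])
    (hm : ∀ h, h + 1 < k → (s + 1) * (s + 2) * (4 * s * (m h) ^ 2 + 1) ^ (h + 2) < m (h + 1))
    (P : List ℕ → ℕ) (hP : ∀ u, u.length ≤ k → P u < Mv k N m u.length)
    (hg : ∀ b : List ℕ, b.length < k → VP m (k - b.length) b → ∀ θ : Fin k → Fin (2 ^ w),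
        ((Finset.range (m (k - 1 - b.length))).filter (fun x => ∃ c < Mv k N m (b.length + 1),
          F b.length θ (C (W k hN (Function.update P (x :: b) c) b)) ≠
            F b.length θ (C (W k hN P b)))).card ≤
        (s + 1) * (s + 2) * (4 * s * (Mv k N m (b.length + 1)) ^ 2 + 1) ^ (k - b.length)) :
    ∀ n < k, ∃ (b : List ℕ) (θ : Fin k → Fin (2 ^ w)), b.length = n ∧ VP m (k - n) b ∧
      F n θ (C (W k hN P b)) = false ∧ ∀ c < Mv k N m n, F n θ (C (W k hN P (c :: b))) = true := by
  intro n
  induction n with
  | zero =>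
      intro _
      have hP' : ∀ u : List ℕ, u.length < k → P u < m (k - 1 - u.length) := by
        intro u hu
        have := hP u hu.le
        rwa [Mv, if_pos hu] at this
      refine ⟨[], fun _ => ⟨0, by positivity⟩, rfl, trivial, ?_, ?_⟩
      · rw [hF0]
        unfold W
        rw [tr_wld hN m _ _ (by simpa [ov] using hP') k [] (by simp)]
        simp [st, par]
      · intro c hc
        rw [hF0]
        unfold W
        rw [tr_wld hN m _ _ ?_ k [] (by simp)]
        · simp [st, par]
        · intro u hu
          simp only [ov]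
          by_cases h : u = []
          · subst h
            rw [Function.update_self]
            rwa [Mv, if_pos (by omega)] at hc
          · rw [Function.update_of_ne h]
            exact hP' u hu
  | succ n ih =>
      intro hn
      obtain ⟨b, θ, hb1, hb2, hb3, hb4⟩ := ih (by omega)
      subst hb1
      have h1 := hg b (by omega) hb2 θ
      have h2 := hm (k - 1 - (b.length + 1)) (by omega)
      have h3 : Mv k N m (b.length + 1) = m (k - 1 - (b.length + 1)) := by
        rw [Mv, if_pos hn]
      have h4 : k - 1 - (b.length + 1) + 1 = k - 1 - b.length := by omega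
      have h5 : k - 1 - (b.length + 1) + 2 = k - b.length := by omega
      rw [h4, h5] at h2
      rw [h3] at h1
      have h6 := h1.trans_lt h2
      obtain ⟨x, hx1, hx2⟩ : ∃ x < m (k - 1 - b.length), ∀ c < Mv k N m (b.length + 1),
          F b.length θ (C (W k hN (Function.update P (x :: b) c) b)) =
            F b.length θ (C (W k hN P b)) := by
        by_contra hcon
        push Not at hcon
        have h7 : (Finset.range (m (k - 1 - b.length))).filter
            (fun x => ∃ c < m (k - 1 - (b.length + 1)),
          F b.length θ (C (W k hN (Function.update P (x :: b) c) b)) ≠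
            F b.length θ (C (W k hN P b))) = Finset.range (m (k - 1 - b.length)) := by
          apply Finset.filter_true_of_mem
          intro x hx
          rw [← h3]
          exact hcon x (Finset.mem_range.1 hx)
        rw [h7, Finset.card_range] at h6
        exact lt_irrefl _ h6
      have h7 : F b.length θ (C (W k hN P (x :: b))) = true := by
        apply hb4
        rwa [Mv, if_pos (by omega)]
      rw [hF1 b.length (by omega)] at h7
      obtain ⟨p, hp⟩ := h7
      refine ⟨x :: b, Function.update θ ⟨b.length, by omega⟩ p, rfl, ?_, hp, ?_⟩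
      · refine ⟨?_, ?_⟩
        · rwa [show k - (b.length + 1) = k - 1 - b.length by omega]
        · rwa [show k - (b.length + 1) + 1 = k - b.length by omega]
      · intro c hc
        by_contra h8
        have h9 : F (b.length + 1) (Function.update θ ⟨b.length, by omega⟩ p)
            (C (W k hN P (c :: x :: b))) = false := by simpa using h8
        have h10 : F b.length θ (C (W k hN P (c :: x :: b))) = true :=
          (hF1 b.length (by omega) θ _).2 ⟨p, h9⟩
        rw [W_cons_cons _ _ _ _ (by omega), hx2 c hc, hb3] at h10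
        simp at h10

end Pool.Agent.Lib.Pa76659H.Ext

namespace Pool.Agent.Lib.Pa76659H
open Pool.Agent.Lib.Pa76659

/-- MODULE Extract -/
theorem extract {V : Type} (k N w t t0 s a : ℕ) (m : ℕ → ℕ) (hk : 1 ≤ k) (hN : 1 ≤ N)
    (C : (List ℕ → Option (Fin N)) → V → Bool) (S : Set V)
    (hC : ∀ u ∈ S, ∃ T : MT (List ℕ) (Option (Fin N)) Bool, T.dle t0 ∧ ∀ x, C x u = T.eval x)
    (Nh : (V → Bool) → Bool) (hNh : IsC S w t k Nh)
    (heq : ∀ x, Nh (C x) = Hier.tr m k (fun u => (x u).isSome) [])
    (hst : t * t0 ≤ s) (ha : ∀ h < k, m h ≤ 2 ^ a) (hs : w * k + a * k + 4 * k + 4 ≤ s)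
    (hm0 : 2 * ((s + 1) * (s + 2) * (4 * s * N ^ 2 + 1)) ≤ m 0)
    (hm : ∀ h, h + 1 < k → (s + 1) * (s + 2) * (4 * s * (m h) ^ 2 + 1) ^ (h + 2) < m (h + 1)) :
    ∃ (b : List ℕ) (x0 : List ℕ → Option (Fin N)) (Good : Finset ℕ), b.length + 1 = k ∧
      VP m 1 b ∧ Good ⊆ Finset.range (m 0) ∧ m 0 ≤ 2 * Good.card ∧
      ∀ c ∈ Good, ∃ L : DT V Bool, L.depth ≤ t ∧ L.QIn S ∧
        L.eval (C (Function.update x0 (c :: b) none)) = false ∧
        ∀ y, L.eval (C (Function.update x0 (c :: b) (some y))) = true := by
  classical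
  obtain ⟨F, a1, a2, a3, a4⟩ := Ext.unroll' S w t k Nh hNh
  have hmpos : ∀ h < k, 0 < m h := by
    intro h hh
    rcases h with _ | h
    · have : 0 < (s + 1) * (s + 2) * (4 * s * N ^ 2 + 1) := by positivity
      omega
    · exact lt_of_le_of_lt (Nat.zero_le _) (hm h hh)
  obtain ⟨P, hP, hg⟩ := Ext.exists_pos k N w t t0 s a m hN C S hC F a2 a3 a4 hst ha hs hmpos
  obtain ⟨b, θ, hb1, hb2, hb3, hb4⟩ := Ext.descend k N w s m hk hN C F a2
    (fun θ x => by rw [a1]; exact heq x) hm P hP hg (k - 1) (by omega)
  have hbk : b.length + 1 = k := by omega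
  have hMk : Ext.Mv k N m (b.length + 1) = N := by
    rw [Ext.Mv, if_neg (by omega)]
  have hMk1 : Ext.Mv k N m (k - 1) = m 0 := by
    rw [Ext.Mv, if_pos (by omega)]
    congr 1; omega
  have h1 := hg b (by omega) (by rw [hb1]; exact hb2) θ
  rw [hMk, show k - 1 - b.length = 0 by omega, show k - b.length = 1 by omega, pow_one] at h1
  rw [hMk1] at hb4
  refine ⟨b, Ext.W k hN P b, (Finset.range (m 0)).filter (fun x => ¬ ∃ c < N,
      F b.length θ (C (Ext.W k hN (Function.update P (x :: b) c) b)) ≠
        F b.length θ (C (Ext.W k hN P b))), hbk, ?_, Finset.filter_subset _ _, ?_, ?_⟩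
  · rwa [show k - (k - 1) = 1 by omega] at hb2
  · have h2 := Finset.card_filter_add_card_filter_not (s := Finset.range (m 0)) (fun x => ∃ c < N,
      F b.length θ (C (Ext.W k hN (Function.update P (x :: b) c) b)) ≠
        F b.length θ (C (Ext.W k hN P b)))
    rw [Finset.card_range] at h2
    omega
  · intro c hc
    obtain ⟨hc1, hc2⟩ := Finset.mem_filter.1 hc
    have hc1 := Finset.mem_range.1 hc1
    push Not at hc2
    have h3 := hb4 c hc1
    rw [a2 (k - 1) (by omega)] at h3
    obtain ⟨p, hp⟩ := h3
    have e : k - 1 + 1 = k := by omega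
    rw [e] at hp
    obtain ⟨L, hL1, hL2, hL3⟩ := a3 (Function.update θ ⟨k - 1, by omega⟩ p)
    refine ⟨L, hL1, hL2, ?_, ?_⟩
    · rw [← Ext.W_cons P c b hbk, ← hL3]
      exact hp
    · intro y
      rw [← Ext.W_update P c b hbk, ← hL3]
      by_contra h4
      have h5 : F k (Function.update θ ⟨k - 1, by omega⟩ p)
          (C (Ext.W k hN (Function.update P (c :: b) y) b)) = false := by simpa using h4
      have h6 : F (k - 1) θ (C (Ext.W k hN (Function.update P (c :: b) y) b)) = true :=
        (a2 (k - 1) (by omega) θ _).2 ⟨p, by rw [e]; exact h5⟩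
      have h7 := hc2 y y.2
      rw [hb1] at h7
      rw [h7, hb3] at h6
      simp at h6

end Pool.Agent.Lib.Pa76659H
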