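import Pool.Agent.Lib.Pa76659H.Base

/-! Averaging and a greedy independent set (MP_a76659_lc). -/

set_option linter.unusedVariables false

namespace Pool.Agent.Lib.Pa76659H
open Pool.Agent.Lib.Pa76659

namespace Sel

/-- A digraph of out-degree at most `K` with at least `(2 K + 1) M` vertices has an independent set
of size `M`. -/
theorem greedy {A : Type} [DecidableEq A] (R : A → Finset A) (K : ℕ) :
    ∀ (M : ℕ) (U : Finset A), (∀ a ∈ U, (R a).card ≤ K) → (2 * K + 1) * M ≤ U.card →
      ∃ S : Finset A, S ⊆ U ∧ M ≤ S.card ∧ ∀ a ∈ S, ∀ a' ∈ S, a' ≠ a → a' ∉ R a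
  | 0, U, _, _ => ⟨∅, by simp, by simp, by simp⟩
  | M + 1, U, hR, hU => by
      have hne : U.Nonempty := by
        rw [← Finset.card_pos]
        nlinarith
      obtain ⟨a0, ha0, hdeg⟩ : ∃ a0 ∈ U, (U.filter (fun a => a0 ∈ R a)).card ≤ K := by
        by_contra hcon
        push Not at hcon
        have h1 : K * U.card < ∑ a0 ∈ U, (U.filter (fun a => a0 ∈ R a)).card := by
          rw [mul_comm, ← smul_eq_mul, ← Finset.sum_const]
          exact Finset.sum_lt_sum_of_nonempty hne hcon
        have h2 : ∑ a0 ∈ U, (U.filter (fun a => a0 ∈ R a)).card =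
            ∑ a ∈ U, (U.filter (fun a0 => a0 ∈ R a)).card := by
          simp_rw [Finset.card_filter]
          exact Finset.sum_comm
        have h3 : ∑ a ∈ U, (U.filter (fun a0 => a0 ∈ R a)).card ≤ K * U.card := by
          rw [mul_comm, ← smul_eq_mul, ← Finset.sum_const]
          apply Finset.sum_le_sum
          intro a ha
          refine le_trans (Finset.card_le_card ?_) (hR a ha)
          intro b hb
          exact (Finset.mem_filter.mp hb).2
        omega
      let U' := U \ (insert a0 (R a0 ∪ U.filter (fun a => a0 ∈ R a)))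
      have hcard : (insert a0 (R a0 ∪ U.filter (fun a => a0 ∈ R a))).card ≤ 2 * K + 1 := by
        refine (Finset.card_insert_le _ _).trans ?_
        have := Finset.card_union_le (R a0) (U.filter (fun a => a0 ∈ R a))
        have := hR a0 ha0
        omega
      have hU' : (2 * K + 1) * M ≤ U'.card := by
        have h1 := Finset.le_card_sdiff (insert a0 (R a0 ∪ U.filter (fun a => a0 ∈ R a))) U
        have h2 : (2 * K + 1) * (M + 1) = (2 * K + 1) * M + (2 * K + 1) := by ring
        simp only [U']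
        omega
      have hsub : U' ⊆ U := Finset.sdiff_subset
      obtain ⟨S, hS1, hS2, hS3⟩ := greedy R K M U' (fun a ha => hR a (hsub ha)) hU'
      have hnot : a0 ∉ S := by
        intro h
        have := hS1 h
        simp [U'] at this
      refine ⟨insert a0 S, ?_, ?_, ?_⟩
      · exact Finset.insert_subset ha0 (hS1.trans hsub)
      · rw [Finset.card_insert_of_notMem hnot]
        omega
      · intro a ha a' ha' hne'
        rw [Finset.mem_insert] at ha ha'
        rcases ha with rfl | ha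
        · rcases ha' with rfl | ha'
          · exact absurd rfl hne'
          · intro hcon
            have := hS1 ha'
            simp only [U', Finset.mem_sdiff, Finset.mem_insert, Finset.mem_union] at this
            exact this.2 (Or.inr (Or.inl hcon))
        · rcases ha' with rfl | ha'
          · intro hcon
            have := hS1 ha
            simp only [U', Finset.mem_sdiff, Finset.mem_insert, Finset.mem_union,
              Finset.mem_filter] at this
            exact this.2 (Or.inr (Or.inr ⟨this.1, hcon⟩))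
          · exact hS3 a ha a' ha' hne'

end Sel

/-- MODULE Select -/
theorem select {A Q Γ : Type} [DecidableEq A] [DecidableEq Q] [Nonempty Q] (Good : Finset A)
    (cert : A → Finset (A ⊕ Q)) (K : ℕ) (hK : ∀ a ∈ Good, (cert a).card ≤ K)
    (Γ0 : Finset Γ) (grp : Γ → Finset Q)
    (hdis : ∀ γ ∈ Γ0, ∀ γ' ∈ Γ0, γ ≠ γ' → Disjoint (grp γ) (grp γ'))
    (hG : ∀ γ ∈ Γ0, 2 * K + 1 ≤ (grp γ).card) (M : ℕ) (hM : 2 * (2 * K + 1) * M ≤ Good.card) :
    ∃ (ch : Γ → Q) (S' : Finset A), S' ⊆ Good ∧ M ≤ S'.card ∧ (∀ γ ∈ Γ0, ch γ ∈ grp γ) ∧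
      (∀ a ∈ S', ∀ γ ∈ Γ0, Sum.inr (ch γ) ∉ cert a) ∧
      (∀ a ∈ S', ∀ a' ∈ S', a' ≠ a → Sum.inl a' ∉ cert a) := by
  classical
  let deg : Q → ℕ := fun q => (Good.filter (fun a => Sum.inr q ∈ cert a)).card
  -- the choice function
  have hch : ∀ γ : Γ, ∃ q : Q, γ ∈ Γ0 → q ∈ grp γ ∧ ∀ q' ∈ grp γ, deg q ≤ deg q' := by
    intro γ
    by_cases hγ : γ ∈ Γ0
    · have hne : (grp γ).Nonempty := by
        rw [← Finset.card_pos]
        have := hG γ hγ
        omega
      obtain ⟨q, hq, hq'⟩ := Finset.exists_min_image (grp γ) deg hne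
      exact ⟨q, fun _ => ⟨hq, hq'⟩⟩
    · exact ⟨Classical.arbitrary Q, fun h => absurd h hγ⟩
  choose ch hch using hch
  have h1 : ∀ γ ∈ Γ0, (2 * K + 1) * deg (ch γ) ≤ ∑ q ∈ grp γ, deg q := by
    intro γ hγ
    calc (2 * K + 1) * deg (ch γ) ≤ (grp γ).card * deg (ch γ) :=
          Nat.mul_le_mul_right _ (hG γ hγ)
      _ = ∑ q ∈ grp γ, deg (ch γ) := by rw [Finset.sum_const, smul_eq_mul]
      _ ≤ ∑ q ∈ grp γ, deg q := Finset.sum_le_sum fun q hq => (hch γ hγ).2 q hq
  have h2 : ∑ γ ∈ Γ0, ∑ q ∈ grp γ, deg q = ∑ q ∈ Γ0.biUnion grp, deg q := by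
    rw [Finset.sum_biUnion]
    intro γ hγ γ' hγ' hne
    exact hdis γ hγ γ' hγ' hne
  have h3 : ∑ q ∈ Γ0.biUnion grp, deg q ≤ K * Good.card := by
    simp only [deg]
    simp_rw [Finset.card_filter]
    rw [Finset.sum_comm, mul_comm, ← smul_eq_mul, ← Finset.sum_const]
    apply Finset.sum_le_sum
    intro a ha
    rw [← Finset.card_filter]
    refine le_trans (Finset.card_le_card (t := (cert a).toRight) ?_)
      ((Finset.card_toRight_le).trans (hK a ha))
    intro q hq
    rw [Finset.mem_toRight]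
    exact (Finset.mem_filter.mp hq).2
  have h4 : (2 * K + 1) * ∑ γ ∈ Γ0, deg (ch γ) ≤ K * Good.card := by
    rw [Finset.mul_sum]
    exact (Finset.sum_le_sum h1).trans (h2.le.trans h3)
  let hit := Good.filter (fun a => ∃ γ ∈ Γ0, Sum.inr (ch γ) ∈ cert a)
  have h5 : hit.card ≤ ∑ γ ∈ Γ0, deg (ch γ) := by
    refine le_trans (Finset.card_le_card (t := Γ0.biUnion
      (fun γ => Good.filter (fun a => Sum.inr (ch γ) ∈ cert a))) ?_) Finset.card_biUnion_le
    intro a ha
    obtain ⟨ha1, γ, hγ, ha2⟩ := Finset.mem_filter.mp ha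
    rw [Finset.mem_biUnion]
    exact ⟨γ, hγ, Finset.mem_filter.mpr ⟨ha1, ha2⟩⟩
  let U := Good.filter (fun a => ¬ ∃ γ ∈ Γ0, Sum.inr (ch γ) ∈ cert a)
  have h6 : hit.card + U.card = Good.card := Finset.card_filter_add_card_filter_not _
  have h7 : (2 * K + 1) * M ≤ U.card := by
    have h8 : (2 * K + 1) * hit.card ≤ K * Good.card := (Nat.mul_le_mul_left _ h5).trans h4
    -- 2 * hit ≤ Good
    have h9 : 2 * hit.card ≤ Good.card := by
      by_contra hcon
      push Not at hcon
      nlinarith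
    have h10 : 2 * (2 * K + 1) * M = 2 * ((2 * K + 1) * M) := by ring
    omega
  obtain ⟨S, hS1, hS2, hS3⟩ := Sel.greedy (fun a => (cert a).toLeft) K M U (by
    intro a ha
    exact (Finset.card_toLeft_le).trans (hK a (Finset.mem_filter.mp ha).1)) h7
  refine ⟨ch, S, hS1.trans (Finset.filter_subset _ _), hS2, fun γ hγ => (hch γ hγ).1, ?_, ?_⟩
  · intro a ha γ hγ hcon
    exact (Finset.mem_filter.mp (hS1 ha)).2 ⟨γ, hγ, hcon⟩
  · intro a ha a' ha' hne hcon
    exact hS3 a ha a' ha' hne (Finset.mem_toLeft.mpr hcon)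

end Pool.Agent.Lib.Pa76659H
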