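import Pool.Agent.Lib.Pa76659H.Step
import Pool.Agent.Lib.Pa76659H.Extract
import Pool.Agent.Lib.Pa76659H.Select

/-!
Processing one column: reading all the variables of the remaining families by its high set.
-/

set_option maxHeartbeats 4000000
set_option linter.unusedSectionVars false

namespace Pool.Agent.Lib.Pa76659H

open Pool.Agent.Lib.Pa76659 Pool.Agent.Lib.Pa76659.Hier

/-- run several decision trees and collect the answers -/
def readN {V : Type} (L : ℕ → DT V Bool) : ℕ → (ℕ → Bool) → DT V (ℕ → Bool)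
  | 0, acc => DT.leaf acc
  | n + 1, acc => (L n).bind (fun b => readN L n (Function.update acc n b))

theorem readN_eval {V : Type} (L : ℕ → DT V Bool) (c : V → Bool) : ∀ (n : ℕ) (acc : ℕ → Bool),
    (readN L n acc).eval c = fun β => if β < n then (L β).eval c else acc β
  | 0, acc => by simp [readN, DT.eval]
  | n + 1, acc => by
      rw [readN, DT.eval_bind, readN_eval L c n]
      funext β
      by_cases h1 : β < n
      · simp [h1, show β < n + 1 by omega]
      · by_cases h2 : β = n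
        · subst h2; simp
        · simp [h1, h2, show ¬ β < n + 1 by omega]

theorem readN_depth {V : Type} (L : ℕ → DT V Bool) (e : ℕ) : ∀ (n : ℕ) (acc : ℕ → Bool),
    (∀ β < n, (L β).depth ≤ e) → (readN L n acc).depth ≤ n * e
  | 0, acc, _ => by simp [readN, DT.depth]
  | n + 1, acc, h => by
      have h1 := DT.depth_bind (fun b => readN L n (Function.update acc n b)) (n * e)
        (fun b => readN_depth L e n _ (fun β hβ => h β (by omega))) (L n)
      have h2 := h n (by omega)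
      rw [readN]
      calc _ ≤ _ := h1
        _ ≤ e + n * e := by omega
        _ = (n + 1) * e := by ring

theorem readN_qin {V : Type} (L : ℕ → DT V Bool) (S : Set V) : ∀ (n : ℕ) (acc : ℕ → Bool),
    (∀ β < n, (L β).QIn S) → (readN L n acc).QIn S
  | 0, acc, _ => trivial
  | n + 1, acc, h => DT.QIn.bind (fun b => readN_qin L S n _ (fun β hβ => h β (by omega)))
      (h n (by omega))

open Classical in
/-- decoding a value from its bits; the bit `ν` tells whether there is a value -/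
noncomputable def decBits (N ν : ℕ) (f : ℕ → Bool) : Option (Fin N) :=
  if f ν = true then
    if h : ∃ y : Fin N, ∀ β < ν, y.1.testBit β = f β then some h.choose else none
  else none

/-- `tie` with the extra index `ν` -/
def tie' {N : ℕ} (ν β : ℕ) (o : Option (Fin N)) : Option (Fin N) := if β < ν then tie β o else o

theorem decBits_eq {N ν : ℕ} (hN : N = 2 ^ ν) (o : Option (Fin N)) (f : ℕ → Bool)
    (hf : ∀ β ≤ ν, f β = (tie' ν β o).isSome) : decBits N ν f = o := by
  have h1 : f ν = o.isSome := by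
    rw [hf ν le_rfl]; simp [tie']
  unfold decBits
  cases o with
  | none => simp [h1]
  | some y =>
      rw [if_pos (by rw [h1]; rfl)]
      have h2 : ∀ β < ν, f β = y.1.testBit β := by
        intro β hβ
        rw [hf β hβ.le]
        simp only [tie', if_pos hβ, tie]
        split_ifs with h3
        · simp [h3]
        · simp only [Option.isSome_none]
          simpa using h3
      have hex : ∃ y' : Fin N, ∀ β < ν, y'.1.testBit β = f β := ⟨y, fun β hβ => (h2 β hβ).symm⟩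
      rw [dif_pos hex]
      congr 1
      apply Fin.ext
      apply Nat.eq_of_testBit_eq
      intro β
      by_cases hβ : β < ν
      · rw [hex.choose_spec β hβ, h2 β hβ]
      · have hlt : ∀ z : Fin N, z.1.testBit β = false := by
          intro z
          apply Nat.testBit_lt_two_pow
          calc z.1 < N := z.2
            _ = 2 ^ ν := hN
            _ ≤ 2 ^ β := Nat.pow_le_pow_right (by norm_num) (by omega)
        rw [hlt, hlt]

theorem rs_length {i n : ℕ} (h : i + 2 ≤ n) : (rs i n).length = n := by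
  unfold rs
  simp only [List.length_cons, List.length_append, List.length_replicate]
  omega

/-- embedding of one family in the worlds -/
def emb {N : ℕ} (hN : 1 ≤ N) (i0 : ℕ) (y : List ℕ → Option (Fin N)) : Var → Option (Fin N) :=
  fun v => if v.1 = i0 then y v.2 else some ⟨0, hN⟩

theorem emb_update {N : ℕ} (hN : 1 ≤ N) (i0 : ℕ) (y : List ℕ → Option (Fin N)) (u : List ℕ)
    (o : Option (Fin N)) : emb hN i0 (Function.update y u o) =
      Function.update (emb hN i0 y) (i0, u) o := by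
  funext v
  obtain ⟨i, w⟩ := v
  unfold emb
  by_cases hi : i = i0
  · subst hi
    by_cases hw : w = u
    · subst hw; simp
    · simp [hw]
  · simp [hi]

section

variable {Γ : Ctx} (hΓ : Γ.OK) {i0 lv : ℕ} {m : ℕ → ℕ → ℕ}
  {τ : ℕ → Str → Option (DT Str Bool)} {YY : Γ.W → Lang} {R : ℕ → Var → DT Str (Option (Fin Γ.N))}

include hΓ

/-- the literals of the column are shallow, after a restriction -/
theorem Inv.shallow (h : Inv Γ i0 lv m τ YY R) (hi : i0 < Γ.J) (hl : (Γ.col i0).m ≤ lv)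
    (Rr c G : ℕ) (hR : 4 * Γ.V lv * (Γ.N + 1) * Γ.N + 1 ≤ Rr) (hVN : Γ.V lv < Γ.N)
    (hG : (Rr + 1) * c ≤ G) (hG0 : 1 ≤ G)
    (hc : 4 * (names (Finset.Icc i0 Γ.J) Γ.k (thinM G m)).card ≤ 2 ^ c) :
    ∃ (ρ : Γ.W → Γ.W) (R' : ℕ → Var → DT Str (Option (Fin Γ.N))),
      Inv Γ i0 lv (thinM G m) τ (fun z => YY (ρ z)) R' ∧
      ∀ u ∈ Γ.Q i0, ∃ T : MT Var (Option (Fin Γ.N)) Bool,
        T.dle (Γ.n ^ (Γ.col i0).bM + 2) ∧
        ∀ x, Γ.C τ (fun z => YY (ρ z)) i0 x u = T.eval x := by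
  have hgd := hΓ.gd hi
  have hlevV : Γ.n ^ (2 ^ (Γ.col i0).m) ≤ Γ.V lv := by
    unfold Ctx.V
    apply Nat.pow_le_pow_right
    · have := hΓ.hn3; show 0 < Γ.q.N; omega
    · exact Nat.pow_le_pow_right (by norm_num) hl
  have hlev1 : (Γ.n ^ (Γ.col i0).bM + 2) ^ (Γ.col i0).bA < Γ.V lv :=
    lt_of_lt_of_le (hgd.lev hΓ.hn3).1 hlevV
  have hlev2 : Γ.n ^ (Γ.col i0).bM < Γ.V lv := lt_of_lt_of_le (hgd.lev1 hΓ.hn3) hlevV
  obtain ⟨ρ, R', h1, h2⟩ := h.thinning hΓ (Θ := SLt (Γ.n ^ (Γ.col i0).bM + 1))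
    (fun θ x => nEval (Γ.col i0).a (Γ.F τ YY x) θ.2.1) Rr (Γ.V lv) (Γ.n ^ (Γ.col i0).bM + 2)
    (Γ.n ^ (Γ.col i0).bM + 1) c G (by omega) (by
      intro θ x hx
      have h3 : (θ.2.1.length + 2) ^ (Γ.col i0).bA ≤
          (Γ.n ^ (Γ.col i0).bM + 2) ^ (Γ.col i0).bA := by
        apply Nat.pow_le_pow_left
        have := θ.1.2
        have h4 : θ.2.1.length = θ.1 := θ.2.2
        omega
      exact cert_ne (Γ.P i0 m) (Γ.F τ YY) (Γ.V lv) (Γ.V lv) (fun v hv => h.bits hΓ v hv)
        (Γ.col i0).a hgd.hA θ.2.1 (by omega) (by omega) hVN x hx)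
      (card_SLt _) le_rfl hR hG hG0 hc
  refine ⟨ρ, R', h1, fun u hu => ?_⟩
  have hu : u.length ≤ Γ.n ^ (Γ.col i0).bM := hu
  rcases u with _ | ⟨b, v⟩
  · exact ⟨MT.leaf false, trivial, fun x => rfl⟩
  · simp only [List.length_cons] at hu
    cases b
    · obtain ⟨T, hT1, hT2⟩ := (h1.bits hΓ v (by omega)).mt
      exact ⟨T, MT.dle_mono hT1 (by omega), hT2⟩
    · obtain ⟨t, ht⟩ := exists_SLt (L := Γ.n ^ (Γ.col i0).bM + 1) v (by omega)
      obtain ⟨T, hT1, hT2⟩ := h2 t
      refine ⟨T, hT1, fun x => ?_⟩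
      rw [← hT2 x, ht]
      rfl

/-- the leaf trees of the column -/
theorem Inv.leaves (h : Inv Γ i0 lv m τ YY R) (hi : i0 < Γ.J) (hJust : Just Γ.q (Γ.col i0))
    (hN : 1 ≤ Γ.N) (hin : i0 + 2 ≤ Γ.n)
    (hC : ∀ u ∈ Γ.Q i0, ∃ T : MT Var (Option (Fin Γ.N)) Bool,
      T.dle (Γ.n ^ (Γ.col i0).bM + 2) ∧ ∀ x, Γ.C τ YY i0 x u = T.eval x)
    (s a : ℕ) (hst : Γ.n ^ (Γ.col i0).bM * (Γ.n ^ (Γ.col i0).bM + 2) ≤ s)
    (ha : ∀ h < Γ.k i0, m i0 h ≤ 2 ^ a)
    (hs : Γ.n ^ (Γ.col i0).bM * Γ.k i0 + a * Γ.k i0 + 4 * Γ.k i0 + 4 ≤ s)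
    (hm0 : 2 * ((s + 1) * (s + 2) * (4 * s * Γ.N ^ 2 + 1)) ≤ m i0 0)
    (hm : ∀ h, h + 1 < Γ.k i0 →
      (s + 1) * (s + 2) * (4 * s * (m i0 h) ^ 2 + 1) ^ (h + 2) < m i0 (h + 1)) :
    ∃ (b : List ℕ) (x0 : List ℕ → Option (Fin Γ.N)) (Good : Finset ℕ), b.length + 1 = Γ.k i0 ∧
      VP (m i0) 1 b ∧ Good ⊆ Finset.range (m i0 0) ∧ m i0 0 ≤ 2 * Good.card ∧
      ∀ a ∈ Good, ∃ L : DT Str Bool, L.depth ≤ Γ.n ^ (Γ.col i0).bM ∧ L.QIn (Γ.Q i0) ∧
        ∀ o, L.eval (Γ.C τ YY i0 (Function.update (emb hN i0 x0) (i0, a :: b) o)) = o.isSome := by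
  have hgd := hΓ.gd hi
  have hemb : ∀ v : Var, ∃ j : List ℕ, ∀ x y : List ℕ → Option (Fin Γ.N), x j = y j →
      emb hN i0 x v = emb hN i0 y v := by
    intro v
    refine ⟨v.2, fun x y hxy => ?_⟩
    unfold emb
    rw [hxy]
  obtain ⟨b, x0, Good, h1, h2, h3, h4, h5⟩ := extract (Γ.k i0) Γ.N (Γ.n ^ (Γ.col i0).bM)
    (Γ.n ^ (Γ.col i0).bM) (Γ.n ^ (Γ.col i0).bM + 2) s a (m i0) (hΓ.hk1 i0 (by omega)) hN
    (fun y => Γ.C τ YY i0 (emb hN i0 y)) (Γ.Q i0) (by
      intro u hu
      obtain ⟨T, hT1, hT2⟩ := hC u hu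
      obtain ⟨T', hT'1, hT'2⟩ := MT.exists_comap (emb hN i0) hemb hT1
      exact ⟨T', hT'1, fun x => by rw [hT'2, ← hT2]⟩)
    (fun O => sEval (Γ.col i0).p (Γ.col i0).l O (rs i0 Γ.n)) (by
      rw [hΓ.hk i0 hi]
      have := hgd.hM Γ.n (by omega) (rs i0 Γ.n) (by rw [rs_length hin])
      exact this) (by
      intro y
      have h6 := hJust (Γ.F τ YY (emb hN i0 y)) (h.mem hΓ _) (rs i0 Γ.n)
      have h7 := h.tree i0 (Finset.mem_Icc.2 ⟨le_rfl, hi.le⟩) (emb hN i0 y)
        (Γ.F τ YY (emb hN i0 y)) (fun v hv => F_false hΓ _ v hv)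
      rw [← hΓ.hk i0 hi] at h6
      refine (h6.trans h7).trans ?_
      have e : ∀ u, emb hN i0 y (i0, u) = y u := by intro u; simp [emb]
      simp only [e]) hst ha hs hm0 hm
  refine ⟨b, x0, Good, h1, h2, h3, h4, fun a ha => ?_⟩
  obtain ⟨L, a1, a2, a3, a4⟩ := h5 a ha
  refine ⟨L, a1, a2, fun o => ?_⟩
  cases o with
  | none =>
      rw [← emb_update]
      exact a3
  | some y =>
      rw [← emb_update]
      exact a4 y

open Classical in
/-- the change of variables after processing a column: the names `ψ γ β :: b` of family `i0` are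
tied to the new variable `γ`, the other names of family `i0` are as in `x0` -/
noncomputable def rho {N : ℕ} (ν i0 : ℕ) (I : Finset ℕ) (k : ℕ → ℕ) (m : ℕ → ℕ → ℕ) (G : ℕ)
    (ch : Var → ℕ) (c0 : Option (Fin N)) (b : List ℕ) (ψ : Var → ℕ → ℕ)
    (x0 : List ℕ → Option (Fin N)) (z : Var → Option (Fin N)) : Var → Option (Fin N) := fun v =>
  if v.1 = i0 then
    if h : ∃ t : Var × ℕ, Vld I k (thinM G m) t.1 ∧ t.2 ≤ ν ∧ v.2 = ψ t.1 t.2 :: b then
      tie' ν h.choose.2 (z h.choose.1)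
    else x0 v.2
  else patch I k m G ch (fun _ => c0) z v

theorem Inv.connect (h : Inv Γ i0 lv m τ YY R) (hi : i0 < Γ.J) (hl : (Γ.col i0).m ≤ lv)
    (hN : 1 ≤ Γ.N) (hNν : Γ.N = 2 ^ Γ.ν)
    (hC : ∀ u ∈ Γ.Q i0, ∃ T : MT Var (Option (Fin Γ.N)) Bool,
      T.dle (Γ.n ^ (Γ.col i0).bM + 2) ∧ ∀ x, Γ.C τ YY i0 x u = T.eval x)
    (b : List ℕ) (x0 : List ℕ → Option (Fin Γ.N)) (Good : Finset ℕ)
    (hb1 : b.length + 1 = Γ.k i0) (hb2 : VP (m i0) 1 b) (hGd : Good ⊆ Finset.range (m i0 0))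
    (hL : ∀ a ∈ Good, ∃ L : DT Str Bool, L.depth ≤ Γ.n ^ (Γ.col i0).bM ∧ L.QIn (Γ.Q i0) ∧
      ∀ o, L.eval (Γ.C τ YY i0 (Function.update (emb hN i0 x0) (i0, a :: b) o)) = o.isSome)
    (K G : ℕ) (hK : (Γ.N + 1) * (Γ.n ^ (Γ.col i0).bM * (Γ.n ^ (Γ.col i0).bM + 2)) ≤ K)
    (hG : 2 * K + 1 ≤ G)
    (hGood : 2 * (2 * K + 1) *
      ((names (Finset.Icc (i0 + 1) Γ.J) Γ.k (thinM G m)).card * (Γ.ν + 1)) ≤ Good.card) :
    ∃ (ρ : Γ.W → Γ.W) (R' : ℕ → Var → DT Str (Option (Fin Γ.N))),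
      Inv Γ (i0 + 1) lv (thinM G m) τ (fun z => YY (ρ z)) R' := by
  classical
  set I' := Finset.Icc (i0 + 1) Γ.J with hI'
  set Γ0 := names I' Γ.k (thinM G m) with hΓ0
  set t := Γ.n ^ (Γ.col i0).bM with ht
  set z0 : Γ.W := emb hN i0 x0 with hz0
  -- trees
  have hL' : ∀ a, ∃ L : DT Str Bool, a ∈ Good → L.depth ≤ t ∧ L.QIn (Γ.Q i0) ∧
      ∀ o, L.eval (Γ.C τ YY i0 (Function.update z0 (i0, a :: b) o)) = o.isSome := by
    intro a
    by_cases ha : a ∈ Good
    · obtain ⟨L, hL⟩ := hL a ha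
      exact ⟨L, fun _ => hL⟩
    · exact ⟨DT.leaf true, fun h => absurd h ha⟩
  choose L hL using hL'
  have hU : ∀ a, ∃ U : MT Var (Option (Fin Γ.N)) Bool, a ∈ Good → U.dle (t * (t + 2)) ∧
      ∀ x, U.eval x = (L a).eval (Γ.C τ YY i0 x) := by
    intro a
    by_cases ha : a ∈ Good
    · obtain ⟨U, hU⟩ := MT.exists_ofDT (Γ.C τ YY i0) (Γ.Q i0) (t + 2) hC (L a) t (hL a ha).1
        (hL a ha).2.1
      exact ⟨U, fun _ => hU⟩
    · exact ⟨MT.leaf true, fun h => absurd h ha⟩
  choose U hU using hU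
  -- classification of variables
  let cls : Var → Option (ℕ ⊕ Var) := fun v =>
    if v.1 = i0 then
      match v.2 with
      | [] => none
      | a :: u => if u = b then some (Sum.inl a) else none
    else some (Sum.inr v)
  let cert : ℕ → Finset (ℕ ⊕ Var) := fun a =>
    (Finset.univ : Finset (Option (Fin Γ.N))).biUnion (fun o =>
      (((U a).path (Function.update z0 (i0, a :: b) o)).filterMap cls).toFinset)
  have hcert : ∀ a ∈ Good, (cert a).card ≤ K := by
    intro a ha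
    refine (Finset.card_biUnion_le.trans ?_).trans hK
    calc ∑ o : Option (Fin Γ.N),
          ((((U a).path (Function.update z0 (i0, a :: b) o)).filterMap cls).toFinset).card
        ≤ ∑ _o : Option (Fin Γ.N), t * (t + 2) := by
          apply Finset.sum_le_sum
          intro o _
          exact ((List.toFinset_card_le _).trans (List.length_filterMap_le _ _)).trans
            (MT.path_length _ (hU a ha).1)
      _ = _ := by
          rw [Finset.sum_const, Finset.card_univ, smul_eq_mul]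
          simp
  let grp : Var → Finset Var := fun γ => match γ with
    | (i, []) => ∅
    | (i, g :: u) => (Finset.range G).image (fun y => (i, (g * G + y) :: u))
  have hvne : ∀ γ, Vld I' Γ.k (thinM G m) γ → ∃ i g u, γ = (i, g :: u) := by
    rintro ⟨i, u⟩ hγ
    have hk1 := hΓ.hk1 i (Finset.mem_Icc.1 hγ.1).2
    rcases u with _ | ⟨g, u⟩
    · have := hγ.2.1
      simp only [List.length_nil] at this
      omega
    · exact ⟨i, g, u, rfl⟩
  have hG0 : 1 ≤ G := by omega
  obtain ⟨chV, S', hS1, hS2, hch, hS3, hS4⟩ := select Good cert K hcert Γ0 grp (by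
      intro γ hγ γ' hγ' hne
      obtain ⟨i, g, u, rfl⟩ := hvne γ (mem_names.1 hγ)
      obtain ⟨i', g', u', rfl⟩ := hvne γ' (mem_names.1 hγ')
      rw [Finset.disjoint_left]
      intro v hv hv'
      simp only [grp, Finset.mem_image, Finset.mem_range] at hv hv'
      obtain ⟨y, hy, rfl⟩ := hv
      obtain ⟨y', hy', he⟩ := hv'
      simp only [Prod.mk.injEq, List.cons.injEq] at he
      obtain ⟨e1, e2, e3⟩ := he
      apply hne
      have e4 : g = g' := by
        have h1 : (g' * G + y') / G = g' := by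
          rw [mul_comm, Nat.mul_add_div (by omega), Nat.div_eq_of_lt hy', add_zero]
        have h2 : (g * G + y) / G = g := by
          rw [mul_comm, Nat.mul_add_div (by omega), Nat.div_eq_of_lt hy, add_zero]
        rw [← h1, ← h2, e2]
      rw [e1, e3, e4]) (by
      intro γ hγ
      obtain ⟨i, g, u, rfl⟩ := hvne γ (mem_names.1 hγ)
      simp only [grp]
      rw [Finset.card_image_of_injective _ (by intro y y' h; simpa using h), Finset.card_range]
      exact hG) (Γ0.card * (Γ.ν + 1)) hGood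
  -- the chosen names
  let ch : Var → ℕ := fun γ => match (chV γ).2 with
    | [] => 0
    | a :: _ => a
  have hchV : ∀ i u g, Vld I' Γ.k (thinM G m) (i, g :: u) →
      chV (i, g :: u) = (i, ch (i, g :: u) :: u) ∧
      g * G ≤ ch (i, g :: u) ∧ ch (i, g :: u) < (g + 1) * G := by
    intro i u g hγ
    have h1 := hch _ (mem_names.2 hγ)
    simp only [grp, Finset.mem_image, Finset.mem_range] at h1
    obtain ⟨y, hy, he⟩ := h1
    have h2 : ch (i, g :: u) = g * G + y := by simp only [ch, ← he]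
    rw [h2]
    exact ⟨he.symm, by omega, by rw [show (g + 1) * G = g * G + G by ring]; omega⟩
  have hch2 : ∀ i u g, Vld I' Γ.k (thinM G m) (i, g :: u) →
      g * G ≤ ch (i, g :: u) ∧ ch (i, g :: u) < (g + 1) * G := fun i u g h => (hchV i u g h).2
  -- the assignment of the names of the family to the pairs
  have hψ : ∃ ψ : Var → ℕ → ℕ, (∀ γ ∈ Γ0, ∀ β ≤ Γ.ν, ψ γ β ∈ S') ∧
      ∀ γ ∈ Γ0, ∀ γ' ∈ Γ0, ∀ β ≤ Γ.ν, ∀ β' ≤ Γ.ν, ψ γ β = ψ γ' β' → γ = γ' ∧ β = β' := by
    have h1 : Fintype.card (↥Γ0 × Fin (Γ.ν + 1)) ≤ Fintype.card ↥S' := by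
      rw [Fintype.card_prod, Fintype.card_coe, Fintype.card_fin, Fintype.card_coe]
      exact hS2
    obtain ⟨e⟩ := Function.Embedding.nonempty_of_card_le h1
    refine ⟨fun γ β => if hh : γ ∈ Γ0 ∧ β ≤ Γ.ν then
      (e (⟨γ, hh.1⟩, ⟨β, by omega⟩) : ℕ) else 0, ?_, ?_⟩
    · intro γ hγ β hβ
      beta_reduce
      rw [dif_pos ⟨hγ, hβ⟩]
      exact (e _).2
    · intro γ hγ γ' hγ' β hβ β' hβ' he
      beta_reduce at he
      rw [dif_pos ⟨hγ, hβ⟩, dif_pos ⟨hγ', hβ'⟩] at he
      have := e.injective (Subtype.ext he)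
      simp only [Prod.mk.injEq, Subtype.mk.injEq, Fin.mk.injEq] at this
      exact this
  obtain ⟨ψ, hψ1, hψ2⟩ := hψ
  set ρ : Γ.W → Γ.W := rho Γ.ν i0 I' Γ.k m G ch (some ⟨0, hN⟩) b ψ x0 with hρ
  have hρψ : ∀ z, ∀ γ ∈ Γ0, ∀ β ≤ Γ.ν, ρ z (i0, ψ γ β :: b) = tie' Γ.ν β (z γ) := by
    intro z γ hγ β hβ
    have hh : ∃ t : Var × ℕ, Vld I' Γ.k (thinM G m) t.1 ∧ t.2 ≤ Γ.ν ∧
        (i0, ψ γ β :: b).2 = ψ t.1 t.2 :: b := ⟨(γ, β), mem_names.1 hγ, hβ, rfl⟩
    simp only [hρ, rho, if_true]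
    rw [dif_pos hh]
    obtain ⟨a1, a2, a3⟩ := hh.choose_spec
    obtain ⟨e1, e2⟩ := hψ2 γ hγ _ (mem_names.2 a1) β hβ _ a2 (List.cons.inj a3).1
    rw [← e1, ← e2]
  have hρother : ∀ z u, (∀ γ ∈ Γ0, ∀ β ≤ Γ.ν, u ≠ ψ γ β :: b) → ρ z (i0, u) = x0 u := by
    intro z u hu
    simp only [hρ, rho, if_true]
    rw [dif_neg]
    rintro ⟨t, a1, a2, a3⟩
    exact hu t.1 (mem_names.2 a1) t.2 a2 a3
  have hρpatch : ∀ z (v : Var), v.1 ≠ i0 → ρ z v =
      patch I' Γ.k m G ch (fun _ => some ⟨0, hN⟩) z v := by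
    intro z v hv
    simp only [hρ, rho]
    rw [if_neg hv]
  -- the leaf trees read the names
  have hread : ∀ z, ∀ γ ∈ Γ0, ∀ β ≤ Γ.ν,
      (L (ψ γ β)).eval (Γ.C τ YY i0 (ρ z)) = (tie' Γ.ν β (z γ)).isSome := by
    intro z γ hγ β hβ
    have ha := hψ1 γ hγ β hβ
    have haG := hS1 ha
    set a := ψ γ β with hadef
    set o := tie' Γ.ν β (z γ) with ho
    rw [← (hL a haG).2.2 o, ← (hU a haG).2, ← (hU a haG).2]
    apply MT.eval_path
    intro v hv
    have hcl : ∀ w, cls v = some w → w ∈ cert a := by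
      intro w hw
      simp only [cert, Finset.mem_biUnion]
      exact ⟨o, Finset.mem_univ _, List.mem_toFinset.2 (List.mem_filterMap.2 ⟨v, hv, hw⟩)⟩
    obtain ⟨i, u⟩ := v
    by_cases hii : i = i0
    · subst hii
      by_cases hu : ∃ a', u = a' :: b
      · obtain ⟨a', rfl⟩ := hu
        by_cases haa : a' = a
        · subst haa
          rw [Function.update_self, hadef, hρψ z γ hγ β hβ]
        · have h1 : Sum.inl a' ∈ cert a := hcl _ (by simp [cls])
          have h2 : a' ∉ S' := fun h2 => hS4 a ha a' h2 haa h1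
          rw [hρother z (a' :: b) (by
            intro γ' hγ' β' hβ' he
            simp only [List.cons.injEq, and_true] at he
            rw [he] at h2
            exact h2 (hψ1 γ' hγ' β' hβ'))]
          rw [Function.update_of_ne (by simp [haa])]
          simp [hz0, emb]
      · rw [hρother z u (by
          intro γ' _ β' _ he
          exact hu ⟨_, he⟩)]
        rw [Function.update_of_ne (by
          intro he
          simp only [Prod.mk.injEq, true_and] at he
          exact hu ⟨_, he⟩)]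
        simp [hz0, emb]
    · rw [hρpatch z (i, u) hii, Function.update_of_ne (by simp [hii])]
      have h1 : Sum.inr (i, u) ∈ cert a := hcl _ (by simp [cls, hii])
      have h2 : z0 (i, u) = some ⟨0, hN⟩ := by simp [hz0, emb, hii]
      rw [h2]
      rcases u with _ | ⟨a', u⟩
      · rfl
      · simp only [patch]
        rw [if_neg]
        rintro ⟨h3, h4⟩
        apply hS3 a ha _ (mem_names.2 h3)
        rw [(hchV _ _ _ h3).1, ← h4]
        exact h1
  refine ⟨ρ, fun i v => if i = i0 then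
      (readN (fun β => L (ψ v β)) (Γ.ν + 1) (fun _ => false)).map (decBits Γ.N Γ.ν)
    else R i (chV v), ?_⟩
  refine h.reparam hΓ (Nat.le_succ _) hi (fun i hiJ hlt => ?_) ρ ?_ ?_ ?_
  · by_cases hii : i = i0
    · rw [hii]; exact hl
    · exact (h.lvl i hiJ).1 (by omega)
  · rintro ⟨i, u⟩ hv
    by_cases hii : i = i0
    · subst hii
      by_cases hu : ∃ γ ∈ Γ0, ∃ β ≤ Γ.ν, u = ψ γ β :: b
      · obtain ⟨γ, hγ, β, hβ, rfl⟩ := hu
        right
        refine ⟨γ, mem_names.1 hγ, ?_⟩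
        by_cases hβν : β < Γ.ν
        · right
          refine ⟨β, fun z => ?_⟩
          rw [hρψ z γ hγ β hβ]
          simp [tie', hβν]
        · left
          intro z
          rw [hρψ z γ hγ β hβ]
          simp [tie', hβν]
      · left
        push Not at hu
        exact ⟨x0 u, fun z => hρother z u hu⟩
    · rcases u with _ | ⟨a', u⟩
      · left
        exact ⟨_, fun z => by rw [hρpatch z _ hii]; rfl⟩
      · by_cases hc : Vld I' Γ.k (thinM G m) (i, (a' / G) :: u) ∧ a' = ch (i, (a' / G) :: u)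
        · right
          refine ⟨(i, (a' / G) :: u), hc.1, Or.inl fun z => ?_⟩
          rw [hρpatch z _ hii]
          simp only [patch]
          rw [if_pos hc]
        · left
          refine ⟨some ⟨0, hN⟩, fun z => ?_⟩
          rw [hρpatch z _ hii]
          simp only [patch]
          rw [if_neg hc]
  · intro i hiI z
    have hii : i ≠ i0 := by
      have := (Finset.mem_Icc.1 hiI).1
      omega
    rw [← patch_tr hΓ (i0 := i0 + 1) hG0 (x0 := fun _ => some ⟨0, hN⟩) (fun _ => rfl) hch2 i hiI z]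
    congr 1
    funext u
    rw [hρpatch z (i, u) hii]
  · intro i hlt v hv
    have hvm := mem_names.2 hv
    by_cases hii : i = i0
    · subst hii
      simp only [if_true]
      refine ⟨fun z => ?_, ?_, ?_⟩
      · rw [DT.eval_map, readN_eval]
        apply decBits_eq hNν
        intro β hβ
        simp only [show β < Γ.ν + 1 by omega, if_true]
        exact hread z v hvm β hβ
      · apply DT.QIn.map
        apply readN_qin
        intro β hβ
        exact (hL _ (hS1 (hψ1 v hvm β (by omega)))).2.1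
      · rw [DT.depth_map]
        apply readN_depth
        intro β hβ
        exact (hL _ (hS1 (hψ1 v hvm β (by omega)))).1
    · simp only [if_neg hii]
      obtain ⟨j, g, u, rfl⟩ := hvne v hv
      have hj : j ≠ i0 := by
        have := (Finset.mem_Icc.1 hv.1).1
        simp only at this
        omega
      obtain ⟨e1, e2, e3⟩ := hchV j u g hv
      have hP : Γ.P i0 m (chV (j, g :: u)) := by
        rw [e1]
        obtain ⟨h1, h2, h3⟩ := Thin.vld_old hv e3
        refine ⟨?_, h2, h3⟩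
        have := Finset.mem_Icc.1 h1
        simp only at this
        rw [Finset.mem_Icc]
        exact ⟨by show i0 ≤ j; omega, this.2⟩
      obtain ⟨a1, a2, a3⟩ := h.read i (by omega) _ hP
      refine ⟨fun z => ?_, a2, a3⟩
      rw [a1, hρpatch z _ (by rw [e1]; exact hj), e1]
      exact (patch_sel _ z hG0 hch2 hv).2.1

end

end Pool.Agent.Lib.Pa76659H
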