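import Pool.Agent.Lib.Pa76659H.Cnd

/-!
Freezing, adding columns, and the limit.
-/

set_option maxHeartbeats 4000000

namespace Pool.Agent.Lib.Pa76659H

open Pool.Agent.Lib.Pa76659

theorem walk_congr {j B : ℕ} {X X' C C' : Lang} {x : Str} {M K : ℕ}
    (hX : ∀ v : Str, v.length ≤ M → X v = X' v) (hC : ∀ u : Str, u.length ≤ K → C u = C' u) :
    ∀ (n : ℕ) (w u : Str), (tab j B x w true true).length + 2 * n ≤ M → u.length + n ≤ K →
      walk j B X C x n w u = walk j B X' C' x n w u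
  | 0, w, u, _, _ => by simp [walk]
  | n + 1, w, u, h1, h2 => by
      have hl : ∀ t1 t2, (tab j B x w t1 t2).length ≤ M := by
        intro t1 t2
        rw [tab_length] at h1 ⊢
        omega
      have hl2 : ∀ b, (tab j B x (b :: w) true true).length + 2 * n ≤ M := by
        intro b
        rw [tab_length] at h1 ⊢
        simp only [List.length_cons]
        omega
      rw [walk, walk, hX _ (hl _ _), hX _ (hl _ _), hX _ (hl _ _), hC u (by omega),
        walk_congr hX hC n (C' u :: w) [] (hl2 _) (by simp; omega),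
        walk_congr hX hC n (false :: w) (X' (tab j B x w true false) :: u) (hl2 _)
          (by simp only [List.length_cons]; omega)]

theorem list_bound {α : Type} (l : List α) (P : α → ℕ → Prop)
    (h : ∀ c ∈ l, ∃ n0, ∀ n, n0 ≤ n → P c n) : ∃ n0, ∀ n, n0 ≤ n → ∀ c ∈ l, P c n := by
  induction l with
  | nil => exact ⟨0, by simp⟩
  | cons a l ih =>
      obtain ⟨n1, h1⟩ := ih (fun c hc => h c (by simp [hc]))
      obtain ⟨n2, h2⟩ := h a (by simp)
      refine ⟨max n1 n2, fun n hn c hc => ?_⟩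
      rcases List.mem_cons.1 hc with rfl | hc
      · exact h2 n (le_trans (le_max_right _ _) hn)
      · exact h1 n (le_trans (le_max_left _ _) hn) c hc

theorem tl_large (c : Col) (x : Str) : x.length < tl c x := by unfold tl; omega

def frz (q : Cnd) (X : Lang) (n : ℕ) : Cnd := ⟨n, X, q.cols⟩

theorem exists_frz {q : Cnd} (hq : WF q) {X : Lang} (hX : Mem q X) :
    ∃ n0, ∀ n, n0 ≤ n → q.N ≤ n ∧ WF (frz q X n) := by
  obtain ⟨hX1, hX2, n1, hX3⟩ := hX
  obtain ⟨n2, hn2⟩ := list_bound q.cols (fun c n => ∀ x, tl c x < n1 → ∀ X' : Lang,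
      (∀ v : Str, v.length < n → X' v = X v) → Wk c X' x) (by
    intro c hc
    set f1 := (n1 + 2) ^ (2 ^ (c.B + 5)) with hf1
    obtain ⟨m, hm⟩ := (loc_join (loc_nEval c.a)) f1
    obtain ⟨m', hm'⟩ := (loc_nEval c.i) n1
    refine ⟨max (max (m + 1) (m' + 1)) (n1 + 2 * f1 + 1), fun n hn x hx X' hX' => ?_⟩
    have e1 : m + 1 ≤ n := le_trans (le_trans (le_max_left _ _) (le_max_left _ _)) hn
    have e2 : m' + 1 ≤ n := le_trans (le_trans (le_max_right _ _) (le_max_left _ _)) hn
    have e3 : n1 + 2 * f1 + 1 ≤ n := le_trans (le_max_right _ _) hn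
    have hxl := tl_large c x
    have hfu : fuel c x ≤ f1 := Nat.pow_le_pow_left (by omega) _
    have h1 := hX2 c hc x
    have hC : ∀ u : Str, u.length ≤ f1 → join X' (hs c X') u = join X (hs c X) u :=
      fun u hu => hm X' X (fun v hv => hX' v (by omega)) u hu
    unfold Wk at h1 ⊢
    rw [walk_congr (X' := X) (C' := join X (hs c X)) (M := n1 + 2 * f1) (K := f1)
      (fun v hv => hX' v (by omega)) hC
      _ _ _ (by rw [tl_eq]; omega) (by simp; omega), h1]
    congr 1
    exact hm' X X' (fun v hv => (hX' v (by omega)).symm) x (by omega))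
  refine ⟨max (max n1 n2) q.N, fun n hn => ?_⟩
  have e1 : n1 ≤ n := le_trans (le_trans (le_max_left _ _) (le_max_left _ _)) hn
  have e2 : n2 ≤ n := le_trans (le_trans (le_max_right _ _) (le_max_left _ _)) hn
  have e3 : q.N ≤ n := le_trans (le_max_right _ _) hn
  refine ⟨e3, hq.gd, hq.uniq, fun c hc => lt_of_lt_of_le (hq.lt c hc) e3, hq.sorted, ?_⟩
  intro c hc x hx X' hX'
  have hX' : ∀ v : Str, v.length < n → X' v = X v := hX'
  have hx : tl c x < n := hx
  by_cases hx1 : tl c x < n1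
  · exact hn2 n e2 c hc x hx1 X' hX'
  · have hd := hX3 c hc x (by omega)
    obtain ⟨n', hn'⟩ : ∃ n', fuel c x = n' + 1 := ⟨fuel c x - 1, by
      have := fuel_pos c x; omega⟩
    unfold Wk
    rw [hn', walk, hX' _ (by rw [tl_eq]; exact hx), hX' _ (by rw [tl_eq]; exact hx), hd true,
      hd false]
    simp only [Bool.true_or, if_true, Bool.false_or, Option.some.injEq]
    exact (hq.gd c hc).congr x X X' (fun v hv => (hX' v (by omega)).symm)

theorem frz_mem {q : Cnd} {X : Lang} (hX : Agree q X) {n : ℕ} (hn : q.N ≤ n) {X' : Lang}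
    (h : Mem (frz q X n) X') : Mem q X' := by
  refine ⟨fun v hv => ?_, h.2.1, h.2.2⟩
  rw [h.1 v (lt_of_lt_of_le hv hn)]
  exact hX v hv

/-- the set of the column is high at level `l.length` on the whole condition -/
def Just (q : Cnd) (c : Col) : Prop := ∀ X, Mem q X → ∀ s,
  sEval c.p c.l (join X (hs c X)) s = QQ (c.l.length + 1) X s

def PP (q : Cnd) : Prop := WF q ∧ ∀ c ∈ q.cols, Just q c

theorem Just.frz {q : Cnd} {c : Col} (h : Just q c) {X : Lang} (hX : Agree q X) {n : ℕ}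
    (hn : q.N ≤ n) : Just (frz q X n) c := fun _ hX' => h _ (frz_mem hX hn hX')

theorem PP.frz {q : Cnd} (h : PP q) {X : Lang} (hX : Mem q X) {n : ℕ} (hn : q.N ≤ n)
    (hw : WF (frz q X n)) : PP (frz q X n) := ⟨hw, fun c hc => (h.2 c hc).frz hX.1 hn⟩

/-- add a column -/
def addc (q : Cnd) (c : Col) : Cnd := ⟨q.N, q.σ, q.cols ++ [c]⟩

theorem addc_PP {q : Cnd} (h : PP q) {c : Col} (hc : Gd c) (hj : c.j + 1 = q.N)
    (hjn : ∀ c' ∈ q.cols, c'.j < c.j)
    (hm : ∀ c' ∈ q.cols, c'.m ≤ c.m) (hJ : Just q c) : PP (addc q c) := by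
  have hmem : ∀ X, Mem (addc q c) X → Mem q X := by
    rintro X ⟨h1, h2, n, h3⟩
    exact ⟨h1, fun c' hc' => h2 c' (by simp [addc, hc']), n,
      fun c' hc' => h3 c' (by simp [addc, hc'])⟩
  refine ⟨⟨?_, ?_, ?_, ?_, ?_⟩, ?_⟩
  · intro c' hc'
    rcases List.mem_append.1 hc' with hc' | hc'
    · exact h.1.gd c' hc'
    · rw [List.mem_singleton.1 hc']; exact hc
  · intro c1 hc1 c2 hc2 he
    rcases List.mem_append.1 hc1 with hc1 | hc1 <;> rcases List.mem_append.1 hc2 with hc2 | hc2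
    · exact h.1.uniq c1 hc1 c2 hc2 he
    · rw [List.mem_singleton.1 hc2] at he
      have := hjn c1 hc1; omega
    · rw [List.mem_singleton.1 hc1] at he
      have := hjn c2 hc2; omega
    · rw [List.mem_singleton.1 hc1, List.mem_singleton.1 hc2]
  · intro c' hc'
    rcases List.mem_append.1 hc' with hc' | hc'
    · exact h.1.lt c' hc'
    · rw [List.mem_singleton.1 hc']; show c.j < q.N; omega
  · show (q.cols ++ [c]).Pairwise _
    rw [List.pairwise_append]
    refine ⟨h.1.sorted, List.pairwise_singleton _ _, ?_⟩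
    intro c1 hc1 c2 hc2
    rw [List.mem_singleton.1 hc2]
    exact ⟨hm c1 hc1, hjn c1 hc1⟩
  · intro c' hc' x hx X hX
    rcases List.mem_append.1 hc' with hc' | hc'
    · exact h.1.wk c' hc' x hx X hX
    · rw [List.mem_singleton.1 hc'] at hx
      have hx : tl c x < q.N := hx
      unfold tl at hx
      omega
  · intro c' hc'
    rcases List.mem_append.1 hc' with hc' | hc'
    · exact fun X hX => h.2 c' hc' X (hmem X hX)
    · rw [List.mem_singleton.1 hc']
      exact fun X hX => hJ X (hmem X hX)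

theorem exists_limit2 (S : ℕ → Cnd → Prop) (q0 : Cnd) (h0 : PP q0)
    (next : ∀ (n : ℕ) (q : Cnd), PP q → ∃ q', PP q' ∧ q.N < q'.N ∧
      (∀ X, Agree q' X → Agree q X) ∧ (∀ c ∈ q.cols, c ∈ q'.cols) ∧ S n q') :
    ∃ X, ∀ n, ∃ q, S n q ∧ PP q ∧ Agree q X ∧ ∀ c ∈ q.cols, ∀ x, Wk c X x := by
  classical
  let St := {q : Cnd // PP q}
  choose nx h1 h2 h3 h4 h5 using fun (n : ℕ) (a : St) => next n a.1 a.2
  let st : ℕ → St := fun n => Nat.rec (⟨q0, h0⟩ : St) (fun n a => ⟨nx n a, h1 n a⟩) n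
  have hst : ∀ n, (st (n + 1)).1 = nx n (st n) := fun n => rfl
  have hN : ∀ n, n ≤ (st n).1.N := by
    intro n
    induction n with
    | zero => exact Nat.zero_le _
    | succ n ih =>
        have := h2 n (st n)
        rw [hst]; omega
  have hag : ∀ n m, n ≤ m → ∀ X, Agree (st m).1 X → Agree (st n).1 X := by
    intro n m hnm
    induction m, hnm using Nat.le_induction with
    | base => exact fun X h => h
    | succ m _ ih =>
        intro X hX
        rw [hst] at hX
        exact ih X (h3 m (st m) X hX)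
  have hcol : ∀ n m, n ≤ m → ∀ c ∈ (st n).1.cols, c ∈ (st m).1.cols := by
    intro n m hnm
    induction m, hnm using Nat.le_induction with
    | base => exact fun c h => h
    | succ m _ ih =>
        intro c hc
        rw [hst]
        exact h4 m (st m) c (ih c hc)
  have hσ : ∀ n m, n ≤ m → ∀ v : Str, v.length < (st n).1.N → (st m).1.σ v = (st n).1.σ v :=
    fun n m hnm v hv => hag n m hnm _ (fun _ _ => rfl) v hv
  let X : Lang := fun v => (st (v.length + 1)).1.σ v
  have hX : ∀ n, Agree (st n).1 X := by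
    intro n v hv
    show (st (v.length + 1)).1.σ v = (st n).1.σ v
    have h6 : v.length < (st (v.length + 1)).1.N := by
      have := hN (v.length + 1); omega
    rcases le_total n (v.length + 1) with h | h
    · exact hσ n _ h v hv
    · exact (hσ _ n h v h6).symm
  refine ⟨X, fun n => ⟨(st (n + 1)).1, h5 n (st n), (st (n + 1)).2, hX (n + 1), ?_⟩⟩
  intro c hc x
  set m := max (n + 1) (tl c x + 1) with hm
  have h6 : tl c x < (st m).1.N := by
    have := hN m; omega
  exact (st m).2.1.wk c (hcol _ m (le_max_left _ _) c hc) x h6 X (hX m)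

/-- requirements -/
abbrev Req2 := (PIx × List NIx) ⊕ (NIx × NIx × PIx × List NIx)

/-- the condition decides the requirement -/
def Sat2 (q : Cnd) : Req2 → Prop
  | Sum.inl (p, l) => l ≠ [] → ∃ s, ∀ X, Agree q X → sEval p l X s ≠ QQ (l.length + 1) X s
  | Sum.inr (a, i, p, l) => l ≠ [] →
      (∃ s, ∀ X, Agree q X → sEval p l (join X (nEval a X)) s ≠ QQ (l.length + 1) X s) ∨
      ∃ c ∈ q.cols, c.a = a ∧ c.i = i

/-- the scale lemma -/
def ScaleLemma : Prop := ∀ q, PP q → ∀ (p : PIx) (l : List NIx), l ≠ [] →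
  ∃ X, Mem q X ∧ ∃ s, sEval p l X s ≠ QQ (l.length + 1) X s

theorem next2 (hSL : ScaleLemma) (r : Req2) {q : Cnd} (hq : PP q) : ∃ q', PP q' ∧ q.N < q'.N ∧
    (∀ X, Agree q' X → Agree q X) ∧ (∀ c ∈ q.cols, c ∈ q'.cols) ∧ Sat2 q' r := by
  -- freezing
  have key : ∀ X, Mem q X → ∀ M, ∃ q', PP q' ∧ q.N < q'.N ∧ M < q'.N ∧
      (∀ X, Agree q' X → Agree q X) ∧ q'.cols = q.cols ∧
      (∀ X', Agree q' X' → ∀ v : Str, v.length ≤ M → X' v = X v) ∧
      (∀ X', Mem q' X' → Mem q X') := by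
    intro X hX M
    obtain ⟨n0, hn0⟩ := exists_frz hq.1 hX
    set n := max n0 (max (q.N + 1) (M + 1)) with hn
    have e1 : n0 ≤ n := le_max_left _ _
    have e2 : q.N + 1 ≤ n := le_trans (le_max_left _ _) (le_max_right _ _)
    have e3 : M + 1 ≤ n := le_trans (le_max_right _ _) (le_max_right _ _)
    obtain ⟨h1, h2⟩ := hn0 n e1
    refine ⟨frz q X n, hq.frz hX h1 h2, ?_, ?_, ?_, rfl, ?_, fun X' h => frz_mem hX.1 h1 h⟩
    · show q.N < n; omega
    · show M < n; omega
    · intro X' hX' v hv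
      rw [hX' v (by show v.length < n; omega)]
      exact hX.1 v hv
    · intro X' hX' v hv
      exact hX' v (by show v.length < n; omega)
  rcases r with ⟨p, l⟩ | ⟨a, i, p, l⟩
  · by_cases hl : l = []
    · obtain ⟨X, hX⟩ := exists_mem hq.1
      obtain ⟨q', h1, h2, _, h3, h4, _⟩ := key X hX 0
      exact ⟨q', h1, h2, h3, fun c hc => by rw [h4]; exact hc, fun h => absurd hl h⟩
    · obtain ⟨X, hX, s, hs⟩ := hSL q hq p l hl
      obtain ⟨m1, hm1⟩ := loc_sEval p l s.length
      obtain ⟨m2, hm2⟩ := loc_QQ (l.length + 1) s.length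
      obtain ⟨q', h1, h2, _, h3, h4, h5, _⟩ := key X hX (max m1 m2)
      refine ⟨q', h1, h2, h3, fun c hc => by rw [h4]; exact hc, fun _ => ⟨s, fun X' hX' => ?_⟩⟩
      rw [hm1 X' X (fun v hv => h5 X' hX' v (by omega)) s le_rfl,
        hm2 X' X (fun v hv => h5 X' hX' v (by omega)) s le_rfl]
      exact hs
  · by_cases hl : l = []
    · obtain ⟨X, hX⟩ := exists_mem hq.1
      obtain ⟨q', h1, h2, _, h3, h4, _⟩ := key X hX 0
      exact ⟨q', h1, h2, h3, fun c hc => by rw [h4]; exact hc, fun h => absurd hl h⟩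
    by_cases hJ : ∀ X, Mem q X → ∀ s, sEval p l (join X (nEval a X)) s = QQ (l.length + 1) X s
    · obtain ⟨X, hX⟩ := exists_mem hq.1
      obtain ⟨q', h1, h2, _, h3, h4, h5, h6⟩ := key X hX 0
      obtain ⟨m0, hm0⟩ := list_bound q'.cols (fun c n => c.m ≤ n)
        (fun c _ => ⟨c.m, fun n hn => hn⟩)
      -- room for a new index
      obtain ⟨n0, hn0⟩ := exists_frz h1.1 (exists_mem h1.1).choose_spec
      set X1 := (exists_mem h1.1).choose with hX1
      have hX1m : Mem q' X1 := (exists_mem h1.1).choose_spec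
      set n := max n0 (q'.N + 1) with hn
      have e1 : n0 ≤ n := le_max_left _ _
      have e2 : q'.N + 1 ≤ n := le_max_right _ _
      obtain ⟨h7, h8⟩ := hn0 n e1
      obtain ⟨c, hc1, hc2, hc3, hc4, hc5, hc6, hc7⟩ := exists_col (n - 1) m0 a i p l hl
      have hP := h1.frz hX1m h7 h8
      refine ⟨addc (frz q' X1 n) c, addc_PP hP hc1 ?_ ?_ ?_ ?_, ?_, ?_, ?_, ?_⟩
      · show c.j + 1 = n; omega
      · intro c' hc'
        have := h1.1.lt c' hc'
        omega
      · intro c' hc'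
        exact (hm0 m0 le_rfl c' hc').trans hc3
      · intro X' hX' s
        unfold hs
        rw [hc6, hc4, hc7]
        exact hJ X' (h6 X' (frz_mem hX1m.1 h7 hX')) s
      · show q.N < n; omega
      · intro X' hX'
        apply h3
        intro v hv
        have : X' v = X1 v := hX' v (by show v.length < n; omega)
        rw [this]
        exact hX1m.1 v hv
      · intro c' hc'
        show c' ∈ q'.cols ++ [c]
        rw [h4]; simp [hc']
      · intro _
        right
        exact ⟨c, by show c ∈ q'.cols ++ [c]; simp, hc4, hc5⟩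
    · push Not at hJ
      obtain ⟨X, hX, s, hs⟩ := hJ
      obtain ⟨m1, hm1⟩ := ((loc_sEval p l).comp (loc_join (loc_nEval a))) s.length
      obtain ⟨m2, hm2⟩ := loc_QQ (l.length + 1) s.length
      obtain ⟨q', h1, h2, _, h3, h4, h5, _⟩ := key X hX (max m1 m2)
      refine ⟨q', h1, h2, h3, fun c hc => by rw [h4]; exact hc,
        fun _ => Or.inl ⟨s, fun X' hX' => ?_⟩⟩
      have e1 := hm1 X' X (fun v hv => h5 X' hX' v (by omega)) s le_rfl
      beta_reduce at e1
      rw [e1, hm2 X' X (fun v hv => h5 X' hX' v (by omega)) s le_rfl]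
      exact hs

theorem exists_oracle2 (hSL : ScaleLemma) : ∃ X : Lang,
    (∀ (p : PIx) (l : List NIx), l ≠ [] → ∃ s, sEval p l X s ≠ QQ (l.length + 1) X s) ∧
    (∀ (a i : NIx) (p : PIx) (l : List NIx), l ≠ [] →
      (∃ s, sEval p l (join X (nEval a X)) s ≠ QQ (l.length + 1) X s) ∨
      ∃ c : Col, c.a = a ∧ c.i = i ∧ ∀ x, Wk c X x) := by
  have hne : Nonempty Req2 := ⟨Sum.inl ((Prog.skip, 0), [])⟩
  obtain ⟨req, hreq⟩ := exists_surjective_nat Req2
  have hq0 : PP ⟨0, fun _ => false, []⟩ :=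
    ⟨⟨by simp, by simp, by simp, List.Pairwise.nil, by simp⟩, by simp⟩
  obtain ⟨X, hX⟩ := exists_limit2 (fun n q => Sat2 q (req n)) _ hq0
    (fun n q hq => next2 hSL (req n) hq)
  refine ⟨X, fun p l hl => ?_, fun a i p l hl => ?_⟩
  · obtain ⟨n, hn⟩ := hreq (Sum.inl (p, l))
    obtain ⟨q, h1, _, h2, _⟩ := hX n
    rw [hn] at h1
    obtain ⟨s, hs⟩ := h1 hl
    exact ⟨s, hs X h2⟩
  · obtain ⟨n, hn⟩ := hreq (Sum.inr (a, i, p, l))
    obtain ⟨q, h1, _, h2, h3⟩ := hX n
    rw [hn] at h1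
    rcases h1 hl with ⟨s, hs⟩ | ⟨c, hc, h4, h5⟩
    · exact Or.inl ⟨s, hs X h2⟩
    · exact Or.inr ⟨c, h4, h5, h3 c hc⟩

end Pool.Agent.Lib.Pa76659H
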