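import Pool.Agent.Lib.Pa76659H.Lit
import Pool.Agent.Lib.Pa76659H.Lim

/-!
Families of worlds at one scale.
-/

set_option maxHeartbeats 4000000
set_option linter.unusedSectionVars false

namespace Pool.Agent.Lib.Pa76659H

open Pool.Agent.Lib.Pa76659 Pool.Agent.Lib.Pa76659.Hier

structure Ctx where
  q : Cnd
  J : ℕ
  col : ℕ → Col
  k : ℕ → ℕ
  N : ℕ
  ν : ℕ

structure Ctx.OK (Γ : Ctx) : Prop where
  wf : WF Γ.q
  hcol : ∀ c, c ∈ Γ.q.cols ↔ ∃ i < Γ.J, c = Γ.col i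
  inj : ∀ i < Γ.J, ∀ i' < Γ.J, (Γ.col i).j = (Γ.col i').j → i = i'
  hcm : ∀ i i', i ≤ i' → i' < Γ.J → (Γ.col i).m ≤ (Γ.col i').m
  hk : ∀ i < Γ.J, Γ.k i = (Γ.col i).l.length
  hk1 : ∀ i ≤ Γ.J, 1 ≤ Γ.k i
  hn3 : 3 ≤ Γ.q.N

namespace Ctx

variable (Γ : Ctx)

abbrev W := Var → Option (Fin Γ.N)

/-- the length at which the scale starts -/
abbrev n : ℕ := Γ.q.N

noncomputable def F (τ : ℕ → Str → Option (DT Str Bool)) (YY : Γ.W → Lang) (x : Γ.W) : Lang :=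
  Phi Γ.q τ (YY x)

noncomputable def C (τ : ℕ → Str → Option (DT Str Bool)) (YY : Γ.W → Lang) (i : ℕ) (x : Γ.W) :
    Lang := join (Γ.F τ YY x) (hs (Γ.col i) (Γ.F τ YY x))

/-- valid names -/
def P (i0 : ℕ) (m : ℕ → ℕ → ℕ) : Var → Prop := Vld (Finset.Icc i0 Γ.J) Γ.k m

/-- asked strings -/
def Q (i : ℕ) : Set Str := {u | u.length ≤ Γ.n ^ (Γ.col i).bM}

/-- level -/
def V (lv : ℕ) : ℕ := Γ.n ^ (2 ^ lv)

end Ctx

/-- roots of the trees -/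
def rs (i n : ℕ) : Str := false :: (List.replicate i true ++ false :: List.replicate (n - i - 2) false)

structure Inv (Γ : Ctx) (i0 lv : ℕ) (m : ℕ → ℕ → ℕ) (τ : ℕ → Str → Option (DT Str Bool))
    (YY : Γ.W → Lang) (R : ℕ → Var → DT Str (Option (Fin Γ.N))) : Prop where
  lit : ∀ v : Str, LitF (Γ.P i0 m) (fun x => YY x v)
  tree : ∀ i ∈ Finset.Icc i0 Γ.J, ∀ (x : Γ.W) (X : Lang),
    (∀ v : Str, Γ.n ≤ (false :: v).length → X (false :: v) = YY x (false :: v)) →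
    QQ (Γ.k i + 1) X (rs i Γ.n) = tr (m i) (Γ.k i) (fun u => (x (i, u)).isSome) []
  tab1 : ∀ i < Γ.J, ∀ y, Γ.n ≤ tl (Γ.col i) y → tl (Γ.col i) y < Γ.V lv →
    (τ (Γ.col i).j y).isSome
  tab0 : ∀ i < Γ.J, ∀ y, (tl (Γ.col i) y < Γ.n ∨ Γ.V lv ≤ tl (Γ.col i) y) →
    τ (Γ.col i).j y = none
  tab : ∀ i < Γ.J, ∀ y T, τ (Γ.col i).j y = some T →
    (∀ x, T.eval (Γ.C τ YY i x) = nEval (Γ.col i).i (Γ.F τ YY x) y) ∧ T.QIn (Γ.Q i) ∧
    (∃ d, T.depth ≤ d ∧ d * (Γ.n ^ (Γ.col i).bM + 1) + 1 ≤ fuel (Γ.col i) y) ∧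
    (i0 ≤ i → ∃ b, T = DT.leaf b)
  lvl : ∀ i < Γ.J, (i < i0 → (Γ.col i).m ≤ lv) ∧ (i0 ≤ i → lv ≤ (Γ.col i).m)
  le : i0 ≤ Γ.J
  read : ∀ i < i0, ∀ v, Γ.P i0 m v → (∀ x, (R i v).eval (Γ.C τ YY i x) = x v) ∧
    (R i v).QIn (Γ.Q i) ∧ (R i v).depth ≤ (Γ.ν + 1) * Γ.n ^ (Γ.col i).bM

theorem Gd.lev {c : Col} (hc : Gd c) {n : ℕ} (hn : 3 ≤ n) :
    (n ^ c.bM + 2) ^ c.bA < n ^ (2 ^ c.m) ∧ n ^ (2 * c.bM + 5) ≤ n ^ (2 ^ c.m) := by
  have h1 : 1 ≤ n ^ c.bM := Nat.one_le_pow _ _ (by omega)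
  have h2 : n ^ c.bM + 2 ≤ n ^ (c.bM + 1) := by
    rw [pow_succ]; nlinarith
  have h3 := hc.hAM
  constructor
  · calc (n ^ c.bM + 2) ^ c.bA ≤ (n ^ (c.bM + 1)) ^ c.bA := Nat.pow_le_pow_left h2 _
      _ = n ^ ((c.bM + 1) * c.bA) := by rw [← pow_mul]
      _ < n ^ (2 ^ c.m) := Nat.pow_lt_pow_right (by omega) (by omega)
  · exact Nat.pow_le_pow_right (by omega) (by omega)

theorem Gd.lev1 {c : Col} (hc : Gd c) {n : ℕ} (hn : 3 ≤ n) : n ^ c.bM < n ^ (2 ^ c.m) :=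
  lt_of_lt_of_le (Nat.pow_lt_pow_right (by omega) (by omega)) (hc.lev hn).2

/-- the questions of the column only see short strings -/
theorem join_hs_congr {c : Col} (hc : Gd c) {n V : ℕ} (hn : 3 ≤ n) (hV : n ^ (2 ^ c.m) ≤ V)
    {X X' : Lang} (h : ∀ v : Str, v.length < V → X v = X' v) (u : Str)
    (hu : u.length ≤ n ^ c.bM) : join X (hs c X) u = join X' (hs c X') u := by
  rcases u with _ | ⟨b, v⟩
  · rfl
  · simp only [List.length_cons] at hu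
    have h1 := hc.lev1 hn
    cases b
    · exact h v (by omega)
    · apply hc.hA.congr
      intro w hw
      apply h
      have h2 : (v.length + 2) ^ c.bA ≤ (n ^ c.bM + 2) ^ c.bA := Nat.pow_le_pow_left (by omega) _
      have := (hc.lev hn).1
      omega

section

variable {Γ : Ctx} (hΓ : Γ.OK) {i0 lv : ℕ} {m : ℕ → ℕ → ℕ}
  {τ : ℕ → Str → Option (DT Str Bool)} {YY : Γ.W → Lang} {R : ℕ → Var → DT Str (Option (Fin Γ.N))}

include hΓ

theorem Ctx.OK.mem {i : ℕ} (hi : i < Γ.J) : Γ.col i ∈ Γ.q.cols := (hΓ.hcol _).2 ⟨i, hi, rfl⟩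

theorem Ctx.OK.gd {i : ℕ} (hi : i < Γ.J) : Gd (Γ.col i) := hΓ.wf.gd _ (hΓ.mem hi)

theorem Ctx.OK.n_le_V (l : ℕ) : Γ.n ≤ Γ.V l := by
  unfold Ctx.V
  exact Nat.le_self_pow (by positivity) _

theorem F_below (x : Γ.W) (v : Str) (h : v.length < Γ.n) : Γ.F τ YY x v = Γ.q.σ v :=
  Phi_below _ _ _ _ h

theorem F_false (x : Γ.W) (v : Str) (h : Γ.n ≤ (false :: v).length) :
    Γ.F τ YY x (false :: v) = YY x (false :: v) :=
  Phi_free _ _ _ _ h (free_false _ _)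

theorem Inv.bits (h : Inv Γ i0 lv m τ YY R) (v : Str) (hv : v.length < Γ.V lv) :
    LitF (Γ.P i0 m) (fun x => Γ.F τ YY x v) := by
  by_cases hn : v.length < Γ.n
  · exact Or.inl ⟨Γ.q.σ v, fun x => F_below hΓ x v hn⟩
  have hn : Γ.n ≤ v.length := by omega
  by_cases hf : Free Γ.q v
  · have : (fun x => Γ.F τ YY x v) = fun x => YY x v := by
      funext x
      exact Phi_free _ _ _ _ hn hf
    rw [this]
    exact h.lit v
  · unfold Free at hf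
    push Not at hf
    obtain ⟨c, hc, y, w, t1, t2, rfl⟩ := hf
    obtain ⟨i, hi, rfl⟩ := (hΓ.hcol c).1 hc
    have h1 := tl_le (Γ.col i) y w t1 t2
    have h2 : ∀ x, Γ.F τ YY x (Pool.Agent.Lib.Pa76659H.tab (Γ.col i).j (Γ.col i).B y w t1 t2) =
        match τ (Γ.col i).j y with
        | some T => tbit T w t1 t2
        | none => t1 && (t2 || nEval (Γ.col i).i (Γ.F τ YY x) y) :=
      fun x => Phi_tab hΓ.wf τ (YY x) hc y w t1 t2 hn
    cases hT : τ (Γ.col i).j y with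
    | some T =>
        refine Or.inl ⟨tbit T w t1 t2, fun x => ?_⟩
        beta_reduce
        rw [h2, hT]
    | none =>
        have h3 : tl (Γ.col i) y < Γ.n := by
          by_contra hcon
          have := h.tab1 i hi y (by omega) (by omega)
          rw [hT] at this
          simp at this
        refine Or.inl ⟨t1 && (t2 || nEval (Γ.col i).i Γ.q.σ y), fun x => ?_⟩
        beta_reduce
        rw [h2, hT]
        simp only
        congr 2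
        apply (hΓ.gd hi).congr
        intro u hu
        exact F_below hΓ x u (by omega)

theorem Inv.mem (h : Inv Γ i0 lv m τ YY R) (x : Γ.W) : Mem Γ.q (Γ.F τ YY x) := by
  apply Phi_mem hΓ.wf τ (YY x) _ (Γ.V lv)
  · intro c hc y hy
    obtain ⟨i, hi, rfl⟩ := (hΓ.hcol c).1 hc
    exact h.tab0 i hi y (Or.inr hy)
  · intro c hc y T hT
    obtain ⟨i, hi, rfl⟩ := (hΓ.hcol c).1 hc
    obtain ⟨h1, h2, ⟨d, h3, h4⟩, _⟩ := h.tab i hi y T hT
    exact ⟨h1 x, Γ.n ^ (Γ.col i).bM, d, h3, h2, h4⟩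

theorem Inv.reparam (h : Inv Γ i0 lv m τ YY R) {i1 : ℕ} {m' : ℕ → ℕ → ℕ} (hi1 : i0 ≤ i1)
    (hi2 : i1 ≤ Γ.J) (hlv : ∀ i < Γ.J, (i < i1 → (Γ.col i).m ≤ lv)) (ρ : Γ.W → Γ.W)
    (hsrc : ∀ v, Γ.P i0 m v → Src (Γ.P i1 m') ρ v)
    (htr : ∀ i ∈ Finset.Icc i1 Γ.J, ∀ z : Γ.W,
      tr (m i) (Γ.k i) (fun u => (ρ z (i, u)).isSome) [] =
        tr (m' i) (Γ.k i) (fun u => (z (i, u)).isSome) [])
    {R' : ℕ → Var → DT Str (Option (Fin Γ.N))}
    (hR : ∀ i < i1, ∀ v, Γ.P i1 m' v → (∀ z, (R' i v).eval (Γ.C τ YY i (ρ z)) = z v) ∧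
      (R' i v).QIn (Γ.Q i) ∧ (R' i v).depth ≤ (Γ.ν + 1) * Γ.n ^ (Γ.col i).bM) :
    Inv Γ i1 lv m' τ (fun z => YY (ρ z)) R' := by
  refine ⟨fun v => (h.lit v).comp hsrc, ?_, h.tab1, h.tab0, ?_, ?_, hi2, hR⟩
  · intro i hi z X hX
    have hi' : i ∈ Finset.Icc i0 Γ.J := by
      rw [Finset.mem_Icc] at hi ⊢
      exact ⟨hi1.trans hi.1, hi.2⟩
    rw [h.tree i hi' (ρ z) X hX]
    exact htr i hi z
  · intro i hi y T hT
    obtain ⟨h1, h2, h3, h4⟩ := h.tab i hi y T hT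
    exact ⟨fun z => h1 (ρ z), h2, h3, fun h5 => h4 (hi1.trans h5)⟩
  · intro i hi
    exact ⟨hlv i hi, fun h5 => (h.lvl i hi).2 (hi1.trans h5)⟩

/-- fuel is enough -/
theorem fuel_large {c : Col} {y : Str} {V : ℕ} (hV : 16 ≤ V) (hj : 2 * (c.j + 7) ≤ V)
    (h : V ≤ tl c y) : V ^ 16 ≤ fuel c y := by
  unfold tl at h
  unfold fuel
  set P := (y.length + 2) ^ (2 ^ c.B) with hP
  have h1 : y.length + 2 ≤ P := Nat.le_self_pow (by positivity) _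
  have h2 : V ≤ 4 * P := by omega
  have h3 : V ≤ P ^ 2 := by nlinarith
  have h4 : (y.length + 2) ^ (2 ^ (c.B + 5)) = P ^ 32 := by
    rw [hP, ← pow_mul]
    congr 1
    rw [pow_add]; norm_num
  rw [h4]
  calc V ^ 16 ≤ (P ^ 2) ^ 16 := Nat.pow_le_pow_left h3 _
    _ = P ^ 32 := by rw [← pow_mul]

theorem Inv.up (h : Inv Γ i0 lv m τ YY R) (hlv : ∀ i < Γ.J, i0 ≤ i → lv + 1 ≤ (Γ.col i).m)
    (s : ℕ) (hN : 1 ≤ Γ.N)
    (hMT : ∀ i < Γ.J, i < i0 → ∀ y, Γ.V lv ≤ tl (Γ.col i) y → tl (Γ.col i) y < Γ.V (lv + 1) →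
      ∃ T : MT Var (Option (Fin Γ.N)) Bool, T.dle s ∧
        ∀ x, nEval (Γ.col i).i (Γ.F τ YY x) y = T.eval x)
    (hfu : ∀ i < Γ.J, i < i0 → ∀ y, Γ.V lv ≤ tl (Γ.col i) y →
      s * ((Γ.ν + 1) * Γ.n ^ (Γ.col i).bM) * (Γ.n ^ (Γ.col i).bM + 1) + 1 ≤ fuel (Γ.col i) y) :
    ∃ τ', Inv Γ i0 (lv + 1) m τ' YY R := by
  classical
  have hnV := hΓ.n_le_V lv
  have hVV : Γ.V (lv + 1) = Γ.V lv ^ 2 := by
    unfold Ctx.V
    rw [← pow_mul, pow_succ]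
  -- views of table entries below the next level
  have hview : ∀ i < Γ.J, ∀ y, tl (Γ.col i) y < Γ.V (lv + 1) → ∀ v : Str,
      v.length ≤ (y.length + 2) ^ (Γ.col i).bI → v.length < Γ.V lv := by
    intro i hi y hy v hv
    have h1 := (hΓ.gd hi).view y v hv
    have h2 : v.length ^ 2 ≤ v.length ^ (2 ^ ((Γ.col i).m + 1)) := by
      rcases Nat.eq_zero_or_pos v.length with h3 | h3
      · rw [h3]; simp
      · apply Nat.pow_le_pow_right h3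
        rw [pow_succ]
        have : 1 ≤ 2 ^ (Γ.col i).m := Nat.one_le_two_pow
        omega
    rw [hVV] at hy
    exact lt_of_pow_lt_pow_left₀ 2 (Nat.zero_le _) (by omega)
  have hnext : ∀ i < Γ.J, i0 ≤ i → ∀ y, tl (Γ.col i) y < Γ.V (lv + 1) → ∀ v : Str,
      v.length ≤ (y.length + 2) ^ (Γ.col i).bI → v.length < Γ.n := by
    intro i hi hi0 y hy v hv
    have h1 := (hΓ.gd hi).view y v hv
    have h2 := hlv i hi hi0
    by_contra hcon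
    have h3 : Γ.n ^ (2 ^ ((Γ.col i).m + 1)) ≤ v.length ^ (2 ^ ((Γ.col i).m + 1)) :=
      Nat.pow_le_pow_left (by omega) _
    have h4 : Γ.V (lv + 1) ≤ Γ.n ^ (2 ^ ((Γ.col i).m + 1)) := by
      unfold Ctx.V
      apply Nat.pow_le_pow_right
      · have := hΓ.hn3; show 0 < Γ.q.N; omega
      · exact Nat.pow_le_pow_right (by norm_num) (by omega)
    omega
  -- the new tables
  let R0 : ℕ → Var → DT Str (Option (Fin Γ.N)) := fun i v =>
    if Γ.P i0 m v then R i v else DT.leaf (some ⟨0, hN⟩)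
  let nrm : Γ.W → Γ.W := fun x v => if Γ.P i0 m v then x v else some ⟨0, hN⟩
  have hFn : ∀ x, Γ.F τ YY (nrm x) = Γ.F τ YY x := by
    intro x
    have : YY (nrm x) = YY x := by
      funext v
      rcases h.lit v with ⟨b, hb⟩ | ⟨w, hw, y, b, hb⟩
      · exact (hb _).trans (hb _).symm
      · have e1 := hb (nrm x)
        have e2 := hb x
        beta_reduce at e1 e2
        rw [e1, e2]
        simp only [nrm, hw, if_true]
    unfold Ctx.F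
    rw [this]
  have hex : ∀ i y, ∃ T : DT Str Bool, i < Γ.J → Γ.V lv ≤ tl (Γ.col i) y →
      tl (Γ.col i) y < Γ.V (lv + 1) →
      (∀ x, T.eval (Γ.C τ YY i x) = nEval (Γ.col i).i (Γ.F τ YY x) y) ∧ T.QIn (Γ.Q i) ∧
      (∃ d, T.depth ≤ d ∧ d * (Γ.n ^ (Γ.col i).bM + 1) + 1 ≤ fuel (Γ.col i) y) ∧
      (i0 ≤ i → ∃ b, T = DT.leaf b) := by
    intro i y
    by_cases hc : i < Γ.J ∧ Γ.V lv ≤ tl (Γ.col i) y ∧ tl (Γ.col i) y < Γ.V (lv + 1)
    · obtain ⟨hi, h1, h2⟩ := hc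
      by_cases hi0 : i < i0
      · obtain ⟨T, hT1, hT2⟩ := hMT i hi hi0 y h1 h2
        refine ⟨T.toDT (R0 i), fun _ _ _ => ⟨fun x => ?_, ?_, ?_, fun h => absurd h (by omega)⟩⟩
        · rw [MT.eval_toDT (R0 i) (Γ.C τ YY i x) (nrm x) (by
            intro v
            simp only [R0, nrm]
            split_ifs with hv
            · exact (h.read i hi0 v hv).1 x
            · rfl), ← hT2, hFn]
        · apply MT.qin_toDT
          intro v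
          simp only [R0]
          split_ifs with hv
          · exact (h.read i hi0 v hv).2.1
          · trivial
        · refine ⟨s * ((Γ.ν + 1) * Γ.n ^ (Γ.col i).bM), ?_, hfu i hi hi0 y h1⟩
          apply MT.depth_toDT (R0 i) _ _ hT1
          intro v
          simp only [R0]
          split_ifs with hv
          · exact (h.read i hi0 v hv).2.2
          · simp [DT.depth]
      · have h3 : ∀ x, nEval (Γ.col i).i (Γ.F τ YY x) y = nEval (Γ.col i).i Γ.q.σ y := by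
          intro x
          apply (hΓ.gd hi).hI.congr
          intro v hv
          exact F_below hΓ x v (hnext i hi (by omega) y h2 v hv)
        refine ⟨DT.leaf (nEval (Γ.col i).i Γ.q.σ y), fun _ _ _ => ⟨fun x => (h3 x).symm, trivial,
          ⟨0, by simp [DT.depth], ?_⟩, fun _ => ⟨_, rfl⟩⟩⟩
        have := fuel_pos (Γ.col i) y
        omega
    · exact ⟨DT.leaf true, fun a b c => absurd ⟨a, b, c⟩ hc⟩
  choose Tn hTn using hex
  let τ' : ℕ → Str → Option (DT Str Bool) := fun j y =>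
    if hh : ∃ i, i < Γ.J ∧ (Γ.col i).j = j ∧ Γ.V lv ≤ tl (Γ.col i) y ∧
      tl (Γ.col i) y < Γ.V (lv + 1) then some (Tn hh.choose y) else τ j y
  have hτ1 : ∀ i < Γ.J, ∀ y, Γ.V lv ≤ tl (Γ.col i) y → tl (Γ.col i) y < Γ.V (lv + 1) →
      τ' (Γ.col i).j y = some (Tn i y) := by
    intro i hi y h1 h2
    have hh : ∃ i', i' < Γ.J ∧ (Γ.col i').j = (Γ.col i).j ∧ Γ.V lv ≤ tl (Γ.col i') y ∧
      tl (Γ.col i') y < Γ.V (lv + 1) := ⟨i, hi, rfl, h1, h2⟩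
    simp only [τ']
    rw [dif_pos hh]
    obtain ⟨a1, a2, _⟩ := hh.choose_spec
    rw [hΓ.inj _ a1 i hi a2]
  have hτ2 : ∀ i < Γ.J, ∀ y, ¬ (Γ.V lv ≤ tl (Γ.col i) y ∧ tl (Γ.col i) y < Γ.V (lv + 1)) →
      τ' (Γ.col i).j y = τ (Γ.col i).j y := by
    intro i hi y h1
    simp only [τ']
    rw [dif_neg]
    rintro ⟨i', a1, a2, a3⟩
    rw [hΓ.inj _ a1 i hi a2] at a3
    exact h1 a3
  have hloc : ∀ x v, v.length < Γ.V lv → Γ.F τ' YY x v = Γ.F τ YY x v := by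
    intro x v hv
    apply Phi_local hΓ.wf τ' τ (YY x) (YY x) (Γ.V lv) _ (fun _ _ _ _ => rfl) v hv
    intro c hc y hy
    obtain ⟨i, hi, rfl⟩ := (hΓ.hcol c).1 hc
    exact hτ2 i hi y (by omega)
  have hlocC : ∀ i < Γ.J, i < i0 → ∀ x, ∀ u ∈ Γ.Q i, Γ.C τ' YY i x u = Γ.C τ YY i x u := by
    intro i hi hi0 x u hu
    apply join_hs_congr (hΓ.gd hi) hΓ.hn3 (V := Γ.V lv) _ (hloc x) u hu
    unfold Ctx.V
    apply Nat.pow_le_pow_right
    · have := hΓ.hn3; show 0 < Γ.q.N; omega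
    · exact Nat.pow_le_pow_right (by norm_num) ((h.lvl i hi).1 hi0)
  have hT : ∀ i < Γ.J, ∀ y T, (∀ x, T.eval (Γ.C τ YY i x) = nEval (Γ.col i).i (Γ.F τ YY x) y) →
      T.QIn (Γ.Q i) → (i0 ≤ i → ∃ b, T = DT.leaf b) → tl (Γ.col i) y < Γ.V (lv + 1) →
      ∀ x, T.eval (Γ.C τ' YY i x) = nEval (Γ.col i).i (Γ.F τ' YY x) y := by
    intro i hi y T h1 h2 h3 h4 x
    have e1 : nEval (Γ.col i).i (Γ.F τ' YY x) y = nEval (Γ.col i).i (Γ.F τ YY x) y := by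
      apply (hΓ.gd hi).hI.congr
      intro v hv
      exact hloc x v (hview i hi y h4 v hv)
    rw [e1, ← h1 x]
    by_cases hi0 : i < i0
    · exact DT.eval_congr (hlocC i hi hi0 x) h2
    · obtain ⟨b, rfl⟩ := h3 (by omega)
      rfl
  refine ⟨τ', h.lit, h.tree, ?_, ?_, ?_, ?_, h.le, ?_⟩
  · intro i hi y h1 h2
    by_cases h3 : Γ.V lv ≤ tl (Γ.col i) y
    · rw [hτ1 i hi y h3 h2]; rfl
    · rw [hτ2 i hi y (by omega)]
      exact h.tab1 i hi y h1 (by omega)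
  · intro i hi y h1
    have h2 : Γ.V lv ≤ Γ.V (lv + 1) := by
      rw [hVV]
      exact Nat.le_self_pow (by norm_num) _
    rw [hτ2 i hi y (by omega)]
    exact h.tab0 i hi y (by omega)
  · intro i hi y T hTT
    by_cases h3 : Γ.V lv ≤ tl (Γ.col i) y ∧ tl (Γ.col i) y < Γ.V (lv + 1)
    · rw [hτ1 i hi y h3.1 h3.2] at hTT
      simp only [Option.some.injEq] at hTT
      subst hTT
      obtain ⟨a1, a2, a3, a4⟩ := hTn i y hi h3.1 h3.2
      exact ⟨hT i hi y _ a1 a2 a4 h3.2, a2, a3, a4⟩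
    · rw [hτ2 i hi y h3] at hTT
      obtain ⟨a1, a2, a3, a4⟩ := h.tab i hi y T hTT
      refine ⟨hT i hi y _ a1 a2 a4 ?_, a2, a3, a4⟩
      by_contra hcon
      rw [h.tab0 i hi y (Or.inr ?_)] at hTT
      · simp at hTT
      · have h2 : Γ.V lv ≤ Γ.V (lv + 1) := by
          rw [hVV]
          exact Nat.le_self_pow (by norm_num) _
        omega
  · intro i hi
    exact ⟨fun h1 => ((h.lvl i hi).1 h1).trans (Nat.le_succ _), hlv i hi⟩
  · intro i hi0 v hv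
    obtain ⟨a1, a2, a3⟩ := h.read i hi0 v hv
    refine ⟨fun x => ?_, a2, a3⟩
    rw [← a1 x]
    exact DT.eval_congr (hlocC i (lt_of_lt_of_le hi0 h.le) hi0 x) a2

end

end Pool.Agent.Lib.Pa76659H
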