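import Pool.Agent.Lib.Pa76659H.Cnd

/-!
Literals, certificates, and changes of variables of the worlds.
-/

set_option maxHeartbeats 4000000

namespace Pool.Agent.Lib.Pa76659H

open Pool.Agent.Lib.Pa76659 Pool.Agent.Lib.Pa76659.Hier

variable {N : ℕ}

/-- `g` is a constant or a bit literal on a variable in `P` -/
def LitF (P : Var → Prop) (g : (Var → Option (Fin N)) → Bool) : Prop :=
  (∃ b, ∀ x, g x = b) ∨
    ∃ v, P v ∧ ∃ (y : Fin N) (b : Bool), ∀ x, g x = (b ^^ decide (x v = some y))

theorem LitF.mt {P : Var → Prop} {g : (Var → Option (Fin N)) → Bool} (h : LitF P g) :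
    ∃ T : MT Var (Option (Fin N)) Bool, T.dle 1 ∧ ∀ x, g x = T.eval x := by
  rcases h with ⟨b, hb⟩ | ⟨v, _, y, b, h⟩
  · exact ⟨MT.leaf b, trivial, fun x => by rw [hb]; rfl⟩
  · exact ⟨MT.node v (fun z => MT.leaf (b ^^ decide (z = some y))), fun z => trivial,
      fun x => by rw [h]; rfl⟩

/-- Certificates of decision trees over literals. -/
theorem cert_dt (P : Var → Prop) (g : (Var → Option (Fin N)) → Lang) (V w : ℕ)
    (hlit : ∀ v : Str, v.length < V → LitF P (fun x => g x v)) (D : DT Str Bool)
    (hD : D.QIn {v | v.length < V}) (hd : D.depth ≤ w) (hw : w < N) (x : Var → Option (Fin N))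
    (hx : D.eval (g x) = true) :
    ∃ (T : List Var) (Γ : Var → Set (Option (Fin N))), T.length ≤ w ∧ (∀ v ∈ T, P v) ∧
      (∀ v ∈ T, x v ∈ Γ v) ∧ (∀ v ∈ T, ∃ y, some y ∈ Γ v) ∧
      ∀ y, (∀ v ∈ T, y v ∈ Γ v) → D.eval (g y) = true := by
  classical
  have hq : ∀ u ∈ queries (g x) D, u.length < V := by
    clear hx hd
    induction D with
    | leaf b => intro u hu; simp [queries] at hu
    | node v f t ihf iht =>
        obtain ⟨h1, h2, h3⟩ := hD
        intro u hu
        simp only [queries, List.mem_cons] at hu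
        rcases hu with rfl | hu
        · exact h1
        · split_ifs at hu
          · exact iht h3 u hu
          · exact ihf h2 u hu
  have hch : ∀ u : Str, ∃ o : Option (Var × Fin N × Bool), u ∈ queries (g x) D →
      (match o with
        | none => ∃ b, ∀ x, g x u = b
        | some t => P t.1 ∧ ∀ x, g x u = (t.2.2 ^^ decide (x t.1 = some t.2.1))) := by
    intro u
    by_cases hu : u ∈ queries (g x) D
    · rcases hlit u (hq u hu) with h | ⟨v, hv, y, b, h⟩
      · exact ⟨none, fun _ => h⟩
      · exact ⟨some (v, y, b), fun _ => ⟨hv, h⟩⟩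
    · exact ⟨none, fun h => absurd h hu⟩
  choose o ho using hch
  have hlen := (queries_length (g x) D).trans hd
  refine ⟨(queries (g x) D).filterMap (fun u => (o u).map (fun t => t.1)),
    fun v => {z | ∀ u ∈ queries (g x) D, ∀ t, o u = some t → t.1 = v →
      (z = some t.2.1 ↔ x v = some t.2.1)}, ?_, ?_, ?_, ?_, ?_⟩
  · exact (List.length_filterMap_le _ _).trans hlen
  · intro v hv
    obtain ⟨u, hu, h1⟩ := List.mem_filterMap.1 hv
    obtain ⟨t, ht, rfl⟩ := Option.map_eq_some_iff.1 h1
    have := ho u hu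
    rw [ht] at this
    exact this.1
  · intro v _ u _ t _ _
    exact Iff.rfl
  · intro v hv
    cases hxv : x v with
    | some y =>
        refine ⟨y, fun u _ t _ _ => ?_⟩
        rw [hxv]
    | none =>
        let ys : List (Fin N) := (queries (g x) D).filterMap (fun u => (o u).map (fun t => t.2.1))
        have h1 : ys.toFinset.card < (Finset.univ : Finset (Fin N)).card := by
          rw [Finset.card_univ, Fintype.card_fin]
          have h2 := List.toFinset_card_le ys
          have h3 : ys.length ≤ w := (List.length_filterMap_le _ _).trans hlen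
          omega
        obtain ⟨y, _, hy⟩ := Finset.exists_mem_notMem_of_card_lt_card h1
        refine ⟨y, fun u hu t ht _ => ?_⟩
        constructor
        · intro h
          exfalso
          apply hy
          rw [List.mem_toFinset]
          simp only [Option.some.injEq] at h
          rw [h]
          exact List.mem_filterMap.2 ⟨u, hu, by simp [ht]⟩
        · intro h
          rw [hxv] at h
          simp at h
  · intro y hy
    rw [queries_eval (g x) (g y) D, hx]
    intro u hu
    have h1 := ho u hu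
    cases ht : o u with
    | none =>
        rw [ht] at h1
        obtain ⟨b, hb⟩ := h1
        rw [hb, hb]
    | some t =>
        rw [ht] at h1
        obtain ⟨h2, h3⟩ := h1
        rw [h3, h3]
        have h4 : t.1 ∈ (queries (g x) D).filterMap (fun u => (o u).map (fun t => t.1)) :=
          List.mem_filterMap.2 ⟨u, hu, by simp [ht]⟩
        have h5 := hy t.1 h4 u hu t ht rfl
        congr 1
        exact decide_eq_decide.2 h5

/-- Certificates of nondeterministic machines. -/
theorem cert_ne (P : Var → Prop) (g : (Var → Option (Fin N)) → Lang) (V w : ℕ)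
    (hlit : ∀ v : Str, v.length < V → LitF P (fun x => g x v)) (i : NIx) {b : ℕ} (hb : NB i b)
    (v : Str) (hv : (v.length + 2) ^ b < V) (hvw : (v.length + 2) ^ b ≤ w) (hw : w < N)
    (x : Var → Option (Fin N)) (hx : nEval i (g x) v = true) :
    ∃ (T : List Var) (Γ : Var → Set (Option (Fin N))), T.length ≤ w ∧ (∀ v ∈ T, P v) ∧
      (∀ v ∈ T, x v ∈ Γ v) ∧ (∀ v ∈ T, ∃ y, some y ∈ Γ v) ∧
      ∀ y, (∀ v ∈ T, y v ∈ Γ v) → nEval i (g y) v = true := by
  obtain ⟨y, hy, h1⟩ := (nEval_true i (g x) v).1 hx
  obtain ⟨T, Γ, h2, h3, h4, h5, h6⟩ := cert_dt P g V w hlit (vTree i v y)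
    ((vTree_qin i hb v y hy).mono fun u hu => lt_of_le_of_lt hu hv)
    ((vTree_depth i hb v y).trans hvw) hw x h1
  exact ⟨T, Γ, h2, h3, h4, h5, fun z hz => (nEval_true i (g z) v).2 ⟨y, hy, h6 z hz⟩⟩

/-- keep the value only if its `β`-th bit is set -/
def tie (β : ℕ) (o : Option (Fin N)) : Option (Fin N) :=
  match o with
  | none => none
  | some y => if y.1.testBit β = true then some y else none

theorem tie_eq_some {β : ℕ} {o : Option (Fin N)} {y : Fin N} :
    tie β o = some y ↔ o = some y ∧ y.1.testBit β = true := by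
  unfold tie
  cases o with
  | none => simp
  | some z =>
      simp only
      split_ifs with h
      · simp only [Option.some.injEq]
        constructor
        · rintro rfl; exact ⟨rfl, h⟩
        · rintro ⟨rfl, _⟩; rfl
      · simp only [Option.some.injEq, false_iff]
        rintro ⟨rfl, h1⟩
        exact h h1

/-- an old variable as a function of the new world -/
def Src (P' : Var → Prop) (ρ : (Var → Option (Fin N)) → (Var → Option (Fin N))) (v : Var) : Prop :=
  (∃ c, ∀ z, ρ z v = c) ∨ ∃ v', P' v' ∧ ((∀ z, ρ z v = z v') ∨ ∃ β, ∀ z, ρ z v = tie β (z v'))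

theorem LitF.comp {P P' : Var → Prop} {ρ : (Var → Option (Fin N)) → (Var → Option (Fin N))}
    (hρ : ∀ v, P v → Src P' ρ v) {g : (Var → Option (Fin N)) → Bool} (h : LitF P g) :
    LitF P' (fun z => g (ρ z)) := by
  rcases h with ⟨b, hb⟩ | ⟨v, hv, y, b, h⟩
  · exact Or.inl ⟨b, fun z => hb _⟩
  · rcases hρ v hv with ⟨c, hc⟩ | ⟨v', hv', h1 | ⟨β, h1⟩⟩
    · exact Or.inl ⟨b ^^ decide (c = some y), fun z => by beta_reduce; rw [h, hc]⟩
    · exact Or.inr ⟨v', hv', y, b, fun z => by beta_reduce; rw [h, h1]⟩
    · by_cases hy : y.1.testBit β = true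
      · refine Or.inr ⟨v', hv', y, b, fun z => ?_⟩
        beta_reduce
        rw [h, h1]
        congr 1
        apply decide_eq_decide.2
        rw [tie_eq_some]
        simp [hy]
      · refine Or.inl ⟨b, fun z => ?_⟩
        beta_reduce
        rw [h, h1]
        have : ¬ (tie β (z v') = some y) := by
          rw [tie_eq_some]; simp [hy]
        simp [this]

theorem tr_congr' (m : ℕ → ℕ) (x x' : List ℕ → Bool) : ∀ (j : ℕ) (u : List ℕ),
    VP m j u → (∀ v : List ℕ, v.length = j + u.length → VP m 0 v → x v = x' v) →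
    tr m j x u = tr m j x' u
  | 0, u, h1, h2 => h2 u (by simp) h1
  | j + 1, u, h1, h2 => by
      have h : ∀ y, y < m j → tr m j x (y :: u) = tr m j x' (y :: u) := by
        intro y hy
        apply tr_congr' m x x' j (y :: u) ⟨hy, h1⟩
        intro v hv
        apply h2
        rw [hv, List.length_cons]; omega
      rw [tr, tr]
      apply decide_eq_decide.2
      constructor
      · rintro ⟨y, hy, hy2⟩; exact ⟨y, hy, by rw [← h y hy]; exact hy2⟩
      · rintro ⟨y, hy, hy2⟩; exact ⟨y, hy, by rw [h y hy]; exact hy2⟩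

theorem VP_congr {m m' : ℕ → ℕ} : ∀ (h : ℕ) (u : List ℕ), (∀ j, h ≤ j → m j = m' j) →
    (VP m h u ↔ VP m' h u)
  | _, [], _ => Iff.rfl
  | h, a :: u, hm => by
      simp only [VP]
      rw [hm h le_rfl, VP_congr (h + 1) u (fun j hj => hm j (by omega))]

theorem VP_shift (m : ℕ → ℕ) : ∀ (h : ℕ) (u : List ℕ),
    VP (fun i => m (i + 1)) h u ↔ VP m (h + 1) u
  | _, [] => Iff.rfl
  | h, a :: u => by simp only [VP, VP_shift m (h + 1) u]

/-- changing the fan-ins of the leaf blocks -/
theorem tr_thin {m m' : ℕ → ℕ} (hm : ∀ j, 1 ≤ j → m j = m' j) {k : ℕ} (hk : 1 ≤ k)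
    (x x' : List ℕ → Bool)
    (h : ∀ u : List ℕ, u.length + 1 = k → VP m 1 u →
      ((∃ a < m 0, x (a :: u) = false) ↔ ∃ a < m' 0, x' (a :: u) = false)) :
    tr m k x [] = tr m' k x' [] := by
  obtain ⟨k, rfl⟩ : ∃ k', k = k' + 1 := ⟨k - 1, by omega⟩
  rw [tr_bot, tr_bot]
  have e : (fun i => m (i + 1)) = (fun i => m' (i + 1)) := by
    funext i; exact hm (i + 1) (by omega)
  rw [← e]
  apply tr_congr' _ _ _ k [] trivial
  intro u hu hv
  rw [VP_shift] at hv
  unfold bot
  exact decide_eq_decide.2 (h u (by simpa using hu) hv)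

end Pool.Agent.Lib.Pa76659H
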