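import Pool.Agent.Lib.Pa76659H.Base

/-! The program that walks through a table (MP_a76659_lc). -/

set_option maxHeartbeats 4000000
set_option linter.unusedVariables false

namespace Pool.Agent.Lib.Pa76659H
open Pool.Agent.Lib.Pa76659

namespace Wk

variable {O : Lang}

theorem push_st (r : ℕ) (b : Bool) (l : List Str) (hr : r < l.length) :
    Exec O (Prog.push r b) (st l) (st (l.set r (b :: l.getD r []))) 1 := by
  have := exec_push (O := O) r b (st l)
  rwa [upd_st _ _ _ hr] at this

theorem pop_st (r : ℕ) (l : List Str) (hr : r < l.length) :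
    Exec O (Prog.pop r) (st l) (st (l.set r (l.getD r []).tail)) 1 := by
  have := exec_pop (O := O) r (st l)
  rwa [upd_st _ _ _ hr] at this

theorem query_st (r t : ℕ) (l : List Str) (hr : t < l.length) :
    Exec O (Prog.query r t) (st l) (st (l.set t (O (l.getD r []) :: l.getD t []))) 1 := by
  have := exec_query (O := O) r t (st l)
  rwa [upd_st _ _ _ hr] at this

theorem clr_st (r : ℕ) (l : List Str) (hr : r < l.length) :
    Exec O (clr r) (st l) (st (l.set r [])) (2 * (l.getD r []).length + 1) := by
  have := exec_clr (O := O) r (l.getD r []) (st l) rfl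
  rwa [upd_st _ _ _ hr] at this

/-- `progCol` without the last query -/
def pre (j B : ℕ) : Prog :=
  Prog.seq (cp 0 1 2) (Prog.seq (mv 2 0) (Prog.seq (Prog.push 1 true) (Prog.seq
    (Prog.push 1 true) (Prog.seq (sqN B) (Prog.seq (Prog.push 0 true) (Prog.seq
      (Prog.loop 1 (Prog.seq (Prog.pop 1) (Prog.push 0 false))) (Prog.seq (Prog.push 0 false)
        (pushN (j + 1)))))))))

theorem exec_pre (j B : ℕ) (x : Str) :
    Exec O (pre j B) (inp x) (st [code j B x, [], [], [], [], []])
      (12 * x.length + B * (31 * ((x.length + 2) ^ (2 ^ B) + 1) ^ 2) +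
      4 * (x.length + 2) ^ (2 ^ B) + 2 * j + 50) := by
  have h1 := exec_cp (O := O) (show 0 ≠ 1 by norm_num) (show 0 ≠ 2 by norm_num)
    (show 1 ≠ 2 by norm_num) x (st [x, [], [], [], [], []]) rfl
  rw [upd_st _ _ _ (by simp), upd_st _ _ _ (by simp), upd_st _ _ _ (by simp)] at h1
  have h2 := exec_mv (O := O) (show 2 ≠ 0 by norm_num) (x.reverse ++ [])
    (st [[], x.reverse ++ [], x.reverse ++ [], [], [], []]) rfl
  rw [upd_st _ _ _ (by simp), upd_st _ _ _ (by simp)] at h2
  have e2 : (st (([[], x.reverse ++ [], x.reverse ++ [], [], [], []].set 0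
      ((x.reverse ++ []).reverse ++ st [[], x.reverse ++ [], x.reverse ++ [], [], [], []] 0)).set
        2 [])) = st [x, x.reverse, [], [], [], []] := by
    simp [st]
  rw [e2] at h2
  have h3 := exec_push (O := O) 1 true (st [x, x.reverse, [], [], [], []])
  rw [upd_st _ _ _ (by simp)] at h3
  have h4 := exec_push (O := O) 1 true (st [x, true :: x.reverse, [], [], [], []])
  rw [upd_st _ _ _ (by simp)] at h4
  obtain ⟨w, h5, e5⟩ := exec_sqN (O := O) x [] ((x.length + 2) ^ (2 ^ B)) B
    (true :: true :: x.reverse) (by simp)
  have e5' : w.length = (x.length + 2) ^ (2 ^ B) := by rw [e5]; simp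
  have h6 := exec_push (O := O) 0 true (st [x, w, [], [], [], []])
  rw [upd_st _ _ _ (by simp)] at h6
  have h7 := exec_padl (O := O) [] w (true :: x)
  have h8 := exec_push (O := O) 0 false
    (st [List.replicate w.length false ++ true :: x, [], [], [], [], []])
  rw [upd_st _ _ _ (by simp)] at h8
  have h9 := exec_pushN (O := O) [] (j + 1)
    (false :: (List.replicate w.length false ++ true :: x))
  have e9 : List.replicate (j + 1) true ++ (false :: (List.replicate w.length false ++ true :: x))
      = code j B x := by
    rw [code, e5', List.replicate_succ]; simp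
  rw [e9] at h9
  have hall := h1.seq (h2.seq (h3.seq (h4.seq (h5.seq (h6.seq (h7.seq (h8.seq h9)))))))
  rw [← inp_st] at hall
  refine hall.mono ?_
  rw [e5']
  simp only [List.append_nil, List.length_reverse]
  omega

/-- ask `X` about the table entry with tag `t1 t2`, push the answer on register `3` -/
def ask (t1 t2 : Bool) : Prog :=
  Prog.seq (Prog.push 0 t2) (Prog.seq (Prog.push 0 t1) (Prog.seq (Prog.push 0 true)
    (Prog.seq (Prog.push 0 false) (Prog.seq (Prog.query 0 3) (Prog.seq (Prog.pop 0)
      (Prog.seq (Prog.pop 0) (Prog.seq (Prog.pop 0) (Prog.pop 0))))))))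

theorem exec_ask {X A : Lang} (t1 t2 : Bool) (R a1 a2 a3 a4 a5 : Str) :
    Exec (join X A) (ask t1 t2) (st [R, a1, a2, a3, a4, a5])
      (st [R, a1, a2, X (true :: t1 :: t2 :: R) :: a3, a4, a5]) 17 := by
  have h := (push_st (O := join X A) 0 t2 [R, a1, a2, a3, a4, a5] (by simp)).seq
    ((push_st 0 t1 [t2 :: R, a1, a2, a3, a4, a5] (by simp)).seq
    ((push_st 0 true [t1 :: t2 :: R, a1, a2, a3, a4, a5] (by simp)).seq
    ((push_st 0 false [true :: t1 :: t2 :: R, a1, a2, a3, a4, a5] (by simp)).seq
    ((query_st 0 3 [false :: true :: t1 :: t2 :: R, a1, a2, a3, a4, a5] (by simp)).seq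
    ((pop_st 0 [false :: true :: t1 :: t2 :: R, a1, a2,
      (join X A) (false :: true :: t1 :: t2 :: R) :: a3, a4, a5] (by simp)).seq
    ((pop_st 0 [true :: t1 :: t2 :: R, a1, a2,
      (join X A) (false :: true :: t1 :: t2 :: R) :: a3, a4, a5] (by simp)).seq
    ((pop_st 0 [t1 :: t2 :: R, a1, a2,
      (join X A) (false :: true :: t1 :: t2 :: R) :: a3, a4, a5] (by simp)).seq
    (pop_st 0 [t2 :: R, a1, a2,
      (join X A) (false :: true :: t1 :: t2 :: R) :: a3, a4, a5] (by simp)))))))))
  exact h

/-- copy the top bit of register `3` to register `r` -/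
def top (r : ℕ) : Prog := Prog.branch 3 (Prog.push r true) (Prog.push r false) Prog.skip

theorem exec_top (r : ℕ) (b : Bool) (a3 : Str) (l : List Str) (hr : r < l.length)
    (hl : l.getD 3 [] = b :: a3) :
    Exec O (top r) (st l) (st (l.set r (b :: l.getD r []))) 2 := by
  cases b
  · exact Exec.branch_false (l := a3) hl (push_st r false l hr)
  · exact Exec.branch_true (l := a3) hl (push_st r true l hr)

def haltP : Prog := Prog.seq (ask true false) (Prog.seq (top 0) (Prog.pop 2))

def askP : Prog := Prog.seq (Prog.pop 3) (Prog.seq (Prog.query 1 3) (Prog.seq (clr 1)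
  (Prog.seq (top 0) (Prog.seq (Prog.push 0 true) (Prog.pop 3)))))

def emitP : Prog := Prog.seq (Prog.pop 3) (Prog.seq (ask true false) (Prog.seq (top 1)
  (Prog.seq (Prog.pop 3) (Prog.seq (Prog.push 0 false) (Prog.push 0 true)))))

def body : Prog := Prog.seq (ask true true) (Prog.branch 3 haltP
  (Prog.seq (Prog.pop 3) (Prog.seq (ask false true) (Prog.branch 3 askP emitP Prog.skip)))
  Prog.skip)

theorem exec_body_halt {X A : Lang} (R u : Str) (h : X (true :: true :: true :: R) = true) :
    Exec (join X A) body (st [R, u, [true], [], [], []])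
      (st [X (true :: true :: false :: R) :: R, u, [],
        [X (true :: true :: false :: R), true], [], []]) 50 := by
  have h1 := exec_ask (X := X) (A := A) true true R u [true] [] [] []
  rw [h] at h1
  have h2 := exec_ask (X := X) (A := A) true false R u [true] [true] [] []
  have h3 := exec_top (O := join X A) 0 (X (true :: true :: false :: R)) [true]
    [R, u, [true], [X (true :: true :: false :: R), true], [], []] (by simp) rfl
  have h4 := pop_st (O := join X A) 2 [X (true :: true :: false :: R) :: R, u, [true],
    [X (true :: true :: false :: R), true], [], []] (by simp)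
  have h5 : Exec (join X A) haltP (st [R, u, [true], [true], [], []])
      (st [X (true :: true :: false :: R) :: R, u, [],
        [X (true :: true :: false :: R), true], [], []]) 25 :=
    (h2.seq (h3.seq h4)).mono (by norm_num)
  exact (h1.seq (Exec.branch_true (l := []) rfl h5)).mono (by norm_num)

theorem exec_body_ask {X A : Lang} (R u : Str) (h : X (true :: true :: true :: R) = false)
    (h' : X (true :: false :: true :: R) = true) :
    Exec (join X A) body (st [R, u, [true], [], [], []])
      (st [true :: (join X A) u :: R, [], [true], [], [], []]) (2 * u.length + 60) := by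
  have h1 := exec_ask (X := X) (A := A) true true R u [true] [] [] []
  rw [h] at h1
  have h2 := pop_st (O := join X A) 3 [R, u, [true], [false], [], []] (by simp)
  have h3 := exec_ask (X := X) (A := A) false true R u [true] [] [] []
  rw [h'] at h3
  have h4 := pop_st (O := join X A) 3 [R, u, [true], [true], [], []] (by simp)
  have h5 := query_st (O := join X A) 1 3 [R, u, [true], [], [], []] (by simp)
  have h6 := clr_st (O := join X A) 1 [R, u, [true], [(join X A) u], [], []] (by simp)
  have h7 := exec_top (O := join X A) 0 ((join X A) u) []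
    [R, [], [true], [(join X A) u], [], []] (by simp) rfl
  have h8 := push_st (O := join X A) 0 true
    [(join X A) u :: R, [], [true], [(join X A) u], [], []] (by simp)
  have h9 := pop_st (O := join X A) 3
    [true :: (join X A) u :: R, [], [true], [(join X A) u], [], []] (by simp)
  have h10 : Exec (join X A) askP (st [R, u, [true], [true], [], []])
      (st [true :: (join X A) u :: R, [], [true], [], [], []]) (2 * u.length + 12) :=
    (h4.seq (h5.seq (h6.seq (h7.seq (h8.seq h9))))).mono (by
      simp only [List.getD_cons_succ, List.getD_cons_zero]; omega)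
  exact (h1.seq (Exec.branch_false (l := []) rfl (h2.seq (h3.seq
    (Exec.branch_true (l := []) rfl h10))))).mono (by omega)

theorem exec_body_emit {X A : Lang} (R u : Str) (h : X (true :: true :: true :: R) = false)
    (h' : X (true :: false :: true :: R) = false) :
    Exec (join X A) body (st [R, u, [true], [], [], []])
      (st [true :: false :: R, X (true :: true :: false :: R) :: u, [true], [], [], []])
        70 := by
  have h1 := exec_ask (X := X) (A := A) true true R u [true] [] [] []
  rw [h] at h1
  have h2 := pop_st (O := join X A) 3 [R, u, [true], [false], [], []] (by simp)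
  have h3 := exec_ask (X := X) (A := A) false true R u [true] [] [] []
  rw [h'] at h3
  have h4 := pop_st (O := join X A) 3 [R, u, [true], [false], [], []] (by simp)
  have h5 := exec_ask (X := X) (A := A) true false R u [true] [] [] []
  have h6 := exec_top (O := join X A) 1 (X (true :: true :: false :: R)) []
    [R, u, [true], [X (true :: true :: false :: R)], [], []] (by simp) rfl
  have h7 := pop_st (O := join X A) 3
    [R, X (true :: true :: false :: R) :: u, [true], [X (true :: true :: false :: R)], [], []]
    (by simp)
  have h8 := push_st (O := join X A) 0 false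
    [R, X (true :: true :: false :: R) :: u, [true], [], [], []] (by simp)
  have h9 := push_st (O := join X A) 0 true
    [false :: R, X (true :: true :: false :: R) :: u, [true], [], [], []] (by simp)
  have h10 : Exec (join X A) emitP (st [R, u, [true], [false], [], []])
      (st [true :: false :: R, X (true :: true :: false :: R) :: u, [true], [], [], []]) 28 :=
    (h4.seq (h5.seq (h6.seq (h7.seq (h8.seq h9))))).mono (by norm_num)
  exact (h1.seq (Exec.branch_false (l := []) rfl (h2.seq (h3.seq
    (Exec.branch_false (l := []) rfl h10))))).mono (by norm_num)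

theorem exec_walk {X A : Lang} (j B : ℕ) (x : Str) : ∀ (n : ℕ) (w u : Str) (b : Bool),
    walk j B X (join X A) x n w u = some b →
    ∃ s' : ℕ → Str, Exec (join X A) (Prog.loop 2 body)
      (st [enc w ++ false :: code j B x, u, [true], [], [], []]) s'
        ((n + 1) * (80 + 2 * (u.length + n))) ∧ (s' 0).head? = some b
  | 0, w, u, b, h => by simp [walk] at h
  | n + 1, w, u, b, h => by
      set R := enc w ++ false :: code j B x with hR
      rw [walk] at h
      unfold tab at h
      rw [← hR] at h
      by_cases h1 : X (true :: true :: true :: R) = true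
      · rw [if_pos h1] at h
        have h2 := exec_body_halt (A := A) R u h1
        refine ⟨_, (Exec.loop_cons (by simp [st]) h2 (exec_loop_nil rfl)).mono ?_, ?_⟩
        · nlinarith
        · exact h
      · rw [if_neg h1] at h
        rw [Bool.not_eq_true] at h1
        by_cases h2 : X (true :: false :: true :: R) = true
        · rw [if_pos h2] at h
          have h3 := exec_body_ask (A := A) R u h1 h2
          obtain ⟨s', h4, h5⟩ := exec_walk j B x n _ _ b h
          refine ⟨s', (Exec.loop_cons (by simp [st]) h3 h4).mono ?_, h5⟩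
          simp only [List.length_nil]
          nlinarith
        · rw [if_neg h2] at h
          rw [Bool.not_eq_true] at h2
          have h3 := exec_body_emit (A := A) R u h1 h2
          obtain ⟨s', h4, h5⟩ := exec_walk j B x n _ _ b h
          refine ⟨s', (Exec.loop_cons (by simp [st]) h3 h4).mono ?_, h5⟩
          simp only [List.length_cons]
          nlinarith

/-- the whole program -/
def prog (j B : ℕ) : Prog :=
  Prog.seq (pre j B) (Prog.seq (Prog.push 0 false) (Prog.seq (Prog.push 2 true)
    (Prog.loop 2 body)))

end Wk

/-- MODULE Walk -/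
theorem walk_mem {X A L : Lang} (j B : ℕ)
    (h : ∀ x, walk j B X (join X A) x ((x.length + 2) ^ (2 ^ (B + 5))) [] [] = some (L x)) :
    L ∈ PO (join X A) := by
  refine ⟨Wk.prog j B, (12 * Polynomial.X + Polynomial.C B * (31 *
    ((Polynomial.X + 2) ^ (2 ^ B) + 1) ^ 2) + 4 * (Polynomial.X + 2) ^ (2 ^ B) +
    Polynomial.C (2 * j) + 50) + (((Polynomial.X + 2) ^ (2 ^ (B + 5)) + 1) *
      (80 + 2 * (Polynomial.X + 2) ^ (2 ^ (B + 5)))) + 10, fun x => ?_⟩
  simp only [Polynomial.eval_add, Polynomial.eval_mul, Polynomial.eval_X, Polynomial.eval_ofNat,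
    Polynomial.eval_one, Polynomial.eval_C, Polynomial.eval_pow]
  have h1 := Wk.exec_pre (O := join X A) j B x
  have h2 := Wk.push_st (O := join X A) 0 false [code j B x, [], [], [], [], []] (by simp)
  have h3 := Wk.push_st (O := join X A) 2 true [false :: code j B x, [], [], [], [], []]
    (by simp)
  obtain ⟨s', h4, h5⟩ := Wk.exec_walk (A := A) j B x _ _ _ _ (h x)
  have h6 : Exec (join X A) (Wk.prog j B) (inp x) s' _ := h1.seq (h2.seq (h3.seq h4))
  obtain ⟨h7, h8⟩ := h6.halts (N := 12 * x.length + B * (31 * ((x.length + 2) ^ (2 ^ B) + 1) ^ 2) +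
      4 * (x.length + 2) ^ (2 ^ B) + 2 * j + 50 + (((x.length + 2) ^ (2 ^ (B + 5)) + 1) *
      (80 + 2 * (x.length + 2) ^ (2 ^ (B + 5)))) + 10) (by
        simp only [List.length_nil, Nat.zero_add]
        omega)
  refine ⟨h7, Eq.trans ?_ h8.symm⟩
  rw [h5]
  cases L x <;> rfl

end Pool.Agent.Lib.Pa76659H
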