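import Pool.Agent.Lib.Pa76659H.Drive
import Pool.Agent.Lib.Pa76659H.Walk

/-!
The scale lemma and the collapse of the high hierarchy.
-/

set_option maxHeartbeats 4000000

namespace Pool.Agent.Lib.Pa76659H

open Pool.Agent.Lib.Pa76659 Pool.Agent.Lib.Pa76659.Hier

noncomputable instance : Inhabited Col :=
  ⟨⟨0, (Prog.skip, 0, 0), (Prog.skip, 0, 0), 0, (Prog.skip, 0), [], 0, 0, 0, 0⟩⟩

theorem scaleLemma : ScaleLemma := by
  classical
  intro q hq p l hl
  by_contra hcon
  push Not at hcon
  set J := q.cols.length with hJ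
  set col : ℕ → Col := fun i => q.cols.getD i default with hcoldef
  have hcolget : ∀ i (hi : i < J), col i = q.cols[i] := by
    intro i hi
    simp only [hcoldef]
    exact List.getD_eq_getElem _ _ hi
  have hmemcol : ∀ i < J, col i ∈ q.cols := by
    intro i hi
    rw [hcolget i hi]
    exact List.getElem_mem _
  set k : ℕ → ℕ := fun i => if i < J then (col i).l.length else l.length with hk
  obtain ⟨bM, hM⟩ := sEval_isC p l
  obtain ⟨m1, hm1⟩ := list_bound q.cols (fun c n => c.m ≤ n) (fun c _ => ⟨c.m, fun n hn => hn⟩)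
  obtain ⟨j1, hj1⟩ := list_bound q.cols (fun c n => 2 * (c.j + 7) ≤ n)
    (fun c _ => ⟨2 * (c.j + 7), fun n hn => hn⟩)
  set mJ := m1 + 2 * bM + 5 with hmJ
  set kk := ∑ i ∈ Finset.range (J + 1), k i with hkk
  obtain ⟨a, ha⟩ := exists_exponents J k (8 + 4 * (2 * J + mJ))
  set cc := 1 + ∑ i ∈ Finset.range (J + 1), ∑ h ∈ Finset.range (k i), seqE (a i) h with hcc
  obtain ⟨X0, hX0⟩ := exists_mem hq.1
  obtain ⟨n0, hn0⟩ := exists_frz hq.1 hX0
  obtain ⟨ν, n, N, hn, hNm⟩ := exists_nm J kk mJ cc (n0 + j1) (by omega)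
  obtain ⟨hqn, hwf⟩ := hn0 n (by omega)
  have hPP := hq.frz hX0 hqn hwf
  set Γ : Ctx := ⟨frz q X0 n, J, col, k, N, ν⟩ with hΓdef
  have hpair := List.pairwise_iff_getElem.1 hq.1.sorted
  have hn16 := hNm.T16.1
  have hccb : ∀ i ≤ J, ∀ h < k i, seqE (a i) h ≤ cc := by
    intro i hi h hh
    have h1 : seqE (a i) h ≤ ∑ h ∈ Finset.range (k i), seqE (a i) h :=
      Finset.single_le_sum (f := fun h => seqE (a i) h) (fun _ _ => Nat.zero_le _)
        (Finset.mem_range.2 hh)
    have h2 : ∑ h ∈ Finset.range (k i), seqE (a i) h ≤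
        ∑ i ∈ Finset.range (J + 1), ∑ h ∈ Finset.range (k i), seqE (a i) h :=
      Finset.single_le_sum (f := fun i => ∑ h ∈ Finset.range (k i), seqE (a i) h)
        (fun _ _ => Nat.zero_le _) (Finset.mem_range.2 (by omega))
    omega
  have hkkb : ∀ i ≤ J, k i ≤ kk := fun i hi =>
    Finset.single_le_sum (f := k) (fun _ _ => Nat.zero_le _) (Finset.mem_range.2 (by omega))
  have hΓ : Γ.OK := by
    refine ⟨hwf, ?_, ?_, ?_, ?_, ?_, ?_⟩
    · intro c
      show c ∈ q.cols ↔ ∃ i < J, c = col i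
      constructor
      · intro hc
        obtain ⟨i, hi, rfl⟩ := List.getElem_of_mem hc
        exact ⟨i, hi, (hcolget i hi).symm⟩
      · rintro ⟨i, hi, rfl⟩
        exact hmemcol i hi
    · intro i hi i' hi' he
      have hi : i < J := hi
      have hi' : i' < J := hi'
      have he : (col i).j = (col i').j := he
      rw [hcolget i hi, hcolget i' hi'] at he
      rcases lt_trichotomy i i' with h1 | h1 | h1
      · have := (hpair i i' hi hi' h1).2
        omega
      · exact h1
      · have := (hpair i' i hi' hi h1).2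
        omega
    · intro i i' hii hi'
      have hi' : i' < J := hi'
      show (col i).m ≤ (col i').m
      rcases hii.eq_or_lt with rfl | h1
      · exact le_rfl
      · rw [hcolget i (by omega), hcolget i' hi']
        exact (hpair i i' (by omega) hi' h1).1
    · intro i hi
      have hi : i < J := hi
      show k i = (col i).l.length
      simp only [hk, hi, if_true]
    · intro i hi
      show 1 ≤ k i
      simp only [hk]
      split_ifs with h1
      · have h2 := (hq.1.gd _ (hmemcol i h1)).hl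
        exact List.length_pos_of_ne_nil h2
      · exact List.length_pos_of_ne_nil hl
    · show 3 ≤ n
      omega
  have hmJb : ∀ i < Γ.J, (Γ.col i).m ≤ mJ := by
    intro i hi
    have := hm1 m1 le_rfl _ (hmemcol i hi)
    show (col i).m ≤ mJ
    omega
  have hjb : ∀ i < Γ.J, 2 * ((Γ.col i).j + 7) ≤ Γ.n := by
    intro i hi
    have := hj1 j1 le_rfl _ (hmemcol i hi)
    show 2 * ((col i).j + 7) ≤ n
    omega
  have hJust : ∀ i < Γ.J, Just Γ.q (Γ.col i) := fun i hi => hPP.2 _ (hmemcol i hi)
  have hkJ : Γ.k Γ.J = l.length := by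
    show (if J < J then (col J).l.length else l.length) = l.length
    rw [if_neg (lt_irrefl _)]
  have hX : ∀ X, Mem Γ.q X → ∀ s, sEval p l X s = QQ (l.length + 1) X s :=
    fun X hX => hcon X (frz_mem hX0.1 hqn hX)
  have hbM : 2 * bM + 5 ≤ 2 ^ mJ := by
    have : mJ < 2 ^ mJ := Nat.lt_two_pow_self
    omega
  obtain ⟨YY, R, hI⟩ := start hΓ (shp N (fun i h => seqE (a i) h)) (by
      intro i hi
      have hi : i ≤ J := hi
      show i + 2 ≤ n
      have := hNm.hn
      omega) (by
      show N ≤ 2 ^ n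
      have := hNm.hcc 1 (by omega)
      rwa [pow_one] at this) (by
      intro i hi h hh
      exact hNm.hcc _ (hccb i hi h hh))
  refine run hΓ hNm hkkb hmJb hjb hJust a hccb p l hkJ bM hM hX hbM (2 * J + mJ) 0 0
    (fun i h => seqE (a i) h) _ YY R hI ?_ (fun _ _ _ => rfl) (fun i => le_rfl) ?_ (Nat.zero_le _)
  · show 2 * J + mJ = 2 * (J - 0) + (mJ - 0)
    omega
  · intro i
    exact ha i

theorem highCollapse : ∃ X : Lang, (∀ k, Sig X k ≠ Sig X (k + 1)) ∧
    (∀ k, High X k = TComp X) ∧ (∀ k, RHighSucc X k = TComp X) :=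
  highCollapse_of scaleLemma (fun _ _ _ j B h => walk_mem j B h)

end Pool.Agent.Lib.Pa76659H
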