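import Pool.Agent.Lib.Pa76659H.Frame
import Pool.Agent.Lib.Pa76659H.Thin

/-!
Restriction of a family of worlds, and the step to the next level.
-/

set_option maxHeartbeats 4000000
set_option linter.unusedSectionVars false

namespace Pool.Agent.Lib.Pa76659H

open Pool.Agent.Lib.Pa76659 Pool.Agent.Lib.Pa76659.Hier

/-- properties of the patch map -/
theorem patch_sel {α : Type} {I : Finset ℕ} {k : ℕ → ℕ} {m : ℕ → ℕ → ℕ} {G : ℕ} {ch : Var → ℕ}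
    (x0 z : Var → α) (hG : 1 ≤ G)
    (hch : ∀ i u g, Vld I k (thinM G m) (i, g :: u) →
      g * G ≤ ch (i, g :: u) ∧ ch (i, g :: u) < (g + 1) * G)
    {i g : ℕ} {u : List ℕ} (h : Vld I k (thinM G m) (i, g :: u)) :
    ch (i, g :: u) / G = g ∧
    patch I k m G ch x0 z (i, ch (i, g :: u) :: u) = z (i, g :: u) ∧
    Vld I k m (i, ch (i, g :: u) :: u) := by
  obtain ⟨h1, h2⟩ := hch i u g h
  have h3 : ch (i, g :: u) / G = g := by
    rw [Nat.div_eq_iff (by omega)]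
    constructor
    · rw [mul_comm] at h1 ⊢; omega
    · rw [show (g + 1) * G = g * G + G by ring] at h2
      rw [mul_comm g G] at h2
      have : G * g = g * G := mul_comm _ _
      omega
  refine ⟨h3, ?_, Thin.vld_old h h2⟩
  simp only [patch]
  rw [if_pos ⟨by rw [h3]; exact h, by rw [h3]⟩, h3]

section

variable {Γ : Ctx} (hΓ : Γ.OK) {i0 lv : ℕ} {m : ℕ → ℕ → ℕ}
  {τ : ℕ → Str → Option (DT Str Bool)} {YY : Γ.W → Lang} {R : ℕ → Var → DT Str (Option (Fin Γ.N))}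

include hΓ

/-- the patch map does not change the values of the trees -/
theorem patch_tr {G : ℕ} {ch : Var → ℕ} {x0 : Γ.W} (hG : 1 ≤ G) (hx0 : ∀ v, (x0 v).isSome)
    (hch : ∀ i u g, Vld (Finset.Icc i0 Γ.J) Γ.k (thinM G m) (i, g :: u) →
      g * G ≤ ch (i, g :: u) ∧ ch (i, g :: u) < (g + 1) * G) (i : ℕ) (hi : i ∈ Finset.Icc i0 Γ.J)
    (z : Γ.W) :
    tr (m i) (Γ.k i) (fun u => (patch (Finset.Icc i0 Γ.J) Γ.k m G ch x0 z (i, u)).isSome) [] =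
      tr (thinM G m i) (Γ.k i) (fun u => (z (i, u)).isSome) [] := by
  have hk1 := hΓ.hk1 i (Finset.mem_Icc.1 hi).2
  apply tr_thin _ hk1
  · intro u hu hv
    have hvld : ∀ g, g < m i 0 / G → Vld (Finset.Icc i0 Γ.J) Γ.k (thinM G m) (i, g :: u) := by
      intro g hg
      refine ⟨hi, by simpa using hu, ?_, (Thin.VP_thinM u 1 le_rfl).2 hv⟩
      rw [Thin.thinM_zero]; exact hg
    constructor
    · rintro ⟨a, ha, h1⟩
      simp only [patch] at h1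
      split_ifs at h1 with h2
      · exact ⟨a / G, h2.1.2.2.1, h1⟩
      · have := hx0 (i, a :: u)
        rw [h1] at this
        simp at this
    · rintro ⟨g, hg, h1⟩
      rw [Thin.thinM_zero] at hg
      obtain ⟨h2, h3, h4⟩ := patch_sel x0 z hG hch (hvld g hg)
      exact ⟨_, h4.2.2.1, by rw [h3]; exact h1⟩
  · intro j hj
    unfold thinM
    rw [Function.update_of_ne (by omega)]

theorem Inv.thinning (h : Inv Γ i0 lv m τ YY R) {Θ : Type} [Fintype Θ] (f : Θ → Γ.W → Bool)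
    (Rr w s A c G : ℕ) (hN : 1 ≤ Γ.N)
    (hf : ∀ θ x, f θ x = true → ∃ (T : List Var) (Γ' : Var → Set (Option (Fin Γ.N))),
      T.length ≤ w ∧ (∀ v ∈ T, Γ.P i0 m v) ∧ (∀ v ∈ T, x v ∈ Γ' v) ∧
      (∀ v ∈ T, ∃ y, some y ∈ Γ' v) ∧ ∀ y, (∀ v ∈ T, y v ∈ Γ' v) → f θ y = true)
    (hΘ : Fintype.card Θ ≤ 2 ^ A) (hs : A + 1 ≤ s) (hR : 4 * w * (Γ.N + 1) * Γ.N + 1 ≤ Rr)
    (hG : (Rr + 1) * c ≤ G) (hG0 : 1 ≤ G)
    (hc : 4 * (names (Finset.Icc i0 Γ.J) Γ.k (thinM G m)).card ≤ 2 ^ c) :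
    ∃ (ρ : Γ.W → Γ.W) (R' : ℕ → Var → DT Str (Option (Fin Γ.N))),
      Inv Γ i0 lv (thinM G m) τ (fun z => YY (ρ z)) R' ∧
      ∀ θ, ∃ T : MT Var (Option (Fin Γ.N)) Bool, T.dle s ∧ ∀ z, f θ (ρ z) = T.eval z := by
  obtain ⟨x0, ch, hx0, hch, hT⟩ := thin Γ.N Rr w s A c G (Finset.Icc i0 Γ.J) Γ.k m
    (fun i hi => hΓ.hk1 i (Finset.mem_Icc.1 hi).2) f hN hf hΘ hs hR hG hG0 hc
  refine ⟨fun z => patch (Finset.Icc i0 Γ.J) Γ.k m G ch x0 z, fun i v => match v with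
    | (j, []) => R i (j, [])
    | (j, g :: u) => R i (j, ch (j, g :: u) :: u), ?_, hT⟩
  refine h.reparam hΓ le_rfl h.le (fun i hi => (h.lvl i hi).1) _ ?_ ?_ ?_
  · rintro ⟨i, u⟩ hv
    obtain ⟨h1, h2, h3⟩ := hv
    have hk1 := hΓ.hk1 i (Finset.mem_Icc.1 h1).2
    rcases u with _ | ⟨a, u⟩
    · simp only [List.length_nil] at h2
      omega
    · by_cases hc : Vld (Finset.Icc i0 Γ.J) Γ.k (thinM G m) (i, (a / G) :: u) ∧
        a = ch (i, (a / G) :: u)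
      · right
        refine ⟨(i, (a / G) :: u), hc.1, Or.inl fun z => ?_⟩
        simp only [patch]
        rw [if_pos hc]
      · left
        refine ⟨x0 (i, a :: u), fun z => ?_⟩
        simp only [patch]
        rw [if_neg hc]
  · exact fun i hi z => patch_tr hΓ hG0 hx0 hch i hi z
  · rintro i hi ⟨j, u⟩ hv
    have hk1 := hΓ.hk1 j (Finset.mem_Icc.1 hv.1).2
    rcases u with _ | ⟨g, u⟩
    · have := hv.2.1
      simp only [List.length_nil] at this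
      omega
    · obtain ⟨h2, h3, h4⟩ := patch_sel x0 x0 hG0 hch hv
      obtain ⟨a1, a2, a3⟩ := h.read i hi _ h4
      refine ⟨fun z => ?_, a2, a3⟩
      obtain ⟨h2, h3, h4⟩ := patch_sel x0 z hG0 hch hv
      rw [a1, h3]

/-- strings of length less than `L` -/
abbrev SLt (L : ℕ) : Type := Σ n : Fin L, List.Vector Bool n

omit hΓ in
theorem card_SLt (L : ℕ) : Fintype.card (SLt L) ≤ 2 ^ L := by
  rw [Fintype.card_sigma]
  simp only [card_vector, Fintype.card_bool]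
  rw [Fin.sum_univ_eq_sum_range (fun n => 2 ^ n) L]
  have := Nat.geomSum_eq (m := 2) (by norm_num) L
  rw [this]
  simp

omit hΓ in
theorem exists_SLt {L : ℕ} (y : Str) (hy : y.length < L) : ∃ t : SLt L, t.2.1 = y :=
  ⟨⟨⟨y.length, hy⟩, ⟨y, rfl⟩⟩, rfl⟩

theorem Inv.level (h : Inv Γ i0 lv m τ YY R) (hlv : ∀ i < Γ.J, i0 ≤ i → lv + 1 ≤ (Γ.col i).m)
    (Rr c G : ℕ) (hR : 4 * Γ.V (lv + 1) * (Γ.N + 1) * Γ.N + 1 ≤ Rr)
    (hVN : Γ.V (lv + 1) < Γ.N)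
    (hG : (Rr + 1) * c ≤ G) (hG0 : 1 ≤ G)
    (hc : 4 * (names (Finset.Icc i0 Γ.J) Γ.k (thinM G m)).card ≤ 2 ^ c)
    (hJ : Γ.J + 1 ≤ Γ.n) (hν : Γ.ν + 1 ≤ Γ.n) (hj : ∀ i < Γ.J, 2 * ((Γ.col i).j + 7) ≤ Γ.n)
    (hn : 16 ≤ Γ.n) :
    ∃ (τ' : ℕ → Str → Option (DT Str Bool)) (ρ : Γ.W → Γ.W)
      (R' : ℕ → Var → DT Str (Option (Fin Γ.N))),
      Inv Γ i0 (lv + 1) (thinM G m) τ' (fun z => YY (ρ z)) R' := by
  classical
  have hnV := hΓ.n_le_V lv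
  have hVV : Γ.V (lv + 1) = Γ.V lv ^ 2 := by
    unfold Ctx.V
    rw [← pow_mul, pow_succ]
  have hview : ∀ i < Γ.J, ∀ y, tl (Γ.col i) y < Γ.V (lv + 1) →
      (y.length + 2) ^ (Γ.col i).bI < Γ.V lv := by
    intro i hi y hy
    have h1 := (hΓ.gd hi).view y (List.replicate ((y.length + 2) ^ (Γ.col i).bI) true) (by simp)
    rw [List.length_replicate] at h1
    set v := (y.length + 2) ^ (Γ.col i).bI
    have h2 : v ^ 2 ≤ v ^ (2 ^ ((Γ.col i).m + 1)) := by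
      rcases Nat.eq_zero_or_pos v with h3 | h3
      · rw [h3]; simp
      · apply Nat.pow_le_pow_right h3
        rw [pow_succ]
        have : 1 ≤ 2 ^ (Γ.col i).m := Nat.one_le_two_pow
        omega
    rw [hVV] at hy
    exact lt_of_pow_lt_pow_left₀ 2 (Nat.zero_le _) (by omega)
  let f : Fin Γ.J × SLt (Γ.V (lv + 1)) → Γ.W → Bool := fun θ x =>
    if tl (Γ.col θ.1) θ.2.2.1 < Γ.V (lv + 1) then
      nEval (Γ.col θ.1).i (Γ.F τ YY x) θ.2.2.1 else false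
  obtain ⟨ρ, R', h1, h2⟩ := h.thinning hΓ f Rr (Γ.V (lv + 1)) (Γ.V (lv + 1) + Γ.J + 1)
    (Γ.V (lv + 1) + Γ.J) c G (by omega) (by
      rintro ⟨i, y⟩ x hx
      simp only [f] at hx
      split_ifs at hx with hy
      have hi := i.2
      have h3 := hview i hi y.2.1 hy
      obtain ⟨T, Γ', a1, a2, a3, a4, a5⟩ := cert_ne (Γ.P i0 m) (Γ.F τ YY) (Γ.V lv)
        (Γ.V (lv + 1)) (fun v hv => h.bits hΓ v hv) (Γ.col i).i (hΓ.gd hi).hI y.2.1 h3
        (h3.le.trans (by rw [hVV]; exact Nat.le_self_pow (by norm_num) _)) hVN x hx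
      refine ⟨T, Γ', a1, a2, a3, a4, fun z hz => ?_⟩
      simp only [f]
      rw [if_pos hy]
      exact a5 z hz) (by
      rw [Fintype.card_prod, Fintype.card_fin]
      have h3 := card_SLt (Γ.V (lv + 1))
      have h4 : Γ.J ≤ 2 ^ Γ.J := Nat.lt_two_pow_self.le
      calc _ ≤ 2 ^ Γ.J * 2 ^ Γ.V (lv + 1) := Nat.mul_le_mul h4 h3
        _ = 2 ^ (Γ.V (lv + 1) + Γ.J) := by rw [← pow_add, add_comm]) le_rfl hR hG hG0 hc
  have h3 := h1.up hΓ hlv (Γ.V (lv + 1) + Γ.J + 1) (by omega) (by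
    intro i hi hi0 y hy1 hy2
    obtain ⟨t, ht⟩ := exists_SLt y (L := Γ.V (lv + 1)) (by
      have := tl_large (Γ.col i) y
      omega)
    obtain ⟨T, hT1, hT2⟩ := h2 (⟨i, hi⟩, t)
    refine ⟨T, hT1, fun x => ?_⟩
    rw [← hT2 x]
    simp only [f, ht]
    rw [if_pos hy2]
    rfl) (by
    intro i hi hi0 y hy
    refine le_trans ?_ (fuel_large hΓ (V := Γ.V lv) (by omega) ((hj i hi).trans hnV) hy)
    have hb : Γ.n ^ (Γ.col i).bM ≤ Γ.V lv := by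
      have h4 : Γ.n ^ (Γ.col i).bM < Γ.n ^ (2 ^ (Γ.col i).m) := (hΓ.gd hi).lev1 hΓ.hn3
      have h5 : Γ.n ^ (2 ^ (Γ.col i).m) ≤ Γ.V lv := by
        unfold Ctx.V
        apply Nat.pow_le_pow_right (by omega)
        exact Nat.pow_le_pow_right (by norm_num) ((h.lvl i hi).1 hi0)
      omega
    rw [hVV]
    set V := Γ.V lv with hV
    set b := Γ.n ^ (Γ.col i).bM with hbdef
    have e1 : V ^ 2 + Γ.J + 1 ≤ V ^ 3 := by nlinarith
    have e2 : (Γ.ν + 1) * b ≤ V * V := Nat.mul_le_mul (by omega) hb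
    have e3 : b + 1 ≤ V ^ 2 := by nlinarith
    have e4 : V ^ 3 * (V * V) * V ^ 2 + 1 ≤ V ^ 16 := by
      have : V ^ 3 * (V * V) * V ^ 2 = V ^ 7 := by ring
      rw [this]
      have h8 : V ^ 16 = V ^ 7 * V ^ 9 := by ring
      rw [h8]
      have h9 : 2 ≤ V ^ 9 := by
        calc 2 ≤ V ^ 1 := by rw [pow_one]; omega
          _ ≤ V ^ 9 := Nat.pow_le_pow_right (by omega) (by norm_num)
      have h10 : 1 ≤ V ^ 7 := Nat.one_le_pow _ _ (by omega)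
      nlinarith
    calc _ ≤ V ^ 3 * (V * V) * V ^ 2 + 1 := by
          apply Nat.add_le_add_right
          exact Nat.mul_le_mul (Nat.mul_le_mul e1 e2) e3
      _ ≤ _ := e4)
  obtain ⟨τ', h4⟩ := h3
  exact ⟨τ', ρ, R', h4⟩

end

end Pool.Agent.Lib.Pa76659H
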