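import Pool.Agent.Lib.Pa76659H.Base

/-!
A switching lemma for multi-valued decision trees (Håstad's lemma by injective coding).
-/

set_option linter.unusedSectionVars false
set_option linter.unusedVariables false

namespace Pool.Agent.Lib.Pa76659H.Sw

open Pool.Agent.Lib.Pa76659 Pool.Agent.Lib.Pa76659H

open Classical

variable {ι α : Type} {N R : ℕ} (r : Fin N → α)

/-- a term: a list of variables with constraints -/
abbrev Term (ι α : Type) := List ι × (ι → Set α)

/-- value of a variable: live variables are read from `x` -/
noncomputable def val (κ : ι → Fin (R + 1)) (ξ : ι → Fin N) (x : ι → α) (i : ι) : α :=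
  if κ i = 0 then x i else r (ξ i)

/-- value known under the partial information `π` -/
noncomputable def fv (κ : ι → Fin (R + 1)) (ξ : ι → Fin N) (π : ι → Option α) (i : ι) :
    Option α :=
  if κ i = 0 then π i else some (r (ξ i))

def killed (κ : ι → Fin (R + 1)) (ξ : ι → Fin N) (π : ι → Option α) (T : Term ι α) : Prop :=
  ∃ i ∈ T.1, ∃ z, fv r κ ξ π i = some z ∧ z ∉ T.2 i

def evalT (T : Term ι α) (x : ι → α) : Prop := ∀ i ∈ T.1, x i ∈ T.2 i

def evalF (F : List (Term ι α)) (x : ι → α) : Prop := ∃ T ∈ F, evalT T x

def Cons (π : ι → Option α) (x : ι → α) : Prop := ∀ i z, π i = some z → x i = z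

/-- no decision tree of depth less than `s` computes `F` -/
def Hard (F : List (Term ι α)) (κ : ι → Fin (R + 1)) (ξ : ι → Fin N) (π : ι → Option α)
    (s : ℕ) : Prop :=
  ¬ ∃ (D : MT ι α Bool) (d : ℕ), d < s ∧ D.dle d ∧
    ∀ x, Cons π x → (D.eval x = true ↔ evalF F (val r κ ξ x))

/-- position, answer, last entry of the stage -/
abbrev Info (α : Type) := ℕ × α × Bool

def stageOf : List (Info α) → List (Info α) × List (Info α)
  | [] => ([], [])
  | i :: I => if i.2.2 = true then ([i], I) else (i :: (stageOf I).1, (stageOf I).2)

theorem stageOf_false (A : List (Info α)) (h : ∀ i ∈ A, i.2.2 = false) :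
    stageOf A = (A, []) := by
  induction A with
  | nil => rfl
  | cons i A ih =>
      have h1 := h i (by simp)
      have h2 := ih (fun j hj => h j (by simp [hj]))
      simp [stageOf, h1, h2]

theorem stageOf_append (A : List (Info α)) (h : ∀ i ∈ A, i.2.2 = false) (j : Info α)
    (hj : j.2.2 = true) (I : List (Info α)) : stageOf (A ++ j :: I) = (A ++ [j], I) := by
  induction A with
  | nil => simp [stageOf, hj]
  | cons i A ih =>
      have h1 := h i (by simp)
      have h2 := ih (fun j hj => h j (by simp [hj]))
      simp [stageOf, h1, h2]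

def entsOf (T : Term ι α) (S : List (Info α)) : List ι :=
  S.filterMap (fun i => T.1[i.1]?)

noncomputable def updOf (T : Term ι α) (S : List (Info α)) (π : ι → Option α) : ι → Option α :=
  fun b => match S.find? (fun i => decide (T.1[i.1]? = some b)) with
    | some i => some i.2.1
    | none => π b

noncomputable def zero (κ : ι → Fin (R + 1)) (es : List ι) : ι → Fin (R + 1) :=
  fun e => if e ∈ es then 0 else κ e

/-- the decoder -/
noncomputable def dec : List (Term ι α) → (ι → Fin (R + 1)) → (ι → Fin N) → (ι → Option α) →
    List (Info α) → List ι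
  | [], _, _, _, _ => []
  | T :: F, κ, ξ, π, I =>
      if I = [] then []
      else if killed r κ ξ π T then dec F κ ξ π I
      else entsOf T (stageOf I).1 ++
        dec F (zero κ (entsOf T (stageOf I).1)) ξ (updOf T (stageOf I).1 π) (stageOf I).2

/-- query all the variables in a list -/
noncomputable def queryAll {β : Type} (k : (ι → α) → MT ι α β) : List ι → (ι → α) → MT ι α β
  | [], acc => k acc
  | i :: l, acc => MT.node i (fun z => queryAll k l (Function.update acc i z))

theorem queryAll_eval {β : Type} (k : (ι → α) → MT ι α β) (x : ι → α) :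
    ∀ (l : List ι) (acc : ι → α),
      (queryAll k l acc).eval x = (k (fun i => if i ∈ l then x i else acc i)).eval x
  | [], acc => by simp [queryAll]
  | i :: l, acc => by
      simp only [queryAll, MT.eval]
      rw [queryAll_eval]
      congr 2
      funext b'
      by_cases h1 : b' ∈ l
      · simp [h1]
      · by_cases h2 : b' = i
        · subst h2; simp [h1]
        · simp [h1, h2]

theorem queryAll_dle {β : Type} (k : (ι → α) → MT ι α β) (d : ℕ) (hk : ∀ c, (k c).dle d) :
    ∀ (l : List ι) (acc : ι → α), (queryAll k l acc).dle (l.length + d)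
  | [], acc => by simpa [queryAll] using hk acc
  | i :: l, acc => by
      rw [List.length_cons, show l.length + 1 + d = (l.length + d) + 1 by ring]
      exact fun z => queryAll_dle k d hk l _

theorem val_of_fv {κ : ι → Fin (R + 1)} {ξ : ι → Fin N} {π : ι → Option α} {x : ι → α}
    (hx : Cons π x) {i : ι} {z : α} (h : fv r κ ξ π i = some z) : val r κ ξ x i = z := by
  unfold fv at h
  unfold val
  split_ifs at h ⊢ with h1
  · exact hx i z h
  · simpa using h

/-- the modified variables are live and unknown -/
def ModOK (κ : ι → Fin (R + 1)) (π : ι → Option α) (mods : List ι) : Prop :=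
  ∀ i ∈ mods, κ i = 0 ∧ π i = none

/-- `κ', ξ'` is a modification -/
def IsMod (κ κ' : ι → Fin (R + 1)) (ξ ξ' : ι → Fin N) (mods : List ι) (ν : ι → Fin N) : Prop :=
  (∀ i, i ∉ mods → κ' i = κ i ∧ (κ i ≠ 0 → ξ' i = ξ i)) ∧ (∀ i ∈ mods, κ' i ≠ 0 ∧ ξ' i = ν i)

theorem fv_stable {κ κ' : ι → Fin (R + 1)} {ξ ξ' : ι → Fin N} {π : ι → Option α} {mods : List ι}
    {ν : ι → Fin N} (hm : ModOK κ π mods) (h1 : IsMod κ κ' ξ ξ' mods ν) {i : ι} {z : α}
    (h : fv r κ ξ π i = some z) : fv r κ' ξ' π i = some z := by
  have hi : i ∉ mods := by
    intro hi
    obtain ⟨a1, a2⟩ := hm i hi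
    simp [fv, a1, a2] at h
  obtain ⟨h2, h3⟩ := h1.1 i hi
  unfold fv at h ⊢
  rw [h2]
  split_ifs at h ⊢ with h4
  · exact h
  · rw [h3 h4]; exact h

theorem fv_none {κ : ι → Fin (R + 1)} {ξ : ι → Fin N} {π : ι → Option α} {i : ι}
    (h : fv r κ ξ π i = none) : κ i = 0 ∧ π i = none := by
  unfold fv at h
  split_ifs at h with h1
  · exact ⟨h1, h⟩

theorem evalT_fixed {κ : ι → Fin (R + 1)} {ξ : ι → Fin N} {π : ι → Option α} {T : Term ι α}
    (h : ∀ i ∈ T.1, fv r κ ξ π i ≠ none) {x y : ι → α} (hx : Cons π x) (hy : Cons π y)
    (hT : evalT T (val r κ ξ x)) : evalT T (val r κ ξ y) := by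
  intro i hi
  obtain ⟨c, hc⟩ := Option.ne_none_iff_exists'.1 (h i hi)
  rw [val_of_fv r hy hc, ← val_of_fv r hx hc]
  exact hT i hi

theorem dec_nil (F : List (Term ι α)) (κ : ι → Fin (R + 1)) (ξ : ι → Fin N)
    (π : ι → Option α) : dec r F κ ξ π [] = [] := by
  cases F <;> simp [dec]

theorem core (w : ℕ) (κ : ι → Fin (R + 1)) (ξ : ι → Fin N) : ∀ (F : List (Term ι α))
    (_ : ∀ T ∈ F, T.1.length ≤ w ∧ T.1.Nodup ∧ ∀ i ∈ T.1, ∃ n, r n ∈ T.2 i)
    (π : ι → Option α) (s : ℕ), Hard r F κ ξ π s →
    ∃ (I : List (Info α)) (mods : List ι) (ν : ι → Fin N), I.length = s ∧ (∀ i ∈ I, i.1 < w) ∧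
      mods.length = s ∧ mods.Nodup ∧ ModOK κ π mods ∧ (∀ i ∈ mods, ∃ T ∈ F, i ∈ T.1) ∧
      ∀ (κ' : ι → Fin (R + 1)) (ξ' : ι → Fin N), IsMod κ κ' ξ ξ' mods ν →
        dec r F κ' ξ' π I = mods := by
  intro F
  induction F with
  | nil =>
      intro _ π s hH
      have hs : s = 0 := by
        by_contra hs
        apply hH
        refine ⟨MT.leaf false, 0, by omega, trivial, ?_⟩
        intro x _
        simp [MT.eval, evalF]
      subst hs
      exact ⟨[], [], ξ, rfl, by simp, rfl, List.nodup_nil, by simp [ModOK], by simp,
        fun _ _ _ => rfl⟩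
  | cons T F ih =>
      intro hF π s hH
      have hF' : ∀ T ∈ F, T.1.length ≤ w ∧ T.1.Nodup ∧ ∀ i ∈ T.1, ∃ n, r n ∈ T.2 i :=
        fun T' hT' => hF T' (by simp [hT'])
      obtain ⟨hTw, hTn, hTr⟩ := hF T (by simp)
      rcases Nat.eq_zero_or_pos s with hs | hs
      · subst hs
        exact ⟨[], [], ξ, rfl, by simp, rfl, List.nodup_nil, by simp [ModOK], by simp,
          fun _ _ _ => by simp [dec]⟩
      by_cases hk : killed r κ ξ π T
      · -- killed term
        have hH' : Hard r F κ ξ π s := by
          rintro ⟨D, d, hd, hD, hD2⟩
          apply hH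
          refine ⟨D, d, hd, hD, fun x hx => ?_⟩
          rw [hD2 x hx]
          obtain ⟨i, hi, z, hz, hz2⟩ := hk
          constructor
          · rintro ⟨T', h1, h2⟩; exact ⟨T', by simp [h1], h2⟩
          · rintro ⟨T', h1, h2⟩
            rcases List.mem_cons.1 h1 with h1 | h1
            · subst h1
              have h3 := h2 i hi
              rw [val_of_fv r hx hz] at h3
              exact absurd h3 hz2
            · exact ⟨T', h1, h2⟩
        obtain ⟨I, mods, ν, a1, a2, a3, a4, a5, a7, a6⟩ := ih hF' π s hH'
        refine ⟨I, mods, ν, a1, a2, a3, a4, a5, fun i hi => ?_, fun κ' ξ' h1 => ?_⟩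
        · obtain ⟨T', h1, h2⟩ := a7 i hi
          exact ⟨T', by simp [h1], h2⟩
        have hI : I ≠ [] := by
          intro h; rw [h] at a1; simp at a1; omega
        have hk' : killed r κ' ξ' π T := by
          obtain ⟨i, hi, z, hz, hz2⟩ := hk
          exact ⟨i, hi, z, fv_stable r a5 h1 hz, hz2⟩
        simp only [dec, hI, hk', if_true, if_false]
        exact a6 κ' ξ' h1
      -- stage term
      set U := T.1.filter (fun i => decide (fv r κ ξ π i = none)) with hU
      have hUmem : ∀ i, i ∈ U ↔ i ∈ T.1 ∧ fv r κ ξ π i = none := by
        intro i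
        simp [hU]
      have hUn : U.Nodup := hTn.filter _
      have hUok : ModOK κ π U := fun i hi => fv_none r ((hUmem i).1 hi).2
      have hpos : ∀ i ∈ U, T.1.idxOf i < w ∧ T.1[T.1.idxOf i]? = some i := by
        intro i hi
        have h1 := ((hUmem i).1 hi).1
        have h2 := List.idxOf_lt_length_of_mem h1
        exact ⟨lt_of_lt_of_le h2 hTw, by
          rw [List.getElem?_eq_getElem h2, List.getElem_idxOf]⟩
      -- values satisfying the term
      have hU0 : U ≠ [] := by
        intro hU0
        apply hH
        refine ⟨MT.leaf true, 0, hs, trivial, fun x hx => ?_⟩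
        simp only [MT.eval, true_iff]
        refine ⟨T, by simp, fun i hi => ?_⟩
        cases hfv : fv r κ ξ π i with
        | none =>
            exfalso
            have : i ∈ U := (hUmem i).2 ⟨hi, hfv⟩
            rw [hU0] at this
            simp at this
        | some z =>
            rw [val_of_fv r hx hfv]
            by_contra hz
            exact hk ⟨i, hi, z, hfv, hz⟩
      obtain ⟨i0, hi0⟩ := List.exists_mem_of_ne_nil U hU0
      obtain ⟨n0, hn0⟩ := hTr i0 ((hUmem i0).1 hi0).1
      have hν : ∀ i : ι, ∃ n : Fin N, i ∈ T.1 → r n ∈ T.2 i := by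
        intro i
        by_cases hi : i ∈ T.1
        · obtain ⟨n, hn⟩ := hTr i hi; exact ⟨n, fun _ => hn⟩
        · exact ⟨n0, fun h => absurd h hi⟩
      choose νT hνT using hν
      -- non-killed lemma
      have hnk : ∀ (mods : List ι) (ν : ι → Fin N), ModOK κ π mods →
          (∀ i ∈ T.1, i ∈ mods → r (ν i) ∈ T.2 i) →
          ∀ (κ' : ι → Fin (R + 1)) (ξ' : ι → Fin N), IsMod κ κ' ξ ξ' mods ν →
          ¬ killed r κ' ξ' π T := by
        rintro mods ν hm hv κ' ξ' h1 ⟨i, hi, z, hz, hz2⟩
        cases hfv : fv r κ ξ π i with
        | some c =>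
            have h3 := fv_stable r hm h1 hfv
            rw [hz] at h3
            apply hk
            exact ⟨i, hi, z, by rw [hfv, ← h3], hz2⟩
        | none =>
            obtain ⟨b1, b2⟩ := fv_none r hfv
            by_cases h4 : i ∈ mods
            · obtain ⟨h5, h6⟩ := h1.2 i h4
              simp only [fv, h5, if_false, Option.some.injEq] at hz
              rw [← hz, h6] at hz2
              exact hz2 (hv i hi h4)
            · obtain ⟨h5, _⟩ := h1.1 i h4
              rw [b1] at h5
              simp [fv, h5, b2] at hz
      by_cases hsm : s ≤ U.length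
      · -- truncated final stage
        refine ⟨(U.take s).map (fun e => (T.1.idxOf e, r n0, false)), U.take s, νT, ?_, ?_,
          ?_, ?_, ?_, ?_, ?_⟩
        · simp [hsm]
        · intro i hi
          obtain ⟨e, he, rfl⟩ := List.mem_map.1 hi
          exact (hpos e (List.mem_of_mem_take he)).1
        · simp [hsm]
        · exact hUn.sublist (List.take_sublist _ _)
        · intro e he; exact hUok e (List.mem_of_mem_take he)
        · intro e he
          exact ⟨T, by simp, ((hUmem e).1 (List.mem_of_mem_take he)).1⟩
        · intro κ' ξ' h1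
          have hModt : ModOK κ π (U.take s) := fun e he => hUok e (List.mem_of_mem_take he)
          have hnk' := hnk (U.take s) νT hModt (fun i hi _ => hνT i hi) κ' ξ' h1
          have hI : (U.take s).map (fun e => ((T.1.idxOf e, r n0, false) : Info α)) ≠ [] := by
            intro h
            have := congrArg List.length h
            simp at this
            rcases this with h | h
            · omega
            · exact hU0 h
          simp only [dec]
          rw [if_neg hI, if_neg hnk', stageOf_false _ (by
            intro i hi
            obtain ⟨e, he, rfl⟩ := List.mem_map.1 hi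
            rfl)]
          simp only [dec_nil, List.append_nil]
          unfold entsOf
          rw [List.filterMap_map]
          have : ∀ e ∈ U.take s, ((fun i : Info α => T.1[i.1]?) ∘
              (fun e => ((T.1.idxOf e, r n0, false) : Info α))) e = some e := by
            intro e he
            exact (hpos e (List.mem_of_mem_take he)).2
          rw [List.filterMap_congr this]
          simp
      · -- full stage
        push Not at hsm
        obtain ⟨c, hc⟩ : ∃ c : ι → α,
            Hard r F κ ξ (fun i => if i ∈ U then some (c i) else π i) (s - U.length) := by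
          by_contra hcon
          push Not at hcon
          have hcon' : ∀ c : ι → α, ∃ (D : MT ι α Bool), D.dle (s - U.length - 1) ∧
              ∀ x, Cons (fun i => if i ∈ U then some (c i) else π i) x →
              (D.eval x = true ↔ evalF F (val r κ ξ x)) := by
            intro c
            have := hcon c
            unfold Hard at this
            push Not at this
            obtain ⟨D, d, h1, h2, h3⟩ := this
            exact ⟨D, MT.dle_mono h2 (by omega), h3⟩
          choose D hD1 hD2 using hcon'
          apply hH
          refine ⟨queryAll (fun c => if (∀ x, Cons (fun i => if i ∈ U then some (c i) else π i) x →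
            evalT T (val r κ ξ x)) then MT.leaf true else D c) U (fun _ => r n0),
            U.length + (s - U.length - 1), by omega, ?_, ?_⟩
          · apply queryAll_dle
            intro c
            split_ifs
            · trivial
            · exact hD1 c
          · intro x hx
            rw [queryAll_eval]
            set c : ι → α := fun i => if i ∈ U then x i else r n0 with hcdef
            have hcx : Cons (fun i => if i ∈ U then some (c i) else π i) x := by
              intro i z hz
              by_cases hi : i ∈ U
              · simp only [hi, if_true, Option.some.injEq] at hz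
                rw [← hz, hcdef]
                simp [hi]
              · simp only [hi, if_false] at hz
                exact hx i z hz
            have hfix : ∀ i ∈ T.1, fv r κ ξ (fun i => if i ∈ U then some (c i) else π i) i
                ≠ none := by
              intro i hi h0
              obtain ⟨h1, h2⟩ := fv_none r h0
              by_cases hiU : i ∈ U
              · simp [hiU] at h2
              · simp only [hiU, if_false] at h2
                apply hiU
                rw [hUmem]
                refine ⟨hi, ?_⟩
                simp [fv, h1, h2]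
            split_ifs with hT
            · simp only [MT.eval, true_iff]
              exact ⟨T, by simp, hT x hcx⟩
            · rw [hD2 c x hcx]
              constructor
              · rintro ⟨T', h1, h2⟩; exact ⟨T', by simp [h1], h2⟩
              · rintro ⟨T', h1, h2⟩
                rcases List.mem_cons.1 h1 with h1 | h1
                · subst h1
                  exfalso
                  apply hT
                  intro y hy
                  exact evalT_fixed r hfix hcx hy h2
                · exact ⟨T', h1, h2⟩
        set πc : ι → Option α := fun i => if i ∈ U then some (c i) else π i with hπc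
        obtain ⟨I', mods', ν', a1, a2, a3, a4, a5, a7, a6⟩ := ih hF' πc (s - U.length) hc
        have hdisj : ∀ i ∈ U, i ∉ mods' := by
          intro i hi hi'
          have := (a5 i hi').2
          simp [hπc, hi] at this
        have hmodsT : ∀ i ∈ T.1, i ∈ mods' → False := by
          intro i hi hi'
          obtain ⟨h1, h2⟩ := a5 i hi'
          have hiU : i ∉ U := fun h => hdisj i h hi'
          simp only [hπc, hiU, if_false] at h2
          apply hiU
          rw [hUmem]
          exact ⟨hi, by simp [fv, h1, h2]⟩
        -- the last element of U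
        obtain ⟨A, e0, hA⟩ : ∃ A e0, U = A ++ [e0] := by
          rcases List.eq_nil_or_concat U with h | ⟨A, e0, h⟩
          · exact absurd h hU0
          · exact ⟨A, e0, by simpa using h⟩
        let g : Bool → ι → Info α := fun b e => (T.1.idxOf e, c e, b)
        let S : List (Info α) := A.map (g false) ++ [g true e0]
        have hSlen : S.length = U.length := by
          simp [S, hA]
        have hSmem : ∀ i ∈ S, ∃ e ∈ U, ∃ b, i = g b e := by
          intro i hi
          rcases List.mem_append.1 hi with h | h
          · obtain ⟨e, he, rfl⟩ := List.mem_map.1 h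
            exact ⟨e, by rw [hA]; simp [he], false, rfl⟩
          · simp only [List.mem_singleton] at h
            exact ⟨e0, by rw [hA]; simp, true, h⟩
        have hents : entsOf T S = U := by
          have h1 : ∀ (b : Bool) (l : List ι), (∀ e ∈ l, e ∈ U) →
              (l.map (g b)).filterMap (fun i => T.1[i.1]?) = l := by
            intro b l hl
            rw [List.filterMap_map]
            have : ∀ e ∈ l, ((fun i : Info α => T.1[i.1]?) ∘ (g b)) e = some e := by
              intro e he
              exact (hpos e (hl e he)).2
            rw [List.filterMap_congr this]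
            simp
          unfold entsOf
          have h2 := h1 false A (fun e he => by rw [hA]; simp [he])
          have h3 := h1 true [e0] (fun e he => by
            simp only [List.mem_singleton] at he
            rw [hA, he]; simp)
          have h4 : S = A.map (g false) ++ [e0].map (g true) := rfl
          rw [h4, List.filterMap_append, h2, h3]
          exact hA.symm
        have hupd : updOf T S π = πc := by
          funext b
          unfold updOf
          by_cases hb : b ∈ U
          · have hex : ∃ i ∈ S, T.1[i.1]? = some b := by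
              rw [hA] at hb
              rcases List.mem_append.1 hb with h | h
              · refine ⟨g false b, List.mem_append.2 (Or.inl (List.mem_map_of_mem h)), ?_⟩
                exact (hpos b (by rw [hA]; simp [h])).2
              · simp only [List.mem_singleton] at h
                subst h
                exact ⟨g true b, by simp [S], (hpos b (by rw [hA]; simp)).2⟩
            cases hfind : S.find? (fun i => decide (T.1[i.1]? = some b)) with
            | none =>
                exfalso
                rw [List.find?_eq_none] at hfind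
                obtain ⟨i, hi, hi2⟩ := hex
                have := hfind i hi
                simp [hi2] at this
            | some i =>
                have h1 := List.find?_some hfind
                have h2 := List.mem_of_find?_eq_some hfind
                obtain ⟨e, he, f, rfl⟩ := hSmem i h2
                simp only [decide_eq_true_eq] at h1
                have h3 : some e = some b := by
                  rw [← h1]
                  exact (hpos e he).2.symm
                have h4 : e = b := by simpa using h3
                subst h4
                simp [hπc, hb, g]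
          · cases hfind : S.find? (fun i => decide (T.1[i.1]? = some b)) with
            | none => simp [hπc, hb]
            | some i =>
                exfalso
                have h1 := List.find?_some hfind
                have h2 := List.mem_of_find?_eq_some hfind
                obtain ⟨e, he, f, rfl⟩ := hSmem i h2
                simp only [decide_eq_true_eq] at h1
                have h3 : some e = some b := by
                  rw [← h1]
                  exact (hpos e he).2.symm
                have h4 : e = b := by simpa using h3
                subst h4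
                exact hb he
        have hstage : stageOf (S ++ I') = (S, I') := by
          have h5 : S ++ I' = A.map (g false) ++ g true e0 :: I' := by
            simp [S]
          rw [h5, stageOf_append _ (by
            intro i hi
            obtain ⟨e, _, rfl⟩ := List.mem_map.1 hi
            rfl) _ rfl]
        have hπnone : ∀ i ∈ mods', π i = none := by
          intro i hi
          have h1 := (a5 i hi).2
          have hiU : i ∉ U := fun h => hdisj i h hi
          simpa [hπc, hiU] using h1
        refine ⟨S ++ I', U ++ mods', fun i => if i ∈ U then νT i else ν' i, ?_, ?_, ?_, ?_, ?_,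
          ?_, ?_⟩
        · rw [List.length_append, a1, hSlen]; omega
        · intro i hi
          rcases List.mem_append.1 hi with h | h
          · obtain ⟨e, he, b, rfl⟩ := hSmem i h
            exact (hpos e he).1
          · exact a2 i h
        · rw [List.length_append, a3]; omega
        · rw [List.nodup_append]
          refine ⟨hUn, a4, ?_⟩
          intro a ha b hb hab
          rw [← hab] at hb
          exact hdisj a ha hb
        · intro i hi
          rcases List.mem_append.1 hi with h | h
          · exact hUok i h
          · exact ⟨(a5 i h).1, hπnone i h⟩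
        · intro i hi
          rcases List.mem_append.1 hi with h | h
          · exact ⟨T, by simp, ((hUmem i).1 h).1⟩
          · obtain ⟨T', h1, h2⟩ := a7 i h
            exact ⟨T', by simp [h1], h2⟩
        · intro κ' ξ' h1
          have hnk' := hnk (U ++ mods') _ (by
            intro i hi
            rcases List.mem_append.1 hi with h | h
            · exact hUok i h
            · exact ⟨(a5 i h).1, hπnone i h⟩) (by
            intro i hi hi2
            rcases List.mem_append.1 hi2 with h | h
            · simp only [h, if_true]
              exact hνT i hi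
            · exact (hmodsT i hi h).elim) κ' ξ' h1
          have hI : S ++ I' ≠ [] := by
            simp [S]
          simp only [dec]
          rw [if_neg hI, if_neg hnk', hstage]
          simp only
          rw [hents, hupd]
          congr 1
          apply a6
          constructor
          · intro i hi
            by_cases hiU : i ∈ U
            · have h2 := (hUok i hiU).1
              refine ⟨by simp [zero, hiU, h2], fun h => absurd h2 h⟩
            · have h2 := h1.1 i (by simp [hiU, hi])
              refine ⟨by simp only [zero, hiU, if_false]; exact h2.1, h2.2⟩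
          · intro i hi
            have hiU : i ∉ U := fun h => hdisj i h hi
            have h2 := h1.2 i (by simp [hi])
            refine ⟨by simp only [zero, hiU, if_false]; exact h2.1, ?_⟩
            rw [h2.2]
            simp [hiU]

theorem count [Fintype ι] [Fintype α] (w s : ℕ) (S : Set ι)
    (Fq : (ι → Fin N) → List (Term ι α))
    (hdep : ∀ ξ ξ' : ι → Fin N, (∀ i, i ∉ S → ξ i = ξ' i) → Fq ξ = Fq ξ')
    (hF : ∀ ξ, ∀ T ∈ Fq ξ, T.1.length ≤ w ∧ T.1.Nodup ∧ (∀ i ∈ T.1, ∃ n, r n ∈ T.2 i) ∧
      ∀ i ∈ T.1, i ∈ S) :
    (Finset.univ.filter (fun p : (ι → Fin (R + 1)) × (ι → Fin N) =>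
      Hard r (Fq p.2) p.1 p.2 (fun _ => none) s)).card * R ^ s
      ≤ Fintype.card ((ι → Fin (R + 1)) × (ι → Fin N)) * (2 * w * Fintype.card α * N) ^ s := by
  letI : BEq ι := instBEqOfDecidableEq
  set Bad := Finset.univ.filter (fun p : (ι → Fin (R + 1)) × (ι → Fin N) =>
      Hard r (Fq p.2) p.1 p.2 (fun _ => none) s) with hBad
  have hcore : ∀ p : Bad, ∃ (I : List (Info α)) (mods : List ι) (ν : ι → Fin N),
      I.length = s ∧ (∀ i ∈ I, i.1 < w) ∧
      mods.length = s ∧ mods.Nodup ∧ ModOK p.1.1 (fun _ => none : ι → Option α) mods ∧
      (∀ i ∈ mods, ∃ T ∈ Fq p.1.2, i ∈ T.1) ∧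
      ∀ (κ' : ι → Fin (R + 1)) (ξ' : ι → Fin N), IsMod p.1.1 κ' p.1.2 ξ' mods ν →
        dec r (Fq p.1.2) κ' ξ' (fun _ => none) I = mods := by
    intro p
    have := (Finset.mem_filter.1 p.2).2
    exact core r w _ _ _ (fun T hT => ⟨(hF _ T hT).1, (hF _ T hT).2.1, (hF _ T hT).2.2.1⟩) _ s this
  choose I mods ν h1 h2 h3 h4 h5 h7 h6 using hcore
  -- the encoding
  let enc : Bad × (Fin s → Fin R) →
      ((ι → Fin (R + 1)) × (ι → Fin N)) × (Fin s → Fin w × α × Bool × Fin N) :=
    fun p => ((fun e => if h : e ∈ mods p.1 then
        (p.2 ⟨(mods p.1).idxOf e, by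
          have := List.idxOf_lt_length_of_mem h
          rwa [h3] at this⟩).succ else p.1.1.1 e,
        fun e => if e ∈ mods p.1 then ν p.1 e else p.1.1.2 e),
      fun i => (⟨((I p.1)[i.1]'(by rw [h1]; exact i.2)).1, h2 _ _ (List.getElem_mem _)⟩,
        ((I p.1)[i.1]'(by rw [h1]; exact i.2)).2.1, ((I p.1)[i.1]'(by rw [h1]; exact i.2)).2.2,
        p.1.1.2 ((mods p.1)[i.1]'(by rw [h3]; exact i.2))))
  have hFq : ∀ p : Bad × (Fin s → Fin R), Fq (enc p).1.2 = Fq p.1.1.2 := by
    intro p
    apply hdep
    intro i hi
    have : i ∉ mods p.1 := by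
      intro hm
      obtain ⟨T, hT, hT2⟩ := h7 p.1 i hm
      exact hi ((hF _ T hT).2.2.2 i hT2)
    simp [enc, this]
  have hdec : ∀ p : Bad × (Fin s → Fin R),
      dec r (Fq (enc p).1.2) (enc p).1.1 (enc p).1.2 (fun _ => none) (I p.1) = mods p.1 := by
    intro p
    rw [hFq]
    apply h6
    constructor
    · intro e he
      simp [enc, he]
    · intro e he
      simp [enc, he]
  have hinj : Function.Injective enc := by
    rintro ⟨p, g⟩ ⟨p', g'⟩ hEq
    have e1 : (enc (p, g)).1 = (enc (p', g')).1 := by rw [hEq]
    have e2 : (enc (p, g)).2 = (enc (p', g')).2 := by rw [hEq]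
    have eI : I p = I p' := by
      apply List.ext_getElem
      · rw [h1, h1]
      · intro i hi1 hi2
        have hi : i < s := by rw [h1] at hi1; exact hi1
        have := congrFun e2 ⟨i, hi⟩
        simp only [enc, Prod.mk.injEq, Fin.mk.injEq] at this
        exact Prod.ext this.1 (Prod.ext this.2.1 this.2.2.1)
    have em : mods p = mods p' := by
      rw [← hdec (p, g), ← hdec (p', g'), e1]
      simp only [eI]
    have ek : p.1.1 = p'.1.1 := by
      funext e
      by_cases he : e ∈ mods p
      · have a1 := (h5 p _ he).1
        have he' : e ∈ mods p' := by rw [← em]; exact he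
        have a2 := (h5 p' _ he').1
        rw [a1, a2]
      · have he' : e ∉ mods p' := by rw [← em]; exact he
        have := congrFun (congrArg Prod.fst e1) e
        simpa [enc, he, he'] using this
    have ex : p.1.2 = p'.1.2 := by
      funext e
      by_cases he : e ∈ mods p
      · have hlt : (mods p).idxOf e < (mods p).length := List.idxOf_lt_length_of_mem he
        have hlt' : (mods p).idxOf e < (mods p').length := by rw [← em]; exact hlt
        have hs : (mods p).idxOf e < s := by rwa [h3] at hlt
        have h8 := congrFun e2 ⟨(mods p).idxOf e, hs⟩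
        simp only [enc, Prod.mk.injEq] at h8
        have h9 := h8.2.2.2
        have h10 : (mods p)[(mods p).idxOf e] = e := List.getElem_idxOf hlt
        have h11 : (mods p')[(mods p).idxOf e] = e := by
          simp only [← em]; exact h10
        rw [h10, h11] at h9
        exact h9
      · have he' : e ∉ mods p' := by rw [← em]; exact he
        have := congrFun (congrArg Prod.snd e1) e
        simpa [enc, he, he'] using this
    have ep : p = p' := Subtype.ext (Prod.ext ek ex)
    subst ep
    refine Prod.ext rfl ?_
    funext i
    have hi : i.1 < (mods p).length := by rw [h3]; exact i.2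
    have hmemi : (mods p)[i.1] ∈ mods p := List.getElem_mem _
    have := congrFun (congrArg Prod.fst e1) ((mods p)[i.1])
    simp only [enc, hmemi, dite_true, Fin.succ_inj] at this
    have hidx : (mods p).idxOf (mods p)[i.1] = i.1 := (h4 p).idxOf_getElem i.1 hi
    have e3 : (⟨(mods p).idxOf (mods p)[i.1], by rw [hidx]; exact i.2⟩ : Fin s) = i :=
      Fin.ext hidx
    rw [e3] at this
    exact this
  have hcard := Fintype.card_le_of_injective enc hinj
  rw [Fintype.card_prod, Fintype.card_prod] at hcard
  simp only [Fintype.card_fun, Fintype.card_fin, Fintype.card_prod, Fintype.card_bool,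
    Fintype.card_coe] at hcard ⊢
  calc _ ≤ _ := hcard
    _ = _ := by ring

/-- the terms for one cube -/
theorem exists_terms [Fintype ι] [Fintype α] (w : ℕ) (S : Set ι) (f : (ι → α) → Bool)
    (x0 : ι → α) (hC : Cert S x0 w (Set.range r) f) :
    ∃ F : List (Term ι α), (∀ T ∈ F, T.1.length ≤ w ∧ T.1.Nodup ∧ (∀ i ∈ T.1, ∃ n, r n ∈ T.2 i) ∧
      ∀ i ∈ T.1, i ∈ S) ∧
      ∀ y ∈ {y : ι → α | ∀ i, i ∉ S → y i = x0 i}, (f y = true ↔ evalF F y) := by
  unfold Cert at hC
  choose! T Γ hT using hC
  let A : Finset (ι → α) := Finset.univ.filter (fun x => (∀ i, i ∉ S → x i = x0 i) ∧ f x = true)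
  refine ⟨A.toList.map (fun x => (((T x).filter (fun i => decide (i ∈ S))).dedup, Γ x)), ?_, ?_⟩
  · intro t ht
    obtain ⟨x, hx, rfl⟩ := List.mem_map.1 ht
    simp only [A, Finset.mem_toList, Finset.mem_filter, Finset.mem_univ, true_and] at hx
    obtain ⟨g1, g2, g3, g4⟩ := hT x hx.1 hx.2
    refine ⟨?_, List.nodup_dedup _, ?_, ?_⟩
    · exact ((List.dedup_sublist _).length_le).trans ((List.length_filter_le _ _).trans g1)
    · intro i hi
      simp only [List.mem_dedup, List.mem_filter, decide_eq_true_eq] at hi
      obtain ⟨z, ⟨n, rfl⟩, hz⟩ := g3 i hi.1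
      exact ⟨n, hz⟩
    · intro i hi
      simp only [List.mem_dedup, List.mem_filter, decide_eq_true_eq] at hi
      exact hi.2
  · intro y hy
    simp only [Set.mem_setOf_eq] at hy
    constructor
    · intro hfy
      refine ⟨_, List.mem_map_of_mem (a := y) ?_, ?_⟩
      · simp only [A, Finset.mem_toList, Finset.mem_filter, Finset.mem_univ, true_and]
        exact ⟨hy, hfy⟩
      · intro i hi
        simp only [List.mem_dedup, List.mem_filter, decide_eq_true_eq] at hi
        exact (hT y hy hfy).2.1 i hi.1
    · rintro ⟨t, ht, ht2⟩
      obtain ⟨x, hx, rfl⟩ := List.mem_map.1 ht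
      simp only [A, Finset.mem_toList, Finset.mem_filter, Finset.mem_univ, true_and] at hx
      obtain ⟨g1, g2, g3, g4⟩ := hT x hx.1 hx.2
      apply g4 y hy
      intro i hi
      by_cases hiS : i ∈ S
      · exact ht2 i (by simp only [List.mem_dedup, List.mem_filter, decide_eq_true_eq]
                        exact ⟨hi, hiS⟩)
      · rw [hy i hiS, ← hx.1 i hiS]
        exact g2 i hi

end Pool.Agent.Lib.Pa76659H.Sw

namespace Pool.Agent.Lib.Pa76659H

open Pool.Agent.Lib.Pa76659

open Classical in
/-- MODULE Sw -/
theorem switch {ι α : Type} [Fintype ι] [Fintype α] (N R w s : ℕ) (r : Fin N → α) (S : Set ι)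
    (f : (ι → α) → Bool) :
    (Finset.univ.filter (fun p : (ι → Fin (R + 1)) × (ι → Fin N) =>
      Cert S (r ∘ p.2) w (Set.range r) f ∧
        ¬ Sh (S ∩ {i | p.1 i = 0}) (r ∘ p.2) s f)).card * R ^ (s + 1)
      ≤ Fintype.card ((ι → Fin (R + 1)) × (ι → Fin N)) * (2 * w * Fintype.card α * N) ^ (s + 1) := by
  let P : Set (ι → α) → List (Sw.Term ι α) → Prop := fun Q F =>
    (∀ T ∈ F, T.1.length ≤ w ∧ T.1.Nodup ∧ (∀ i ∈ T.1, ∃ n, r n ∈ T.2 i) ∧
      ∀ i ∈ T.1, i ∈ S) ∧ ∀ y ∈ Q, (f y = true ↔ Sw.evalF F y)
  let Fq : (ι → Fin N) → List (Sw.Term ι α) := fun ξ =>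
    if h : ∃ F, P {y : ι → α | ∀ i, i ∉ S → y i = (r ∘ ξ) i} F then h.choose else []
  have hFq : ∀ ξ, (∃ F, P {y : ι → α | ∀ i, i ∉ S → y i = (r ∘ ξ) i} F) →
      P {y : ι → α | ∀ i, i ∉ S → y i = (r ∘ ξ) i} (Fq ξ) := by
    intro ξ h
    simp only [Fq, dif_pos h]
    exact h.choose_spec
  have hcount := Sw.count (R := R) r w (s + 1) S Fq (by
    intro ξ ξ' h
    have : {y : ι → α | ∀ i, i ∉ S → y i = (r ∘ ξ) i} =
        {y : ι → α | ∀ i, i ∉ S → y i = (r ∘ ξ') i} := by
      ext y
      simp only [Set.mem_setOf_eq, Function.comp]
      constructor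
      · intro hy i hi
        rw [hy i hi, h i hi]
      · intro hy i hi
        rw [hy i hi, h i hi]
    simp only [Fq, this]) (by
    intro ξ T hT
    by_cases h : ∃ F, P {y : ι → α | ∀ i, i ∉ S → y i = (r ∘ ξ) i} F
    · exact (hFq ξ h).1 T hT
    · simp only [Fq, dif_neg h] at hT
      simp at hT)
  refine le_trans (Nat.mul_le_mul_right _ (Finset.card_le_card ?_)) hcount
  intro p hp
  simp only [Finset.mem_filter, Finset.mem_univ, true_and] at hp ⊢
  obtain ⟨hC, hS⟩ := hp
  have hP := hFq p.2 (Sw.exists_terms r w S f (r ∘ p.2) hC)
  rintro ⟨D, d, hd, hD, hD2⟩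
  apply hS
  refine ⟨D, MT.dle_mono hD (by omega), fun x hx => ?_⟩
  have h1 : Sw.val r p.1 p.2 x = x := by
    funext i
    unfold Sw.val
    split_ifs with h
    · rfl
    · rw [hx i (by
        rintro ⟨_, h2⟩
        exact h h2)]
      rfl
  have h2 := hD2 x (by intro i z hz; simp at hz)
  rw [h1] at h2
  have h3 := hP.2 x (by
    intro i hi
    exact hx i (fun h => hi h.1))
  rw [← h3] at h2
  exact (Bool.eq_iff_iff.2 h2).symm

end Pool.Agent.Lib.Pa76659H
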