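import Pool.Agent.Lib.Pa76659H.Base

/-!
Tables: encoding of decision trees which ask the join oracle.
-/

namespace Pool.Agent.Lib.Pa76659H

open Pool.Agent.Lib.Pa76659

theorem enc_length : ∀ w : Str, (enc w).length = 2 * w.length
  | [] => rfl
  | b :: w => by simp only [enc, List.length_cons, enc_length w]; ring

theorem enc_inj : ∀ (w w' c c' : Str), enc w ++ false :: c = enc w' ++ false :: c' →
    w = w' ∧ c = c'
  | [], [], c, c', h => by simpa [enc] using h
  | [], b :: w', c, c', h => by simp [enc] at h
  | b :: w, [], c, c', h => by simp [enc] at h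
  | b :: w, b' :: w', c, c', h => by
      simp only [enc, List.cons_append, List.cons.injEq, true_and] at h
      obtain ⟨h1, h2⟩ := enc_inj w w' c c' h.2
      exact ⟨by rw [h.1, h1], h2⟩

theorem tab_inj {j B : ℕ} {x w : Str} {t1 t2 : Bool} {j' B' : ℕ} {x' w' : Str} {t1' t2' : Bool}
    (h : tab j B x w t1 t2 = tab j' B' x' w' t1' t2') :
    j = j' ∧ x = x' ∧ w = w' ∧ t1 = t1' ∧ t2 = t2' := by
  simp only [tab, List.cons.injEq, true_and] at h
  obtain ⟨h1, h2, h3⟩ := h
  obtain ⟨h4, h5⟩ := enc_inj _ _ _ _ h3
  obtain ⟨h6, h7⟩ := code_inj h5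
  exact ⟨h6, h7, h4, h1, h2⟩

theorem tab_length (j B : ℕ) (x w : Str) (t1 t2 : Bool) :
    (tab j B x w t1 t2).length = j + 7 + 2 * w.length + (x.length + 2) ^ (2 ^ B) + x.length := by
  simp only [tab, List.length_cons, List.length_append, enc_length, code_length]
  ring

theorem tab_ne_false (j B : ℕ) (x w : Str) (t1 t2 : Bool) (v : Str) :
    tab j B x w t1 t2 ≠ false :: v := by simp [tab]

/-- Table programs. -/
inductive WT
  | halt : Bool → WT
  | emit : Bool → WT → WT
  | ask : WT → WT → WT

namespace WT

def emitAll : Str → WT → WT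
  | [], r => r
  | a :: u, r => emitAll u (emit a r)

def comp : DT Str Bool → WT
  | DT.leaf b => halt b
  | DT.node u f t => emitAll u (ask (comp f) (comp t))

def nxt : WT → Bool → WT
  | halt b, _ => halt b
  | emit _ r, _ => r
  | ask f t, b => if b = true then t else f

def desc (T : WT) : Str → WT
  | [] => T
  | b :: w => nxt (desc T w) b

/-- table bits -/
def bit : WT → Bool → Bool → Bool
  | halt b, t1, t2 => t1 && (t2 || b)
  | emit d _, t1, t2 => t1 && !t2 && d
  | ask _ _, t1, t2 => !t1 && t2

/-- running with fuel -/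
def run (C : Lang) : ℕ → WT → Str → Option Bool
  | 0, _, _ => none
  | _ + 1, halt b, _ => some b
  | n + 1, emit d r, u => run C n r (d :: u)
  | n + 1, ask f t, u => run C n (if C u = true then t else f) []

theorem walk_eq (j B : ℕ) (X C : Lang) (x : Str) (T : WT)
    (h : ∀ w t1 t2, X (tab j B x w t1 t2) = bit (desc T w) t1 t2) :
    ∀ (n : ℕ) (w u : Str), walk j B X C x n w u = run C n (desc T w) u
  | 0, w, u => by simp [walk, run]
  | n + 1, w, u => by
      have ih := walk_eq j B X C x T h n
      rw [walk, h, h, h]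
      cases hd : desc T w with
      | halt b => simp [bit, run]
      | emit d r => simp [bit, run, ih, desc, hd, nxt]
      | ask f t => simp [bit, run, ih, desc, hd, nxt]

theorem run_emitAll (C : Lang) (r : WT) : ∀ (v u : Str) (n : ℕ),
    run C (n + v.length) (emitAll v r) u = run C n r (v ++ u)
  | [], u, n => by simp [emitAll]
  | a :: v, u, n => by
      rw [emitAll, List.length_cons, show n + (v.length + 1) = (n + 1) + v.length by ring,
        run_emitAll C (emit a r) v u (n + 1), run]
      simp

theorem run_comp (C : Lang) (L : ℕ) : ∀ (T : DT Str Bool) (d n : ℕ), T.depth ≤ d →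
    T.QIn {u | u.length ≤ L} → d * (L + 1) + 1 ≤ n → run C n (comp T) [] = some (T.eval C)
  | DT.leaf b, d, n, _, _, h => by
      obtain ⟨n, rfl⟩ : ∃ n', n = n' + 1 := ⟨n - 1, by omega⟩
      rfl
  | DT.node v f t, 0, n, h, _, _ => by simp [DT.depth] at h
  | DT.node v f t, d + 1, n, h, ⟨hv, hf, ht⟩, hn => by
      simp only [DT.depth] at h
      have hv' : v.length ≤ L := hv
      have h1 : (d + 1) * (L + 1) + 1 = d * (L + 1) + 1 + (L + 1) := by ring
      obtain ⟨n', rfl⟩ : ∃ n', n = (n' + 1) + v.length := ⟨n - v.length - 1, by omega⟩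
      rw [comp, run_emitAll, List.append_nil, run, DT.eval]
      have ihf := run_comp C L f d n' (by omega) hf (by omega)
      have iht := run_comp C L t d n' (by omega) ht (by omega)
      split_ifs
      · exact iht
      · exact ihf

theorem desc_comp_leaf (b : Bool) : ∀ w : Str, desc (comp (DT.leaf b)) w = halt b
  | [] => rfl
  | c :: w => by rw [desc, desc_comp_leaf b w]; rfl

end WT

end Pool.Agent.Lib.Pa76659H
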